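import Pool.Agent.helper616_TS.Defs
import Pool.Agent.helper616_RP.Defs

/-!
# Project TG (helper616): definitions
-/

set_option autoImplicit false

open Finset MeasureTheory Filter Topology
open Pool.Agent.helper616_TS (LogBdd MeanZero)
open Pool.Agent.helper616_RP (B)

namespace Pool.Agent.helper616_TG

/-- the function `h`, shifted by `X` -/
noncomputable def ext (h : ℕ → ℝ) (X j : ℕ) : ℝ := if X ≤ j then h (j - X) else 0

/-- the term with the argument `s * ω.1 - n * ω.2` -/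
noncomputable def term (h : ℕ → ℝ) (s : ℝ) (n : ℕ) (ω : ℝ × ℝ) : ℝ :=
  if 0 ≤ s * ω.1 - n * ω.2 then h ⌊s * ω.1 - n * ω.2⌋₊ else 0

/-- the sum -/
noncomputable def SS (w h : ℕ → ℝ) (s : ℝ) (ω : ℝ × ℝ) : ℝ :=
  ∑ n ∈ range (⌊s * ω.1 / ω.2⌋₊ + 1), w n * term h s n ω

/-- `K g(q)` at the numbers `K q + i`, zero elsewhere -/
noncomputable def cell (g : ℕ → ℝ) (K : ℕ) (i : ℤ) (m : ℕ) : ℝ :=
  if (K : ℤ) ∣ ((m : ℤ) - i) ∧ i ≤ (m : ℤ) then K * g (((m : ℤ) - i) / K).toNat else 0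

/-- weighted number of pairs with `a ≤ s - l₁ p - l₂ q < b` -/
noncomputable def WW (g : ℕ → ℝ) (l : ℝ × ℝ) (s a b : ℝ) : ℝ :=
  ∑ p ∈ range (⌊(s + |a|) / l.1⌋₊ + 1), ∑ q ∈ range (⌊(s + |a|) / l.2⌋₊ + 1),
    if a ≤ s - l.1 * p - l.2 * q ∧ s - l.1 * p - l.2 * q < b then g p * g q else 0

/-- number of pairs of primes with `a ≤ s - l₁ p - l₂ q < b` -/
noncomputable def cnt (l : ℝ × ℝ) (s a b : ℝ) : ℕ :=
  Set.ncard {x : ℕ × ℕ | x.1.Prime ∧ x.2.Prime ∧ a ≤ s - l.1 * x.1 - l.2 * x.2 ∧ s - l.1 * x.1 - l.2 * x.2 < b}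

/-- pairs for the differences -/
noncomputable def dcnt (c l : ℝ) (N : ℕ) (a b : ℝ) : ℕ :=
  Set.ncard {x : ℕ × ℕ | x.1 < N ∧ x.1.Prime ∧ x.2.Prime ∧ a ≤ l * (x.1 : ℝ) ^ c - x.2 ∧ l * (x.1 : ℝ) ^ c - x.2 < b}

end Pool.Agent.helper616_TG
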