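import Pool.Agent.helper616_TG.Defs

/-!
# Project TG (helper616): from cells to intervals
-/

set_option autoImplicit false
set_option maxHeartbeats 4000000

open Finset MeasureTheory Filter Topology
open Pool.Agent.helper616_TS (LogBdd MeanZero)
open Pool.Agent.helper616_RP (B)

namespace Pool.Agent.helper616_TG

namespace TG10


theorem F_self (F : ℕ → ℝ → ℝ → ℝ)
    (hadd : ∀ j a b c, a ≤ b → b ≤ c → F j a c = F j a b + F j b c) (j : ℕ) (a : ℝ) : F j a a = 0 := by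
  have := hadd j a a a le_rfl le_rfl
  linarith

theorem F_mono (F : ℕ → ℝ → ℝ → ℝ) (h0 : ∀ j a b, 0 ≤ F j a b)
    (hadd : ∀ j a b c, a ≤ b → b ≤ c → F j a c = F j a b + F j b c) (j : ℕ) {a u v b : ℝ}
    (h1 : a ≤ u) (h2 : u ≤ v) (h3 : v ≤ b) : F j u v ≤ F j a b := by
  have e1 := hadd j a u b h1 (h2.trans h3)
  have e2 := hadd j u v b h2 h3
  have := h0 j a u
  have := h0 j v b
  linarith

theorem F_win (F : ℕ → ℝ → ℝ → ℝ)
    (hadd : ∀ j a b c, a ≤ b → b ≤ c → F j a c = F j a b + F j b c) (κ ρ : ℝ) (hκ : 0 < κ)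
    (h : ∀ K : ℕ, 1 ≤ K → ∀ i : ℤ,
      Tendsto (fun j => F j (i * κ / K) ((i + 1) * κ / K)) atTop (𝓝 (ρ * (κ / K))))
    (K : ℕ) (hK : 1 ≤ K) (i0 i1 : ℤ) (hi : i0 ≤ i1) :
    Tendsto (fun j => F j (i0 * κ / K) (i1 * κ / K)) atTop (𝓝 (ρ * (((i1 : ℝ) - i0) * (κ / K)))) := by
  have hK0 : (0 : ℝ) < K := by exact_mod_cast hK
  induction i1, hi using Int.le_induction with
  | base =>
    have e : (fun j => F j ((i0 : ℝ) * κ / K) ((i0 : ℝ) * κ / K)) = fun _ => (0 : ℝ) := by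
      funext j
      exact F_self F hadd j _
    rw [e, sub_self, zero_mul, mul_zero]
    exact tendsto_const_nhds
  | succ n hn ih =>
    have e : (fun j => F j ((i0 : ℝ) * κ / K) (((n + 1 : ℤ) : ℝ) * κ / K))
        = fun j => F j ((i0 : ℝ) * κ / K) ((n : ℝ) * κ / K)
          + F j ((n : ℝ) * κ / K) (((n : ℝ) + 1) * κ / K) := by
      funext j
      have hc : (((n + 1 : ℤ) : ℝ)) = (n : ℝ) + 1 := by push_cast; ring
      rw [hc]
      apply hadd
      · have : (i0 : ℝ) ≤ n := by exact_mod_cast hn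
        gcongr
      · gcongr
        linarith
    rw [e]
    have h2 := ih.add (h K hK n)
    have e3 : ρ * ((((n + 1 : ℤ) : ℝ) - i0) * (κ / K))
        = ρ * (((n : ℝ) - i0) * (κ / K)) + ρ * (κ / K) := by push_cast; ring
    rw [e3]
    exact h2

theorem squeeze (F : ℕ → ℝ → ℝ → ℝ) (h0 : ∀ j a b, 0 ≤ F j a b) (hadd : ∀ j a b c, a ≤ b → b ≤ c → F j a c = F j a b + F j b c)
    (κ ρ : ℝ) (hκ : 0 < κ)
    (h : ∀ K : ℕ, 1 ≤ K → ∀ i : ℤ, Tendsto (fun j => F j (i * κ / K) ((i + 1) * κ / K)) atTop (𝓝 (ρ * (κ / K))))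
    (G : ℕ → ℝ) (u v : ℝ) (huv : u < v) (hG1 : ∀ j, G j ≤ F j u v) (hG2 : ∀ ε : ℝ, 0 < ε → ε < v - u → ∀ j, F j (u + ε) v ≤ G j) :
    Tendsto G atTop (𝓝 (ρ * (v - u))) := by
  have hρ : 0 ≤ ρ := by
    have h1 := h 1 le_rfl 0
    have h2 : 0 ≤ ρ * (κ / (1 : ℕ)) := ge_of_tendsto' h1 fun j => h0 j _ _
    have h3 : 0 ≤ ρ * κ := by simpa using h2
    by_contra hneg
    have : ρ * κ < 0 := mul_neg_of_neg_of_pos (not_le.1 hneg) hκ
    linarith
  have hKex : ∀ δ : ℝ, 0 < δ → ∃ K : ℕ, 1 ≤ K ∧ κ / K ≤ δ := by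
    intro δ hδ
    obtain ⟨n, hn⟩ := exists_nat_gt (κ / δ)
    refine ⟨n + 1, by omega, ?_⟩
    have hn1 : (0 : ℝ) < ((n + 1 : ℕ) : ℝ) := by positivity
    rw [div_le_iff₀ hn1]
    rw [div_lt_iff₀ hδ] at hn
    push_cast
    nlinarith
  refine tendsto_order.2 ⟨fun a ha => ?_, fun a ha => ?_⟩
  · -- lower bound
    set δ : ℝ := min ((v - u) / 2) ((ρ * (v - u) - a) / (2 * (ρ + 1))) with hδd
    have hδ : 0 < δ := lt_min (by linarith) (div_pos (by linarith) (by linarith))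
    have hδ1 : δ ≤ (v - u) / 2 := min_le_left _ _
    have hδ2 : ρ * δ < ρ * (v - u) - a := by
      have h1 : δ ≤ (ρ * (v - u) - a) / (2 * (ρ + 1)) := min_le_right _ _
      rw [le_div_iff₀ (by linarith)] at h1
      nlinarith
    obtain ⟨K, hK, hKδ⟩ := hKex (δ / 4) (by linarith)
    have hK0 : (0 : ℝ) < K := by exact_mod_cast hK
    have hκK : 0 < κ / K := div_pos hκ hK0
    have hconv : ∀ x : ℝ, x * K / κ * (κ / K) = x := by
      intro x
      field_simp
    have hmulc : ∀ x : ℝ, x * κ / K = x * (κ / K) := fun x => by ring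
    set i0 : ℤ := ⌈(u + δ / 2) * K / κ⌉ with hi0
    set i1 : ℤ := ⌊v * K / κ⌋ with hi1
    have a1 : u + δ / 2 ≤ (i0 : ℝ) * κ / K := by
      have h1 : (u + δ / 2) * K / κ ≤ (i0 : ℝ) := Int.le_ceil _
      have h2 := mul_le_mul_of_nonneg_right h1 hκK.le
      rw [hconv] at h2
      rw [hmulc]
      exact h2
    have a2 : (i0 : ℝ) * κ / K ≤ u + δ / 2 + κ / K := by
      have h1 : (i0 : ℝ) < (u + δ / 2) * K / κ + 1 := Int.ceil_lt_add_one _
      have h2 := mul_le_mul_of_nonneg_right h1.le hκK.le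
      rw [add_mul, hconv, one_mul] at h2
      rw [hmulc]
      exact h2
    have a3 : (i1 : ℝ) * κ / K ≤ v := by
      have h1 : (i1 : ℝ) ≤ v * K / κ := Int.floor_le _
      have h2 := mul_le_mul_of_nonneg_right h1 hκK.le
      rw [hconv] at h2
      rw [hmulc]
      exact h2
    have a4 : v - κ / K ≤ (i1 : ℝ) * κ / K := by
      have h1 : v * K / κ - 1 < (i1 : ℝ) := Int.sub_one_lt_floor _
      have h2 := mul_le_mul_of_nonneg_right h1.le hκK.le
      rw [sub_mul, hconv, one_mul] at h2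
      rw [hmulc]
      exact h2
    have hlt : (i0 : ℝ) * κ / K < (i1 : ℝ) * κ / K := by linarith
    have hile : i0 ≤ i1 := by
      by_contra hcon
      have h1 : (i1 : ℝ) ≤ i0 := by exact_mod_cast (not_le.1 hcon).le
      have h2 : (i1 : ℝ) * κ / K ≤ (i0 : ℝ) * κ / K := by gcongr
      linarith
    have hw := F_win F hadd κ ρ hκ h K hK i0 i1 hile
    have hval : a < ρ * (((i1 : ℝ) - i0) * (κ / K)) := by
      have h1 : v - u - δ ≤ ((i1 : ℝ) - i0) * (κ / K) := by
        rw [sub_mul, ← hmulc, ← hmulc]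
        linarith
      have h2 := mul_le_mul_of_nonneg_left h1 hρ
      have h3 : ρ * (v - u - δ) = ρ * (v - u) - ρ * δ := by ring
      linarith
    filter_upwards [hw.eventually (lt_mem_nhds hval)] with j hj
    refine lt_of_lt_of_le hj ((F_mono F h0 hadd j a1 hlt.le a3).trans ?_)
    exact hG2 (δ / 2) (by linarith) (by linarith) j
  · -- upper bound
    set δ : ℝ := (a - ρ * (v - u)) / (2 * (ρ + 1)) with hδd
    have hδ : 0 < δ := div_pos (by linarith) (by linarith)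
    have hδ2 : ρ * δ < a - ρ * (v - u) := by
      have h1 : δ * (2 * (ρ + 1)) = a - ρ * (v - u) := by
        rw [hδd]
        field_simp
      nlinarith
    obtain ⟨K, hK, hKδ⟩ := hKex (δ / 2) (by linarith)
    have hK0 : (0 : ℝ) < K := by exact_mod_cast hK
    have hκK : 0 < κ / K := div_pos hκ hK0
    have hconv : ∀ x : ℝ, x * K / κ * (κ / K) = x := by
      intro x
      field_simp
    have hmulc : ∀ x : ℝ, x * κ / K = x * (κ / K) := fun x => by ring
    set i0 : ℤ := ⌊u * K / κ⌋ with hi0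
    set i1 : ℤ := ⌈v * K / κ⌉ with hi1
    have a1 : (i0 : ℝ) * κ / K ≤ u := by
      have h1 : (i0 : ℝ) ≤ u * K / κ := Int.floor_le _
      have h2 := mul_le_mul_of_nonneg_right h1 hκK.le
      rw [hconv] at h2
      rw [hmulc]
      exact h2
    have a2 : u - κ / K ≤ (i0 : ℝ) * κ / K := by
      have h1 : u * K / κ - 1 < (i0 : ℝ) := Int.sub_one_lt_floor _
      have h2 := mul_le_mul_of_nonneg_right h1.le hκK.le
      rw [sub_mul, hconv, one_mul] at h2
      rw [hmulc]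
      exact h2
    have a3 : v ≤ (i1 : ℝ) * κ / K := by
      have h1 : v * K / κ ≤ (i1 : ℝ) := Int.le_ceil _
      have h2 := mul_le_mul_of_nonneg_right h1 hκK.le
      rw [hconv] at h2
      rw [hmulc]
      exact h2
    have a4 : (i1 : ℝ) * κ / K ≤ v + κ / K := by
      have h1 : (i1 : ℝ) < v * K / κ + 1 := Int.ceil_lt_add_one _
      have h2 := mul_le_mul_of_nonneg_right h1.le hκK.le
      rw [add_mul, hconv, one_mul] at h2
      rw [hmulc]
      exact h2
    have hlt : (i0 : ℝ) * κ / K < (i1 : ℝ) * κ / K := by linarith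
    have hile : i0 ≤ i1 := by
      by_contra hcon
      have h1 : (i1 : ℝ) ≤ i0 := by exact_mod_cast (not_le.1 hcon).le
      have h2 : (i1 : ℝ) * κ / K ≤ (i0 : ℝ) * κ / K := by gcongr
      linarith
    have hw := F_win F hadd κ ρ hκ h K hK i0 i1 hile
    have hval : ρ * (((i1 : ℝ) - i0) * (κ / K)) < a := by
      have h1 : ((i1 : ℝ) - i0) * (κ / K) ≤ v - u + δ := by
        rw [sub_mul, ← hmulc, ← hmulc]
        linarith
      have h2 := mul_le_mul_of_nonneg_left h1 hρ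
      have h3 : ρ * (v - u + δ) = ρ * (v - u) + ρ * δ := by ring
      linarith
    filter_upwards [hw.eventually (gt_mem_nhds hval)] with j hj
    exact lt_of_le_of_lt ((hG1 j).trans (F_mono F h0 hadd j a1 huv.le a3)) hj

end TG10

end Pool.Agent.helper616_TG
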