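import Pool.Agent.helper616_TG.Defs

/-!
# Project TG (helper616): numbers of pairs, differences
-/

set_option autoImplicit false
set_option maxHeartbeats 4000000

open Finset MeasureTheory Filter Topology
open Pool.Agent.helper616_TS (LogBdd MeanZero)
open Pool.Agent.helper616_RP (B)

namespace Pool.Agent.helper616_TG

namespace TG12


private theorem key_aux (c l : ℝ) (hl : 0 < l) (K : ℕ) (hK : 1 ≤ K) (i : ℤ) (p r : ℕ) :
    ((i : ℝ) / K ≤ l * (p : ℝ) ^ c - r ∧ l * (p : ℝ) ^ c - r < (i + 1) / K) ↔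
      ((⌊K * l * (p : ℝ) ^ c⌋₊ : ℕ) : ℤ) = K * r + i := by
  have hK0 : (0 : ℝ) < K := by exact_mod_cast hK
  have hx : 0 ≤ K * l * (p : ℝ) ^ c := by positivity
  rw [Int.natCast_floor_eq_floor hx, Int.floor_eq_iff, div_le_iff₀ hK0, lt_div_iff₀ hK0]
  push_cast
  constructor
  · rintro ⟨h1, h2⟩
    constructor <;> nlinarith
  · rintro ⟨h1, h2⟩
    constructor <;> nlinarith

private theorem q_aux (K : ℕ) (hK : 1 ≤ K) (i : ℤ) (m r : ℕ) :
    ((m : ℤ) = K * r + i) ↔ (((K : ℤ) ∣ ((m : ℤ) - i) ∧ i ≤ (m : ℤ)) ∧ (((m : ℤ) - i) / K).toNat = r) := by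
  have hK0 : (0 : ℤ) < K := by exact_mod_cast hK
  constructor
  · intro h
    have h1 : (m : ℤ) - i = K * r := by linarith
    refine ⟨⟨⟨r, h1⟩, ?_⟩, ?_⟩
    · have : (0 : ℤ) ≤ K * r := by positivity
      linarith
    · rw [h1, Int.mul_ediv_cancel_left _ hK0.ne', Int.toNat_natCast]
  · rintro ⟨⟨⟨t, ht⟩, h2⟩, h3⟩
    rw [ht, Int.mul_ediv_cancel_left _ hK0.ne'] at h3
    have ht0 : 0 ≤ t := by
      by_contra hneg
      push Not at hneg
      nlinarith
    have h4 : (r : ℤ) = t := by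
      rw [← h3]; exact Int.toNat_of_nonneg ht0
    rw [h4]; linarith

open Classical in
/-- the good primes -/
private noncomputable def FF (c l : ℝ) (K : ℕ) (i : ℤ) (N : ℕ) : Finset ℕ :=
  (range N).filter (fun p => p.Prime ∧
    ((K : ℤ) ∣ (((⌊K * l * (p : ℝ) ^ c⌋₊ : ℕ) : ℤ) - i) ∧ i ≤ ((⌊K * l * (p : ℝ) ^ c⌋₊ : ℕ) : ℤ)) ∧
    ((((⌊K * l * (p : ℝ) ^ c⌋₊ : ℕ) : ℤ) - i) / K).toNat.Prime)

/-- the partner -/
private noncomputable def qq (c l : ℝ) (K : ℕ) (i : ℤ) (p : ℕ) : ℕ :=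
  ((((⌊K * l * (p : ℝ) ^ c⌋₊ : ℕ) : ℤ) - i) / K).toNat

private theorem dcnt_eq (c l : ℝ) (hl : 0 < l) (K : ℕ) (hK : 1 ≤ K) (i : ℤ) (N : ℕ) :
    dcnt c l N (i / K) ((i + 1) / K) = (FF c l K i N).card := by
  classical
  unfold dcnt
  have h1 : {x : ℕ × ℕ | x.1 < N ∧ x.1.Prime ∧ x.2.Prime ∧ (i : ℝ) / K ≤ l * (x.1 : ℝ) ^ c - x.2 ∧
      l * (x.1 : ℝ) ^ c - x.2 < (i + 1) / K} =
      (((FF c l K i N).image (fun p => (p, qq c l K i p)) : Finset (ℕ × ℕ)) : Set (ℕ × ℕ)) := by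
    ext ⟨p, r⟩
    simp only [Set.mem_ofPred_eq, Finset.coe_image, Set.mem_image, Finset.mem_coe, Prod.mk.injEq]
    constructor
    · rintro ⟨a1, a2, a3, a4⟩
      have a5 := (q_aux K hK i _ r).1 ((key_aux c l hl K hK i p r).1 a4)
      refine ⟨p, ?_, rfl, a5.2⟩
      unfold FF
      rw [Finset.mem_filter, Finset.mem_range]
      refine ⟨a1, a2, a5.1, ?_⟩
      rw [a5.2]
      exact a3
    · rintro ⟨p', h, rfl, hr⟩
      unfold FF at h
      rw [Finset.mem_filter, Finset.mem_range] at h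
      obtain ⟨a1, a2, a3, a4⟩ := h
      have hr' : ((((⌊K * l * (p' : ℝ) ^ c⌋₊ : ℕ) : ℤ) - i) / K).toNat = r := hr
      rw [hr'] at a4
      exact ⟨a1, a2, a4, (key_aux c l hl K hK i p' r).2 ((q_aux K hK i _ r).2 ⟨a3, hr'⟩)⟩
  rw [h1, Set.ncard_coe_finset, Finset.card_image_of_injective]
  intro a b hab
  exact (Prod.mk.inj hab).1

private theorem sum_eq (g : ℕ → ℝ) (hg : ∀ n : ℕ, g n = if n.Prime then Real.log n else 0) (c l : ℝ)
    (K : ℕ) (i : ℤ) (N : ℕ) :
    ∑ n ∈ range N, g n * cell g K i ⌊K * l * (n : ℝ) ^ c⌋₊ =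
      K * ∑ p ∈ FF c l K i N, Real.log p * Real.log (qq c l K i p) := by
  classical
  unfold FF
  rw [Finset.sum_filter, Finset.mul_sum]
  refine Finset.sum_congr rfl fun n _ => ?_
  unfold cell
  by_cases h1 : n.Prime
  · by_cases h2 : ((K : ℤ) ∣ (((⌊K * l * (n : ℝ) ^ c⌋₊ : ℕ) : ℤ) - i) ∧ i ≤ ((⌊K * l * (n : ℝ) ^ c⌋₊ : ℕ) : ℤ))
    · rw [if_pos h2, hg n, if_pos h1, hg]
      by_cases h3 : ((((⌊K * l * (n : ℝ) ^ c⌋₊ : ℕ) : ℤ) - i) / K).toNat.Prime
      · rw [if_pos h3, if_pos ⟨h1, h2, h3⟩]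
        unfold qq
        ring
      · rw [if_neg h3, if_neg (fun h => h3 h.2.2)]
        ring
    · rw [if_neg h2, if_neg (fun h => h2 h.2.1)]
      ring
  · rw [hg n, if_neg h1, zero_mul, if_neg (fun h => h1 h.1), mul_zero]

private theorem q_bounds (c l : ℝ) (hl : 0 < l) (K : ℕ) (hK : 1 ≤ K) (i : ℤ) (N p : ℕ) (hp : p ∈ FF c l K i N) :
    p.Prime ∧ p < N ∧ 2 ≤ qq c l K i p ∧ (qq c l K i p : ℝ) ≤ l * (p : ℝ) ^ c + |(i : ℝ)| ∧
      l * (p : ℝ) ^ c - (|(i : ℝ)| + 1) ≤ qq c l K i p := by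
  classical
  have hK1 : (1 : ℝ) ≤ K := by exact_mod_cast hK
  have hK0 : (0 : ℝ) < K := by linarith
  unfold FF at hp
  rw [Finset.mem_filter, Finset.mem_range] at hp
  obtain ⟨a1, a2, a3, a4⟩ := hp
  have h1 := (key_aux c l hl K hK i p (qq c l K i p)).2 ((q_aux K hK i _ _).2 ⟨a3, rfl⟩)
  have h2 : -|(i : ℝ)| ≤ (i : ℝ) / K := by
    rw [le_div_iff₀ hK0]
    have := neg_abs_le (i : ℝ)
    nlinarith [abs_nonneg (i : ℝ)]
  have h3 : ((i : ℝ) + 1) / K ≤ |(i : ℝ)| + 1 := by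
    rw [div_le_iff₀ hK0]
    have := le_abs_self (i : ℝ)
    nlinarith [abs_nonneg (i : ℝ)]
  refine ⟨a2, a1, a4.two_le, ?_, ?_⟩
  · linarith [h1.1]
  · linarith [h1.2]

theorem dcount (g : ℕ → ℝ) (hg : ∀ n : ℕ, g n = if n.Prime then Real.log n else 0) (c l : ℝ) (hc : 0 < c) (hl : 0 < l)
    (K : ℕ) (hK : 1 ≤ K) (i : ℤ)
    (hp : Tendsto (fun N : ℕ => (∑ n ∈ range N, g n) / N) atTop (𝓝 1))
    (h : Tendsto (fun N : ℕ => (∑ n ∈ range N, g n * (cell g K i ⌊K * l * (n : ℝ) ^ c⌋₊ - 1)) / N) atTop (𝓝 0)) :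
    Tendsto (fun N : ℕ => (dcnt c l N (i / K) ((i + 1) / K) : ℝ) / (N / (c * (Real.log N) ^ 2))) atTop (𝓝 (1 / K)) := by
  classical
  have hK1 : (1 : ℝ) ≤ K := by exact_mod_cast hK
  have hK0 : (0 : ℝ) < K := by linarith
  -- the weighted sum
  obtain ⟨T, hT⟩ : ∃ T : ℕ → ℝ, T = fun N => ∑ p ∈ FF c l K i N, Real.log p * Real.log (qq c l K i p) := ⟨_, rfl⟩
  have hTlim : Tendsto (fun N : ℕ => T N / N) atTop (𝓝 (1 / K)) := by
    have h1 := (h.add hp).div_const (K : ℝ)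
    rw [zero_add] at h1
    refine h1.congr fun N => ?_
    have h2 := sum_eq g hg c l K i N
    have h3 : ∑ n ∈ range N, g n * (cell g K i ⌊K * l * (n : ℝ) ^ c⌋₊ - 1) =
        ∑ n ∈ range N, g n * cell g K i ⌊K * l * (n : ℝ) ^ c⌋₊ - ∑ n ∈ range N, g n := by
      rw [← Finset.sum_sub_distrib]
      exact Finset.sum_congr rfl fun n _ => by ring
    rw [h3, h2, hT]
    simp only
    rw [← add_div, sub_add_cancel, mul_div_assoc, mul_div_cancel_left₀ _ hK0.ne']
  have hlog : Tendsto (fun N : ℕ => Real.log N) atTop atTop :=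
    Real.tendsto_log_atTop.comp tendsto_natCast_atTop_atTop
  have hcast : Tendsto (fun N : ℕ => (N : ℝ)) atTop atTop := tendsto_natCast_atTop_atTop
  have hR : ∀ N : ℕ, (dcnt c l N (i / K) ((i + 1) / K) : ℝ) / (N / (c * (Real.log N) ^ 2)) =
      (FF c l K i N).card * (c * (Real.log N) ^ 2) / N := by
    intro N
    rw [dcnt_eq c l hl K hK i N, div_div_eq_mul_div]
  simp only [hR]
  have hratio : ∀ A B : ℝ, 0 < B → Tendsto (fun N : ℕ => (A + B * Real.log N) / Real.log N) atTop (𝓝 B) := by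
    intro A B hB
    have h1 : Tendsto (fun N : ℕ => A / Real.log N + B) atTop (𝓝 (0 + B)) :=
      (Tendsto.div_atTop tendsto_const_nhds hlog).add tendsto_const_nhds
    rw [zero_add] at h1
    refine h1.congr' ?_
    filter_upwards [hlog.eventually_gt_atTop 0] with N hN
    rw [add_div, mul_div_cancel_right₀ _ hN.ne']
  rw [tendsto_order]
  constructor
  · -- lower bound
    intro a ha
    obtain ⟨A, hA⟩ : ∃ A : ℝ, A = |Real.log (l + |(i : ℝ)|)| := ⟨_, rfl⟩
    have hA0 : 0 ≤ A := by rw [hA]; exact abs_nonneg _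
    have hlim : Tendsto (fun N : ℕ => T N / N * (c / ((A + c * Real.log N) / Real.log N))) atTop (𝓝 (1 / K * (c / c))) :=
      hTlim.mul (tendsto_const_nhds.div (hratio A c hc) hc.ne')
    rw [div_self hc.ne', mul_one] at hlim
    filter_upwards [hlim.eventually_const_lt ha, hlog.eventually_gt_atTop 0, hcast.eventually_ge_atTop 1] with N h1 h2 h3
    refine h1.trans_le ?_
    have hN0 : (0 : ℝ) < N := by linarith
    have h4 : T N ≤ (FF c l K i N).card * (Real.log N * (A + c * Real.log N)) := by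
      rw [hT, ← nsmul_eq_mul]
      refine Finset.sum_le_card_nsmul _ _ _ fun p hp' => ?_
      obtain ⟨b1, b2, b3, b4, b5⟩ := q_bounds c l hl K hK i N p hp'
      have hp1 : (1 : ℝ) ≤ p := by exact_mod_cast b1.one_lt.le
      have hpN : (p : ℝ) ≤ N := by exact_mod_cast b2.le
      have hq1 : (1 : ℝ) ≤ qq c l K i p := by exact_mod_cast (by omega : 1 ≤ qq c l K i p)
      have e1 : Real.log p ≤ Real.log N := Real.log_le_log (by linarith) hpN
      have e2 : Real.log (qq c l K i p) ≤ A + c * Real.log N := by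
        have f1 : (qq c l K i p : ℝ) ≤ (l + |(i : ℝ)|) * (N : ℝ) ^ c := by
          have g1 : (p : ℝ) ^ c ≤ (N : ℝ) ^ c := Real.rpow_le_rpow (by linarith) hpN hc.le
          have g2 : (1 : ℝ) ≤ (N : ℝ) ^ c := Real.one_le_rpow h3 hc.le
          nlinarith [abs_nonneg (i : ℝ)]
        have f2 := Real.log_le_log (by linarith) f1
        have f3 : 0 < l + |(i : ℝ)| := by linarith [abs_nonneg (i : ℝ)]
        rw [Real.log_mul f3.ne' (Real.rpow_pos_of_pos hN0 c).ne', Real.log_rpow hN0] at f2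
        rw [hA]
        linarith [le_abs_self (Real.log (l + |(i : ℝ)|))]
      exact mul_le_mul e1 e2 (Real.log_nonneg hq1) h2.le
    have h5 : 0 < A + c * Real.log N := by positivity
    have h6 : T N / N * (c / ((A + c * Real.log N) / Real.log N)) =
        T N * (c * Real.log N / (A + c * Real.log N)) / N := by
      field_simp
    rw [h6]
    apply div_le_div_of_nonneg_right _ hN0.le
    calc T N * (c * Real.log N / (A + c * Real.log N))
        ≤ (FF c l K i N).card * (Real.log N * (A + c * Real.log N)) * (c * Real.log N / (A + c * Real.log N)) :=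
          mul_le_mul_of_nonneg_right h4 (by positivity)
      _ = (FF c l K i N).card * (c * (Real.log N) ^ 2) := by
          field_simp
  · -- upper bound
    intro a ha
    obtain ⟨ε, hε0, hε1, hε⟩ : ∃ ε : ℝ, 0 < ε ∧ ε < 1 ∧ 1 / K * (c / ((1 - ε) * (c * (1 - ε)))) < a := by
      have hcont : Tendsto (fun ε : ℝ => 1 / (K : ℝ) * (c / ((1 - ε) * (c * (1 - ε))))) (𝓝[>] 0)
          (𝓝 (1 / K * (c / ((1 - 0) * (c * (1 - 0)))))) := by
        have h1 : ContinuousAt (fun ε : ℝ => 1 / (K : ℝ) * (c / ((1 - ε) * (c * (1 - ε))))) 0 := by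
          refine ContinuousAt.mul continuousAt_const (ContinuousAt.div continuousAt_const ?_ ?_)
          · fun_prop
          · simp [hc.ne']
        exact h1.tendsto.mono_left nhdsWithin_le_nhds
      have h2 : 1 / (K : ℝ) * (c / ((1 - 0) * (c * (1 - 0)))) = 1 / K := by
        rw [sub_zero, one_mul, mul_one, div_self hc.ne', mul_one]
      rw [h2] at hcont
      have h3 := (hcont.eventually_lt_const ha).and (Ioo_mem_nhdsGT (zero_lt_one (α := ℝ)))
      obtain ⟨ε, h4, h5⟩ := h3.exists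
      exact ⟨ε, h5.1, h5.2, h4⟩
    have hε' : 0 < 1 - ε := by linarith
    have hcε : 0 < c * (1 - ε) := by positivity
    obtain ⟨B, hB⟩ : ∃ B : ℝ, B = Real.log (l / 2) := ⟨_, rfl⟩
    have hsmall : Tendsto (fun N : ℕ => ((N : ℝ) ^ (1 - ε) + 1) * (c * (Real.log N) ^ 2) / N) atTop (𝓝 0) := by
      have h1 : Tendsto (fun x : ℝ => Real.log x ^ (2 : ℝ) / x ^ ε) atTop (𝓝 0) :=
        (isLittleO_log_rpow_rpow_atTop 2 hε0).tendsto_div_nhds_zero
      have h2 : Tendsto (fun x : ℝ => Real.log x ^ (2 : ℝ) / x ^ (1 : ℝ)) atTop (𝓝 0) :=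
        (isLittleO_log_rpow_rpow_atTop 2 one_pos).tendsto_div_nhds_zero
      have h3 := ((h1.add h2).const_mul c).comp hcast
      rw [add_zero, mul_zero] at h3
      refine h3.congr' ?_
      filter_upwards [hcast.eventually_gt_atTop 0] with N hN
      simp only [Function.comp]
      have e1 : (N : ℝ) ^ (1 - ε) = N / (N : ℝ) ^ ε := by
        rw [Real.rpow_sub hN, Real.rpow_one]
      have e2 : Real.log N ^ (2 : ℝ) = Real.log N ^ 2 := by
        rw [← Real.rpow_natCast]; norm_num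
      have e3 : 0 < (N : ℝ) ^ ε := Real.rpow_pos_of_pos hN _
      rw [e1, e2, Real.rpow_one]
      field_simp
    have hlim : Tendsto (fun N : ℕ => T N / N * (c / ((1 - ε) * ((B + c * (1 - ε) * Real.log N) / Real.log N))) +
        ((N : ℝ) ^ (1 - ε) + 1) * (c * (Real.log N) ^ 2) / N) atTop
        (𝓝 (1 / K * (c / ((1 - ε) * (c * (1 - ε)))) + 0)) :=
      (hTlim.mul (tendsto_const_nhds.div (tendsto_const_nhds.mul (hratio B (c * (1 - ε)) hcε))
        (mul_pos hε' hcε).ne')).add hsmall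
    rw [add_zero] at hlim
    have hbig : Tendsto (fun N : ℕ => l / 2 * ((N : ℝ) ^ (1 - ε)) ^ c) atTop atTop := by
      refine Tendsto.const_mul_atTop (by positivity) ?_
      exact (tendsto_rpow_atTop hc).comp ((tendsto_rpow_atTop hε').comp hcast)
    have hpos : Tendsto (fun N : ℕ => B + c * (1 - ε) * Real.log N) atTop atTop :=
      tendsto_atTop_add_const_left _ _ (Tendsto.const_mul_atTop hcε hlog)
    filter_upwards [hlim.eventually_lt_const hε, hlog.eventually_gt_atTop 0, hcast.eventually_ge_atTop 1,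
      hbig.eventually_ge_atTop (|(i : ℝ)| + 1), hpos.eventually_gt_atTop 0] with N h1 h2 h3 h4 h5
    refine lt_of_le_of_lt ?_ h1
    have hN0 : (0 : ℝ) < N := by linarith
    -- split
    have hcard : ((FF c l K i N).card : ℝ) =
        (((FF c l K i N).filter (fun p : ℕ => (N : ℝ) ^ (1 - ε) ≤ (p : ℝ))).card : ℝ) +
        (((FF c l K i N).filter (fun p : ℕ => ¬ (N : ℝ) ^ (1 - ε) ≤ (p : ℝ))).card : ℝ) := by
      rw [← Nat.cast_add, Finset.card_filter_add_card_filter_not]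
    have hsm : (((FF c l K i N).filter (fun p : ℕ => ¬ (N : ℝ) ^ (1 - ε) ≤ (p : ℝ))).card : ℝ) ≤ (N : ℝ) ^ (1 - ε) + 1 := by
      have e1 : (FF c l K i N).filter (fun p : ℕ => ¬ (N : ℝ) ^ (1 - ε) ≤ (p : ℝ)) ⊆ range (⌊(N : ℝ) ^ (1 - ε)⌋₊ + 1) := by
        intro p hp'
        rw [Finset.mem_filter] at hp'
        rw [Finset.mem_range]
        have e2 := hp'.2
        push Not at e2
        exact Nat.lt_succ_of_le (Nat.le_floor e2.le)
      have e3 := Finset.card_le_card e1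
      rw [Finset.card_range] at e3
      have e4 : (⌊(N : ℝ) ^ (1 - ε)⌋₊ : ℝ) ≤ (N : ℝ) ^ (1 - ε) := Nat.floor_le (by positivity)
      have e5 : (((FF c l K i N).filter (fun p : ℕ => ¬ (N : ℝ) ^ (1 - ε) ≤ (p : ℝ))).card : ℝ) ≤
          ((⌊(N : ℝ) ^ (1 - ε)⌋₊ + 1 : ℕ) : ℝ) := by exact_mod_cast e3
      push_cast at e5
      linarith
    have hlg : (((FF c l K i N).filter (fun p : ℕ => (N : ℝ) ^ (1 - ε) ≤ (p : ℝ))).card : ℝ) *
        ((1 - ε) * Real.log N * (B + c * (1 - ε) * Real.log N)) ≤ T N := by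
      rw [hT, ← nsmul_eq_mul]
      refine le_trans (Finset.card_nsmul_le_sum _ (fun p : ℕ => Real.log (p : ℝ) * Real.log (qq c l K i p)) _ ?_)
        (Finset.sum_le_sum_of_subset_of_nonneg (Finset.filter_subset _ _) ?_)
      · intro p hp'
        rw [Finset.mem_filter] at hp'
        obtain ⟨b1, b2, b3, b4, b5⟩ := q_bounds c l hl K hK i N p hp'.1
        have e1 : (1 - ε) * Real.log N ≤ Real.log p := by
          rw [← Real.log_rpow hN0]
          exact Real.log_le_log (Real.rpow_pos_of_pos hN0 _) hp'.2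
        have e2 : B + c * (1 - ε) * Real.log N ≤ Real.log (qq c l K i p) := by
          have f1 : ((N : ℝ) ^ (1 - ε)) ^ c ≤ (p : ℝ) ^ c :=
            Real.rpow_le_rpow (Real.rpow_nonneg hN0.le _) hp'.2 hc.le
          have f2 : l / 2 * ((N : ℝ) ^ (1 - ε)) ^ c ≤ qq c l K i p := by
            nlinarith
          have f3 : 0 < ((N : ℝ) ^ (1 - ε)) ^ c := Real.rpow_pos_of_pos (Real.rpow_pos_of_pos hN0 _) _
          have f4 := Real.log_le_log (by positivity) f2
          rw [Real.log_mul (by positivity) f3.ne', Real.log_rpow (Real.rpow_pos_of_pos hN0 _),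
            Real.log_rpow hN0] at f4
          rw [hB]
          linarith
        exact mul_le_mul e1 e2 h5.le (Real.log_nonneg (by exact_mod_cast b1.one_lt.le))
      · intro p hp' _
        obtain ⟨b1, b2, b3, b4, b5⟩ := q_bounds c l hl K hK i N p hp'
        exact mul_nonneg (Real.log_nonneg (by exact_mod_cast b1.one_lt.le))
          (Real.log_nonneg (by exact_mod_cast (by omega : 1 ≤ qq c l K i p)))
    generalize B + c * (1 - ε) * Real.log N = D at h5 hlg ⊢
    have h6 : T N / N * (c / ((1 - ε) * (D / Real.log N))) =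
        T N * (c * Real.log N / ((1 - ε) * D)) / N := by
      field_simp
    rw [h6, ← add_div]
    apply div_le_div_of_nonneg_right _ hN0.le
    rw [hcard, add_mul]
    refine add_le_add ?_ (mul_le_mul_of_nonneg_right hsm (by positivity))
    calc (((FF c l K i N).filter (fun p : ℕ => (N : ℝ) ^ (1 - ε) ≤ (p : ℝ))).card : ℝ) * (c * (Real.log N) ^ 2)
        = (((FF c l K i N).filter (fun p : ℕ => (N : ℝ) ^ (1 - ε) ≤ (p : ℝ))).card : ℝ) *
          ((1 - ε) * Real.log N * D) *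
          (c * Real.log N / ((1 - ε) * D)) := by
          field_simp
      _ ≤ T N * (c * Real.log N / ((1 - ε) * D)) :=
          mul_le_mul_of_nonneg_right hlg (by positivity)

end TG12

end Pool.Agent.helper616_TG
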