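import Pool.Agent.helper616_TG.Defs

/-!
# Project TG (helper616): cells
-/

set_option autoImplicit false
set_option maxHeartbeats 4000000

open Finset MeasureTheory Filter Topology
open Pool.Agent.helper616_TS (LogBdd MeanZero)
open Pool.Agent.helper616_RP (B)

namespace Pool.Agent.helper616_TG

namespace TG7


theorem J8877_logpow (A : ℕ) : ∃ c : ℝ, 0 < c ∧ ∀ N : ℕ, 2 ≤ N → (Real.log N) ^ A ≤ c * √(N : ℝ) := by
  refine ⟨(2 * ((A : ℝ) + 1)) ^ A, by positivity, fun N hN => ?_⟩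
  have hN1 : (1 : ℝ) ≤ N := by exact_mod_cast (by omega : 1 ≤ N)
  have hN0 : (0 : ℝ) ≤ N := by linarith
  have hA : (0 : ℝ) < 2 * ((A : ℝ) + 1) := by positivity
  obtain ⟨e, he⟩ : ∃ e : ℝ, e = 1 / (2 * ((A : ℝ) + 1)) := ⟨_, rfl⟩
  have he0 : 0 < e := by rw [he]; positivity
  have h1 : Real.log N ≤ (N : ℝ) ^ e / e := Real.log_le_rpow_div hN0 he0
  have h2 : (N : ℝ) ^ e / e = 2 * ((A : ℝ) + 1) * (N : ℝ) ^ e := by
    rw [he]; field_simp
  rw [h2] at h1
  have hlog0 : 0 ≤ Real.log N := Real.log_nonneg hN1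
  calc (Real.log N) ^ A ≤ (2 * ((A : ℝ) + 1) * (N : ℝ) ^ e) ^ A := pow_le_pow_left₀ hlog0 h1 A
    _ = (2 * ((A : ℝ) + 1)) ^ A * ((N : ℝ) ^ e) ^ A := mul_pow _ _ _
    _ ≤ (2 * ((A : ℝ) + 1)) ^ A * √(N : ℝ) := by
        apply mul_le_mul_of_nonneg_left _ (by positivity)
        rw [← Real.rpow_natCast, ← Real.rpow_mul hN0, Real.sqrt_eq_rpow]
        apply Real.rpow_le_rpow_of_exponent_le hN1
        rw [he]
        rw [div_mul_eq_mul_div, div_le_div_iff₀ hA (by norm_num)]
        linarith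

theorem J8877_E (h : ℕ → ℝ) (hm : MeanZero h) (D A : ℕ) : ∃ C : ℝ, 0 ≤ C ∧ ∀ N Q : ℕ, 2 ≤ N → Q ≤ D * N →
    |∑ m ∈ range Q, h m| ≤ C * N / (Real.log N) ^ A := by
  obtain ⟨c, hc, hcl⟩ := J8877_logpow A
  obtain ⟨C', hC'⟩ := hm A
  have hl2 : (0 : ℝ) < Real.log 2 := Real.log_pos (by norm_num)
  refine ⟨|h 0| * c + |C'| / (Real.log 2) ^ A * c + |C'| * 2 ^ A * D, by positivity, fun N Q hN hQ => ?_⟩
  have hN2 : (2 : ℝ) ≤ N := by exact_mod_cast hN
  have hN0 : (0 : ℝ) < N := by linarith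
  have hlogN : 0 < Real.log N := Real.log_pos (by linarith)
  have hLA : 0 < (Real.log N) ^ A := by positivity
  have hs : 1 ≤ √(N : ℝ) := by
    rw [Real.one_le_sqrt]; linarith
  have hss : √(N : ℝ) * √(N : ℝ) = N := Real.mul_self_sqrt hN0.le
  have hcN : √(N : ℝ) * (Real.log N) ^ A ≤ c * N := by
    have := mul_le_mul_of_nonneg_left (hcl N hN) (Real.sqrt_nonneg (N : ℝ))
    calc √(N : ℝ) * (Real.log N) ^ A ≤ √(N : ℝ) * (c * √(N : ℝ)) := this
      _ = c * (√(N : ℝ) * √(N : ℝ)) := by ring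
      _ = c * N := by rw [hss]
  rw [le_div_iff₀ hLA]
  have t1 : 0 ≤ |h 0| * c * N := by positivity
  have t2 : 0 ≤ |C'| / (Real.log 2) ^ A * c * N := by positivity
  have t3 : 0 ≤ |C'| * 2 ^ A * D * N := by positivity
  rcases Nat.lt_or_ge Q 2 with hQ2 | hQ2
  · have hb : |∑ m ∈ range Q, h m| ≤ |h 0| := by
      interval_cases Q
      · simp
      · simp
    have : |∑ m ∈ range Q, h m| * (Real.log N) ^ A ≤ |h 0| * c * N := by
      calc |∑ m ∈ range Q, h m| * (Real.log N) ^ A ≤ |h 0| * (Real.log N) ^ A :=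
            mul_le_mul_of_nonneg_right hb hLA.le
        _ ≤ |h 0| * (√(N : ℝ) * (Real.log N) ^ A) := by
            apply mul_le_mul_of_nonneg_left _ (abs_nonneg _)
            calc (Real.log N) ^ A = 1 * (Real.log N) ^ A := (one_mul _).symm
              _ ≤ √(N : ℝ) * (Real.log N) ^ A := mul_le_mul_of_nonneg_right hs hLA.le
        _ ≤ |h 0| * (c * N) := mul_le_mul_of_nonneg_left hcN (abs_nonneg _)
        _ = |h 0| * c * N := by ring
    nlinarith
  · have hQr : (2 : ℝ) ≤ Q := by exact_mod_cast hQ2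
    have hlogQ : Real.log 2 ≤ Real.log Q := Real.log_le_log (by norm_num) hQr
    have hlogQ0 : 0 < Real.log Q := lt_of_lt_of_le hl2 hlogQ
    have hE := hC' Q hQ2
    have hE' : |∑ m ∈ range Q, h m| ≤ |C'| * Q / (Real.log Q) ^ A := by
      refine hE.trans ?_
      apply div_le_div_of_nonneg_right _ (by positivity)
      exact mul_le_mul_of_nonneg_right (le_abs_self _) (by positivity)
    rcases Nat.lt_or_ge N (Q * Q) with hlt | hge
    · have hQQ : (N : ℝ) < Q * Q := by exact_mod_cast hlt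
      have hl : Real.log N ≤ 2 * Real.log Q := by
        have := Real.log_le_log hN0 hQQ.le
        rw [Real.log_mul (by positivity) (by positivity)] at this
        linarith
      have hpow : (Real.log N) ^ A ≤ 2 ^ A * (Real.log Q) ^ A := by
        rw [← mul_pow]
        exact pow_le_pow_left₀ hlogN.le hl A
      have hQD : (Q : ℝ) ≤ D * N := by exact_mod_cast hQ
      have : |∑ m ∈ range Q, h m| * (Real.log N) ^ A ≤ |C'| * 2 ^ A * D * N := by
        calc |∑ m ∈ range Q, h m| * (Real.log N) ^ A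
            ≤ (|C'| * Q / (Real.log Q) ^ A) * (2 ^ A * (Real.log Q) ^ A) :=
              mul_le_mul hE' hpow hLA.le (by positivity)
          _ = |C'| * 2 ^ A * Q := by field_simp
          _ ≤ |C'| * 2 ^ A * (D * N) := mul_le_mul_of_nonneg_left hQD (by positivity)
          _ = |C'| * 2 ^ A * D * N := by ring
      nlinarith
    · have hQQ : (Q : ℝ) * Q ≤ N := by exact_mod_cast hge
      have hQs : (Q : ℝ) ≤ √(N : ℝ) := Real.le_sqrt_of_sq_le (by nlinarith)
      have hE2 : |∑ m ∈ range Q, h m| ≤ |C'| / (Real.log 2) ^ A * √(N : ℝ) := by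
        refine hE'.trans ?_
        rw [div_mul_eq_mul_div]
        apply div_le_div₀ (by positivity) _ (by positivity) _
        · exact mul_le_mul_of_nonneg_left hQs (abs_nonneg _)
        · exact pow_le_pow_left₀ hl2.le hlogQ A
      have : |∑ m ∈ range Q, h m| * (Real.log N) ^ A ≤ |C'| / (Real.log 2) ^ A * c * N := by
        calc |∑ m ∈ range Q, h m| * (Real.log N) ^ A
            ≤ (|C'| / (Real.log 2) ^ A * √(N : ℝ)) * (Real.log N) ^ A :=
              mul_le_mul_of_nonneg_right hE2 hLA.le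
          _ = |C'| / (Real.log 2) ^ A * (√(N : ℝ) * (Real.log N) ^ A) := by ring
          _ ≤ |C'| / (Real.log 2) ^ A * (c * N) := mul_le_mul_of_nonneg_left hcN (by positivity)
          _ = |C'| / (Real.log 2) ^ A * c * N := by ring
      nlinarith

/-- number of indices -/
noncomputable def J8877_Q (K : ℕ) (i : ℤ) (N : ℕ) : ℕ := (((N : ℤ) - i + K - 1) / K).toNat

theorem J8877_step_dvd (K : ℕ) (hK : 1 ≤ K) (i : ℤ) (N : ℕ) (hd : (K : ℤ) ∣ ((N : ℤ) - i)) (hi : i ≤ (N : ℤ)) :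
    J8877_Q K i N = (((N : ℤ) - i) / K).toNat ∧ J8877_Q K i (N + 1) = (((N : ℤ) - i) / K).toNat + 1 := by
  obtain ⟨t, ht⟩ := hd
  have hK0 : (0 : ℤ) < K := by exact_mod_cast hK
  have ht0 : 0 ≤ t := by
    by_contra hcon
    have h1 : t ≤ -1 := by omega
    nlinarith
  have e1 : ((N : ℤ) - i) / K = t := by
    rw [ht]; exact Int.mul_ediv_cancel_left t hK0.ne'
  have e2 : ((N : ℤ) - i + K - 1) / K = t := by
    rw [ht]
    have : (K : ℤ) * t + K - 1 = (K - 1) + K * t := by ring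
    rw [this, Int.add_mul_ediv_left _ _ hK0.ne', Int.ediv_eq_zero_of_lt (by omega) (by omega)]
    omega
  have e3 : (((N + 1 : ℕ) : ℤ) - i + K - 1) / K = t + 1 := by
    have : ((N + 1 : ℕ) : ℤ) - i + K - 1 = K * (t + 1) := by
      push_cast
      linarith
    rw [this]
    exact Int.mul_ediv_cancel_left _ hK0.ne'
  unfold J8877_Q
  rw [e1, e2, e3]
  exact ⟨rfl, by omega⟩

theorem J8877_step_not (K : ℕ) (hK : 1 ≤ K) (i : ℤ) (N : ℕ) (hn : ¬ ((K : ℤ) ∣ ((N : ℤ) - i) ∧ i ≤ (N : ℤ))) :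
    J8877_Q K i (N + 1) = J8877_Q K i N := by
  have hK0 : (0 : ℤ) < K := by exact_mod_cast hK
  unfold J8877_Q
  by_cases hd : (K : ℤ) ∣ ((N : ℤ) - i)
  · have hi : (N : ℤ) < i := by
      by_contra hcon
      exact hn ⟨hd, by omega⟩
    obtain ⟨t, ht⟩ := hd
    have ht0 : t < 0 := by
      by_contra hcon
      have h1 : 0 ≤ t := by omega
      nlinarith
    have e2 : ((N : ℤ) - i + K - 1) / K = t := by
      rw [ht]
      have : (K : ℤ) * t + K - 1 = (K - 1) + K * t := by ring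
      rw [this, Int.add_mul_ediv_left _ _ hK0.ne', Int.ediv_eq_zero_of_lt (by omega) (by omega)]
      omega
    have e3 : (((N + 1 : ℕ) : ℤ) - i + K - 1) / K = t + 1 := by
      have : ((N + 1 : ℕ) : ℤ) - i + K - 1 = K * (t + 1) := by
        push_cast
        linarith
      rw [this]
      exact Int.mul_ediv_cancel_left _ hK0.ne'
    rw [e2, e3]
    omega
  · obtain ⟨t, r, hr0, hrK, htr⟩ : ∃ t r : ℤ, 0 < r ∧ r < K ∧ (N : ℤ) - i = K * t + r := by
      refine ⟨((N : ℤ) - i) / K, ((N : ℤ) - i) % K, ?_, Int.emod_lt_of_pos _ hK0, (Int.mul_ediv_add_emod _ _).symm⟩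
      rcases (Int.emod_nonneg ((N : ℤ) - i) hK0.ne').lt_or_eq with h | h
      · exact h
      · exact absurd (Int.dvd_of_emod_eq_zero h.symm) hd
    have e2 : ((N : ℤ) - i + K - 1) / K = t + 1 := by
      have : (N : ℤ) - i + K - 1 = (r - 1) + K * (t + 1) := by linarith
      rw [this, Int.add_mul_ediv_left _ _ hK0.ne', Int.ediv_eq_zero_of_lt (by omega) (by omega)]
      omega
    have e3 : (((N + 1 : ℕ) : ℤ) - i + K - 1) / K = t + 1 := by
      have : ((N + 1 : ℕ) : ℤ) - i + K - 1 = r + K * (t + 1) := by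
        push_cast
        linarith
      rw [this, Int.add_mul_ediv_left _ _ hK0.ne', Int.ediv_eq_zero_of_lt (by omega) (by omega)]
      omega
    rw [e2, e3]

theorem J8877_sum (g : ℕ → ℝ) (K : ℕ) (hK : 1 ≤ K) (i : ℤ) (N : ℕ) :
    ∑ m ∈ range N, cell g K i m =
      K * (∑ q ∈ range (J8877_Q K i N), g q - ∑ q ∈ range (J8877_Q K i 0), g q) := by
  induction N with
  | zero => simp
  | succ N ih =>
    rw [sum_range_succ, ih]
    by_cases h : (K : ℤ) ∣ ((N : ℤ) - i) ∧ i ≤ (N : ℤ)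
    · obtain ⟨h1, h2⟩ := J8877_step_dvd K hK i N h.1 h.2
      rw [h2, sum_range_succ, ← h1]
      have hc : cell g K i N = K * g (J8877_Q K i N) := by
        unfold cell
        rw [if_pos h, h1]
      rw [hc]
      ring
    · rw [J8877_step_not K hK i N h]
      have hc : cell g K i N = 0 := by
        unfold cell
        rw [if_neg h]
      rw [hc, add_zero]

theorem J8877_Qbd (K : ℕ) (hK : 1 ≤ K) (i : ℤ) (N : ℕ) :
    |(K : ℤ) * (J8877_Q K i N : ℤ) - N| ≤ |i| + K := by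
  have hK0 : (0 : ℤ) < K := by exact_mod_cast hK
  unfold J8877_Q
  obtain ⟨x, hx⟩ : ∃ x : ℤ, x = ((N : ℤ) - i + K - 1) / K := ⟨_, rfl⟩
  rw [← hx]
  have h1 : (K : ℤ) * x ≤ (N : ℤ) - i + K - 1 := by
    rw [hx]; exact Int.mul_ediv_self_le hK0.ne'
  have h2 : (N : ℤ) - i + K - 1 < (K : ℤ) * x + K := by
    rw [hx]; exact Int.lt_mul_ediv_self_add hK0
  rcases le_or_gt 0 x with h | h
  · rw [Int.toNat_of_nonneg h]
    rw [abs_le]
    constructor
    · have := le_abs_self i
      linarith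
    · have := neg_abs_le i
      linarith
  · have hx0 : ((x.toNat : ℕ) : ℤ) = 0 := by
      have : x.toNat = 0 := Int.toNat_eq_zero.mpr h.le
      rw [this]; rfl
    rw [hx0]
    have hx1 : (K : ℤ) * x ≤ -K := by nlinarith
    have hN0 : (0 : ℤ) ≤ N := Int.natCast_nonneg N
    rw [abs_le]
    constructor
    · have := le_abs_self i
      linarith
    · have := abs_nonneg i
      linarith

theorem cell_props (g : ℕ → ℝ) (hb : LogBdd g) (hm : MeanZero (fun m => g m - 1)) (K : ℕ) (hK : 1 ≤ K) (i : ℤ) :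
    LogBdd (fun m => cell g K i m - 1) ∧ MeanZero (fun m => cell g K i m - 1) := by
  have hK0 : (1 : ℝ) ≤ K := by exact_mod_cast hK
  have hl2 : (0 : ℝ) < Real.log 2 := Real.log_pos (by norm_num)
  constructor
  · obtain ⟨C, k, hC⟩ := hb
    obtain ⟨I, hI⟩ : ∃ I : ℕ, I = i.natAbs := ⟨_, rfl⟩
    have hI1 : (1 : ℝ) ≤ (I : ℝ) + 1 := by
      have : (0 : ℝ) ≤ I := Nat.cast_nonneg I
      linarith
    obtain ⟨d, hd⟩ : ∃ d : ℝ, d = 1 + Real.log ((I : ℝ) + 1) / Real.log 2 := ⟨_, rfl⟩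
    have hlI : 0 ≤ Real.log ((I : ℝ) + 1) := Real.log_nonneg hI1
    have hd0 : 0 ≤ d := by rw [hd]; positivity
    refine ⟨K * |C| * d ^ k + 1 / (Real.log 2) ^ k, k, fun n => ?_⟩
    have hn0 : (0 : ℝ) ≤ n := Nat.cast_nonneg n
    have hln : Real.log 2 ≤ Real.log ((n : ℝ) + 2) := Real.log_le_log (by norm_num) (by linarith)
    have hln0 : 0 < Real.log ((n : ℝ) + 2) := lt_of_lt_of_le hl2 hln
    have h1 : 1 ≤ 1 / (Real.log 2) ^ k * (Real.log ((n : ℝ) + 2)) ^ k := by
      rw [one_div, inv_mul_eq_div, one_le_div (by positivity)]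
      exact pow_le_pow_left₀ hl2.le hln k
    have hcell : |cell g K i n| ≤ K * |C| * d ^ k * (Real.log ((n : ℝ) + 2)) ^ k := by
      unfold cell
      split_ifs with hcon
      · obtain ⟨q, hq⟩ : ∃ q : ℕ, q = (((n : ℤ) - i) / K).toNat := ⟨_, rfl⟩
        rw [← hq]
        have hqn : q ≤ n + I := by
          have hKz : (0 : ℤ) < K := by exact_mod_cast hK
          have h0 : 0 ≤ (n : ℤ) - i := by linarith [hcon.2]
          have h3 : ((n : ℤ) - i) / K ≤ (n : ℤ) - i := Int.ediv_le_self _ h0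
          omega
        have hg : |g q| ≤ |C| * (Real.log ((q : ℝ) + 2)) ^ k := by
          have hq2 : 0 ≤ Real.log ((q : ℝ) + 2) := Real.log_nonneg (by
            have : (0 : ℝ) ≤ q := Nat.cast_nonneg q
            linarith)
          refine (hC q).trans ?_
          exact mul_le_mul_of_nonneg_right (le_abs_self _) (by positivity)
        have hlq : Real.log ((q : ℝ) + 2) ≤ d * Real.log ((n : ℝ) + 2) := by
          have hq0 : (0 : ℝ) ≤ q := Nat.cast_nonneg q
          have hqr : (q : ℝ) ≤ n + I := by exact_mod_cast hqn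
          have hI0 : (0 : ℝ) ≤ I := Nat.cast_nonneg I
          have h5 : (q : ℝ) + 2 ≤ ((n : ℝ) + 2) * ((I : ℝ) + 1) := by nlinarith
          have h6 : Real.log ((q : ℝ) + 2) ≤ Real.log ((n : ℝ) + 2) + Real.log ((I : ℝ) + 1) := by
            rw [← Real.log_mul (by positivity) (by positivity)]
            exact Real.log_le_log (by positivity) h5
          have h7 : Real.log ((I : ℝ) + 1) ≤ Real.log ((I : ℝ) + 1) / Real.log 2 * Real.log ((n : ℝ) + 2) := by
            rw [div_mul_eq_mul_div, le_div_iff₀ hl2]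
            exact mul_le_mul_of_nonneg_left hln hlI
          rw [hd]
          linarith
        have hlq0 : 0 ≤ Real.log ((q : ℝ) + 2) := Real.log_nonneg (by
            have : (0 : ℝ) ≤ q := Nat.cast_nonneg q
            linarith)
        rw [abs_mul, Nat.abs_cast]
        calc (K : ℝ) * |g q| ≤ K * (|C| * (Real.log ((q : ℝ) + 2)) ^ k) :=
              mul_le_mul_of_nonneg_left hg (by positivity)
          _ ≤ K * (|C| * (d * Real.log ((n : ℝ) + 2)) ^ k) := by
              apply mul_le_mul_of_nonneg_left _ (by positivity)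
              apply mul_le_mul_of_nonneg_left _ (abs_nonneg _)
              exact pow_le_pow_left₀ hlq0 hlq k
          _ = K * |C| * d ^ k * (Real.log ((n : ℝ) + 2)) ^ k := by
              rw [mul_pow]; ring
      · rw [abs_zero]
        positivity
    calc |cell g K i n - 1| ≤ |cell g K i n| + |(1 : ℝ)| := abs_sub _ _
      _ ≤ K * |C| * d ^ k * (Real.log ((n : ℝ) + 2)) ^ k + 1 / (Real.log 2) ^ k * (Real.log ((n : ℝ) + 2)) ^ k := by
          rw [abs_one]
          exact add_le_add hcell h1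
      _ = (K * |C| * d ^ k + 1 / (Real.log 2) ^ k) * (Real.log ((n : ℝ) + 2)) ^ k := by ring
  · intro A
    obtain ⟨D, hD⟩ : ∃ D : ℕ, D = i.natAbs + K + 1 := ⟨_, rfl⟩
    obtain ⟨C, hC0, hC⟩ := J8877_E _ hm D A
    obtain ⟨c, hc, hcl⟩ := J8877_logpow A
    obtain ⟨S0, hS0⟩ : ∃ S0 : ℝ, S0 = ∑ q ∈ range (J8877_Q K i 0), g q := ⟨_, rfl⟩
    refine ⟨K * C + ((i.natAbs : ℝ) + K + K * |S0|) * c, fun N hN => ?_⟩
    have hN2 : (2 : ℝ) ≤ N := by exact_mod_cast hN
    have hN0 : (0 : ℝ) < N := by linarith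
    have hlogN : 0 < Real.log N := Real.log_pos (by linarith)
    have hLA : 0 < (Real.log N) ^ A := by positivity
    obtain ⟨Q, hQ⟩ : ∃ Q : ℕ, Q = J8877_Q K i N := ⟨_, rfl⟩
    have hbd := J8877_Qbd K hK i N
    rw [← hQ] at hbd
    have hbdr : |(K : ℝ) * Q - N| ≤ (i.natAbs : ℝ) + K := by
      have h1 := (Int.cast_le (R := ℝ)).mpr hbd
      push_cast at h1
      rw [Nat.cast_natAbs, Int.cast_abs]
      exact h1
    have hQD : Q ≤ D * N := by
      have h1 : (Q : ℤ) ≤ K * Q := by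
        have hKz : (1 : ℤ) ≤ K := by exact_mod_cast hK
        have hQz : (0 : ℤ) ≤ Q := Int.natCast_nonneg Q
        nlinarith
      have h2 := (abs_le.mp hbd).2
      rw [Int.abs_eq_natAbs i] at h2
      have h3 : (Q : ℤ) ≤ N + (i.natAbs : ℤ) + K := by linarith
      have h4 : Q ≤ N + i.natAbs + K := by exact_mod_cast h3
      have h5 : i.natAbs + K ≤ (i.natAbs + K) * N := Nat.le_mul_of_pos_right _ (by omega)
      have h6 : (i.natAbs + K + 1) * N = (i.natAbs + K) * N + N := by ring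
      rw [hD]
      linarith
    have hE := hC N Q hN hQD
    have hsum : ∑ m ∈ range N, (cell g K i m - 1) =
        K * (∑ q ∈ range Q, (g q - 1)) + (K * Q - N) - K * S0 := by
      rw [sum_sub_distrib, J8877_sum g K hK i N, ← hQ, ← hS0, sum_sub_distrib]
      simp only [sum_const, card_range, nsmul_eq_mul, mul_one]
      ring
    rw [hsum]
    have h1 : (1 : ℝ) ≤ c * N / (Real.log N) ^ A := by
      rw [le_div_iff₀ hLA, one_mul]
      refine (hcl N hN).trans ?_
      apply mul_le_mul_of_nonneg_left _ hc.le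
      rw [Real.sqrt_le_left hN0.le]
      nlinarith
    have h2 : 0 ≤ (i.natAbs : ℝ) + K + K * |S0| := by positivity
    calc |K * (∑ q ∈ range Q, (g q - 1)) + (K * Q - N) - K * S0|
        ≤ |K * (∑ q ∈ range Q, (g q - 1)) + (K * Q - N)| + |K * S0| := abs_sub _ _
      _ ≤ |K * (∑ q ∈ range Q, (g q - 1))| + |(K * Q - N : ℝ)| + |K * S0| := by
          gcongr
          exact abs_add_le _ _
      _ = K * |∑ q ∈ range Q, (g q - 1)| + |(K * Q - N : ℝ)| + K * |S0| := by
          rw [abs_mul, abs_mul, Nat.abs_cast]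
      _ ≤ K * (C * N / (Real.log N) ^ A) + ((i.natAbs : ℝ) + K) + K * |S0| := by
          gcongr
      _ = K * (C * N / (Real.log N) ^ A) + ((i.natAbs : ℝ) + K + K * |S0|) * 1 := by ring
      _ ≤ K * (C * N / (Real.log N) ^ A) + ((i.natAbs : ℝ) + K + K * |S0|) * (c * N / (Real.log N) ^ A) := by
          gcongr
      _ = (K * C + ((i.natAbs : ℝ) + K + K * |S0|) * c) * N / (Real.log N) ^ A := by ring

end TG7

end Pool.Agent.helper616_TG
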