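import Pool.Agent.helper616_TG.Defs
import Pool.Agent.helper616_TG.TG7
import Pool.Agent.helper616_TG.TG12
import Pool.Agent.helper616_TG.TG10

/-!
# Project TG (helper616): differences
-/

set_option autoImplicit false
set_option maxHeartbeats 4000000

open Finset MeasureTheory Filter Topology
open Pool.Agent.helper616_TS (LogBdd MeanZero)
open Pool.Agent.helper616_RP (B)

namespace Pool.Agent.helper616_TG

open TG7 (cell_props)
open TG12 (dcount)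
open TG10 (squeeze)

namespace TG13


/-- `C / log N` tends to zero -/
theorem dm_lim (C : ℝ) : Tendsto (fun N : ℕ => C / Real.log N) atTop (𝓝 0) :=
  Tendsto.div_atTop tendsto_const_nhds (Real.tendsto_log_atTop.comp tendsto_natCast_atTop_atTop)

theorem dm_bound (f : ℕ → ℝ) (C : ℝ) (h : ∀ N : ℕ, 2 ≤ N → |f N| ≤ C * N / (Real.log N) ^ 1) :
    Tendsto (fun N : ℕ => f N / N) atTop (𝓝 0) := by
  have h1 : Tendsto (fun N : ℕ => |f N / N|) atTop (𝓝 0) := by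
    refine squeeze_zero' (Eventually.of_forall fun _ => abs_nonneg _) ?_ (dm_lim C)
    filter_upwards [eventually_ge_atTop 2] with N hN
    have hN0 : (0 : ℝ) < N := by positivity
    have h2 := h N hN
    rw [abs_div, abs_of_pos hN0, div_le_iff₀ hN0]
    rw [pow_one] at h2
    refine h2.trans (le_of_eq ?_)
    ring
  exact (tendsto_zero_iff_abs_tendsto_zero _).2 h1

theorem dm_fin (c l : ℝ) (hc : 0 < c) (hl : 0 < l) (N : ℕ) (a : ℝ) :
    {x : ℕ × ℕ | x.1 < N ∧ a ≤ l * (x.1 : ℝ) ^ c - x.2}.Finite := by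
  refine ((Finset.range N ×ˢ Finset.range (⌊l * (N : ℝ) ^ c + |a|⌋₊ + 1)).finite_toSet).subset ?_
  rintro ⟨x, y⟩ ⟨h1, h2⟩
  simp only at h1 h2
  simp only [Finset.coe_product, Set.mem_prod, Finset.mem_coe, Finset.mem_range]
  refine ⟨h1, ?_⟩
  have h3 : (x : ℝ) ^ c ≤ (N : ℝ) ^ c :=
    Real.rpow_le_rpow (Nat.cast_nonneg x) (by exact_mod_cast h1.le) hc.le
  have h4 : (y : ℝ) ≤ l * (N : ℝ) ^ c + |a| := by
    have h5 := neg_abs_le a
    have h6 := mul_le_mul_of_nonneg_left h3 hl.le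
    linarith
  exact Nat.lt_succ_of_le (Nat.le_floor h4)

theorem dm_add (c l : ℝ) (hc : 0 < c) (hl : 0 < l) (N : ℕ) (a b d : ℝ) (hab : a ≤ b) (hbd : b ≤ d) :
    dcnt c l N a d = dcnt c l N a b + dcnt c l N b d := by
  unfold dcnt
  have hdis : Disjoint {x : ℕ × ℕ | x.1 < N ∧ x.1.Prime ∧ x.2.Prime ∧ a ≤ l * (x.1 : ℝ) ^ c - x.2 ∧
      l * (x.1 : ℝ) ^ c - x.2 < b} {x : ℕ × ℕ | x.1 < N ∧ x.1.Prime ∧ x.2.Prime ∧
      b ≤ l * (x.1 : ℝ) ^ c - x.2 ∧ l * (x.1 : ℝ) ^ c - x.2 < d} := by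
    rw [Set.disjoint_left]
    rintro x ⟨_, _, _, _, h5⟩ ⟨_, _, _, h4, _⟩
    exact absurd h5 (not_lt.2 h4)
  rw [← Set.ncard_union_eq hdis
    ((dm_fin c l hc hl N a).subset fun x hx => ⟨hx.1, hx.2.2.2.1⟩)
    ((dm_fin c l hc hl N b).subset fun x hx => ⟨hx.1, hx.2.2.2.1⟩)]
  congr 1
  ext x
  simp only [Set.mem_ofPred_eq, Set.mem_union]
  constructor
  · rintro ⟨h1, h2, h3, h4, h5⟩
    rcases lt_or_ge (l * (x.1 : ℝ) ^ c - x.2) b with h | h
    · exact Or.inl ⟨h1, h2, h3, h4, h⟩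
    · exact Or.inr ⟨h1, h2, h3, h, h5⟩
  · rintro (⟨h1, h2, h3, h4, h5⟩ | ⟨h1, h2, h3, h4, h5⟩)
    · exact ⟨h1, h2, h3, h4, h5.trans_le hbd⟩
    · exact ⟨h1, h2, h3, hab.trans h4, h5⟩

theorem dmain (g : ℕ → ℝ) (hg : ∀ n : ℕ, g n = if n.Prime then Real.log n else 0) (hb : LogBdd g) (hm : MeanZero (fun m => g m - 1))
    (hs : ∀ (c : ℝ), 0 < c → ∀ h : ℕ → ℝ, LogBdd h → MeanZero h → ∀ᵐ α : ℝ, 0 < α → ∀ A : ℕ, ∃ C : ℝ, ∀ N : ℕ, 2 ≤ N →
      |∑ n ∈ range N, g n * h ⌊α * (n : ℝ) ^ c⌋₊| ≤ C * N / (Real.log N) ^ A) (c : ℝ) (hc : 0 < c) :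
    ∀ᵐ l : ℝ, 0 < l → ∀ u v : ℝ, u < v →
      Tendsto (fun N : ℕ => ((Set.ncard {x : ℕ × ℕ | x.1 < N ∧ x.1.Prime ∧ x.2.Prime ∧ u < l * (x.1 : ℝ) ^ c - x.2 ∧
        l * (x.1 : ℝ) ^ c - x.2 < v} : ℕ) : ℝ) / (N / (c * (Real.log N) ^ 2))) atTop (𝓝 (v - u)) := by
  have h1 : ∀ᵐ l : ℝ, ∀ K : ℕ, ∀ i : ℤ, 1 ≤ K → 0 < (K : ℝ) * l → ∀ A : ℕ, ∃ C : ℝ, ∀ N : ℕ, 2 ≤ N →
      |∑ n ∈ range N, g n * (cell g K i ⌊K * l * (n : ℝ) ^ c⌋₊ - 1)| ≤ C * N / (Real.log N) ^ A := by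
    rw [ae_all_iff]
    intro K
    rw [ae_all_iff]
    intro i
    by_cases hK : 1 ≤ K
    · obtain ⟨hb', hm'⟩ := cell_props g hb hm K hK i
      have h2 := hs c hc (fun m => cell g K i m - 1) hb' hm'
      have hK0 : (K : ℝ) ≠ 0 := by positivity
      rw [ae_iff] at h2 ⊢
      have h3 := Real.volume_preimage_mul_left hK0 {α : ℝ | ¬ (0 < α → ∀ A : ℕ, ∃ C : ℝ, ∀ N : ℕ, 2 ≤ N →
        |∑ n ∈ range N, g n * (fun m => cell g K i m - 1) ⌊α * (n : ℝ) ^ c⌋₊| ≤ C * N / (Real.log N) ^ A)}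
      rw [h2, mul_zero] at h3
      refine measure_mono_null ?_ h3
      intro l hl
      simp only [Set.mem_ofPred_eq, Set.mem_preimage] at hl ⊢
      intro hcon
      exact hl fun _ => hcon
    · exact Eventually.of_forall fun l h => absurd h hK
  have hp : Tendsto (fun N : ℕ => (∑ n ∈ range N, g n) / N) atTop (𝓝 1) := by
    obtain ⟨C, hC⟩ := hm 1
    have h2 := dm_bound (fun N => ∑ m ∈ range N, (g m - 1)) C hC
    have h3 := h2.add_const 1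
    rw [zero_add] at h3
    refine h3.congr' ?_
    filter_upwards [eventually_ge_atTop 1] with N hN
    have hN0 : (N : ℝ) ≠ 0 := by positivity
    rw [Finset.sum_sub_distrib, Finset.sum_const, Finset.card_range, nsmul_eq_mul, mul_one]
    field_simp
    ring
  filter_upwards [h1] with l hl1 hl u v huv
  have hden : ∀ N : ℕ, 0 ≤ (N : ℝ) / (c * (Real.log N) ^ 2) := fun N => by positivity
  have key := squeeze (fun N a b => (dcnt c l N a b : ℝ) / (N / (c * (Real.log N) ^ 2)))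
    (fun N a b => div_nonneg (Nat.cast_nonneg _) (hden N))
    (fun N a b d hab hbd => by
      rw [dm_add c l hc hl N a b d hab hbd, Nat.cast_add, add_div]) 1 1 one_pos
    (fun K hK i => by
      have hKl : 0 < (K : ℝ) * l := by
        have : (0 : ℝ) < K := by exact_mod_cast hK
        positivity
      obtain ⟨C, hC⟩ := hl1 K i hK hKl 1
      have h4 := dcount g hg c l hc hl K hK i hp (dm_bound _ C hC)
      simpa using h4)
    (fun N => ((Set.ncard {x : ℕ × ℕ | x.1 < N ∧ x.1.Prime ∧ x.2.Prime ∧ u < l * (x.1 : ℝ) ^ c - x.2 ∧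
        l * (x.1 : ℝ) ^ c - x.2 < v} : ℕ) : ℝ) / (N / (c * (Real.log N) ^ 2))) u v huv
    (fun N => by
      refine div_le_div_of_nonneg_right ?_ (hden N)
      unfold dcnt
      exact Nat.cast_le.2 <| Set.ncard_le_ncard (fun x hx => ⟨hx.1, hx.2.1, hx.2.2.1, hx.2.2.2.1.le, hx.2.2.2.2⟩)
        ((dm_fin c l hc hl N u).subset fun x hx => ⟨hx.1, hx.2.2.2.1⟩))
    (fun ε hε _ N => by
      refine div_le_div_of_nonneg_right ?_ (hden N)
      unfold dcnt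
      exact Nat.cast_le.2 <| Set.ncard_le_ncard (fun x hx => ⟨hx.1, hx.2.1, hx.2.2.1,
        lt_of_lt_of_le (by linarith) hx.2.2.2.1, hx.2.2.2.2⟩)
        ((dm_fin c l hc hl N u).subset fun x hx => ⟨hx.1, hx.2.2.2.1.le⟩))
  rwa [one_mul] at key

end TG13

end Pool.Agent.helper616_TG
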