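import Pool.Agent.helper616_TS.Main3
import Pool.Agent.helper616_TG.TG13

/-!
# Project TG (helper616): the differences `l p ^ c - q`
-/

set_option autoImplicit false

open Finset MeasureTheory Filter Topology
open Pool.Agent.helper616_TS

namespace Pool.Agent.helper616_TG

/-- the sampling theorem at prime arguments -/
theorem sampling_lp (c : ℝ) (hc : 0 < c) (h : ℕ → ℝ) (hb : LogBdd h) (hm : MeanZero h) :
    ∀ᵐ α : ℝ, 0 < α → ∀ A : ℕ, ∃ C : ℝ, ∀ N : ℕ, 2 ≤ N →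
      |∑ n ∈ range N, lp n * h ⌊α * (n : ℝ) ^ c⌋₊| ≤ C * N / (Real.log N) ^ A :=
  sampling lp (fun n => (n : ℝ) ^ c) h lp_props.2.2 (TS17.expB_th lp (fun _ => rfl) c hc t_P)
    (TS2.gro_of_adm _ (TS3.adm_rpow c hc)) hb hm

theorem differences (c : ℝ) (hc : 0 < c) :
    ∀ᵐ l : ℝ, 0 < l → ∀ u v : ℝ, u < v →
      Tendsto (fun N : ℕ => ((Set.ncard {x : ℕ × ℕ | x.1 < N ∧ x.1.Prime ∧ x.2.Prime ∧ u < l * (x.1 : ℝ) ^ c - x.2 ∧
        l * (x.1 : ℝ) ^ c - x.2 < v} : ℕ) : ℝ) / (N / (c * (Real.log N) ^ 2))) atTop (𝓝 (v - u)) :=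
  TG13.dmain lp (fun _ => rfl) lp_props.2.2 lp_props.1 (fun c hc h hb hm => sampling_lp c hc h hb hm) c hc

end Pool.Agent.helper616_TG
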