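import Pool.Agent.helper616_TG.Defs

/-!
# Project TG (helper616): sums over windows
-/

set_option autoImplicit false
set_option maxHeartbeats 4000000

open Finset MeasureTheory Filter Topology
open Pool.Agent.helper616_TS (LogBdd MeanZero)
open Pool.Agent.helper616_RP (B)

namespace Pool.Agent.helper616_TG

namespace TG1


/-- partial sums of the shifted function -/
theorem window_partial (h : ℕ → ℝ) (X n : ℕ) :
    ∑ j ∈ range n, ext h X j = ∑ m ∈ range (n - X), h m := by
  induction n with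
  | zero => simp
  | succ n ih =>
    rw [sum_range_succ, ih]
    unfold ext
    by_cases hX : X ≤ n
    · rw [if_pos hX, Nat.succ_sub hX, sum_range_succ]
    · rw [if_neg hX]
      have h1 : n - X = 0 := by omega
      have h2 : n + 1 - X = 0 := by omega
      rw [h1, h2]; simp

theorem window_sum (h : ℕ → ℝ) (X u W : ℕ) :
    ∑ t ∈ Icc 1 W, ext h X (u + t)
      = ∑ m ∈ range (u + W + 1 - X), h m - ∑ m ∈ range (u + 1 - X), h m := by
  rw [← window_partial, ← window_partial]
  induction W with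
  | zero => simp
  | succ W ih =>
    rw [Finset.sum_Icc_succ_top (by omega), ih, show u + (W + 1) + 1 = (u + W + 1) + 1 by ring,
      sum_range_succ _ (u + W + 1)]
    rw [show u + (W + 1) = u + W + 1 by ring]
    ring

theorem window_aux (h : ℕ → ℝ) (hb : LogBdd h) (hm : MeanZero h) (C₀ : ℝ) (hC₀ : 0 ≤ C₀) (A : ℕ) :
    ∃ C : ℝ, 0 ≤ C ∧ ∀ᶠ s : ℝ in atTop, ∀ N : ℕ, (N : ℝ) ≤ C₀ * s + 1 →
      |∑ m ∈ range N, h m| ≤ C * s / (Real.log s) ^ A := by
  obtain ⟨C₁, hC₁⟩ := hm A
  obtain ⟨C₂, k, hC₂⟩ := hb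
  refine ⟨|C₁| * (C₀ + 1) * 2 ^ A + 1, by positivity, ?_⟩
  have hlim : ∀ᶠ s : ℝ in atTop, |C₂| * 2 ^ k * (Real.log s) ^ (k + A) ≤ Real.sqrt s := by
    have h1 := (Real.isLittleO_pow_log_id_atTop (n := k + A)).comp_tendsto Real.tendsto_sqrt_atTop
    have h2 := h1.bound (c := 1 / ((|C₂| + 1) * 2 ^ k * 2 ^ (k + A))) (by positivity)
    filter_upwards [h2, eventually_ge_atTop (1 : ℝ)] with s hs hs1
    simp only [Function.comp, id] at hs
    have hl : Real.log (Real.sqrt s) = Real.log s / 2 := by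
      rw [Real.log_sqrt (by linarith)]
    rw [hl, Real.norm_eq_abs, Real.norm_eq_abs, abs_of_nonneg (Real.sqrt_nonneg s),
      abs_of_nonneg (by have := Real.log_nonneg hs1; positivity), div_pow] at hs
    have hlog := Real.log_nonneg hs1
    have h3 : Real.log s ^ (k + A) ≤ 1 / ((|C₂| + 1) * 2 ^ k) * Real.sqrt s := by
      have h4 : Real.log s ^ (k + A) = 2 ^ (k + A) * (Real.log s ^ (k + A) / 2 ^ (k + A)) := by
        field_simp
      rw [h4]
      calc 2 ^ (k + A) * (Real.log s ^ (k + A) / 2 ^ (k + A))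
          ≤ 2 ^ (k + A) * (1 / ((|C₂| + 1) * 2 ^ k * 2 ^ (k + A)) * Real.sqrt s) := by gcongr
        _ = 1 / ((|C₂| + 1) * 2 ^ k) * Real.sqrt s := by field_simp
    calc |C₂| * 2 ^ k * (Real.log s) ^ (k + A)
        ≤ (|C₂| + 1) * 2 ^ k * (1 / ((|C₂| + 1) * 2 ^ k) * Real.sqrt s) := by
          gcongr
          linarith
      _ = Real.sqrt s := by field_simp
  filter_upwards [hlim, eventually_ge_atTop (16 : ℝ)] with s hs hs16 N hN
  have hs0 : 0 < s := by linarith
  have hlogs : 0 < Real.log s := Real.log_pos (by linarith)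
  have hsq : Real.sqrt s * Real.sqrt s = s := Real.mul_self_sqrt hs0.le
  have hsq4 : 4 ≤ Real.sqrt s := by
    rw [show (4 : ℝ) = Real.sqrt 16 by rw [show (16 : ℝ) = 4 ^ 2 by norm_num]; simp]
    exact Real.sqrt_le_sqrt hs16
  have hpA : 0 < Real.log s ^ A := by positivity
  rcases le_or_gt (Real.sqrt s) N with hc | hc
  · have hN2 : 2 ≤ N := by
      have : (2 : ℝ) ≤ N := by linarith
      exact_mod_cast this
    have h1 := hC₁ N hN2
    have hlogN : Real.log s / 2 ≤ Real.log N := by
      rw [← Real.log_sqrt hs0.le]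
      exact Real.log_le_log (by linarith) hc
    have hh : 0 < Real.log s / 2 := by positivity
    calc |∑ m ∈ range N, h m| ≤ C₁ * N / (Real.log N) ^ A := h1
      _ ≤ |C₁| * N / (Real.log N) ^ A := by
          have : 0 ≤ Real.log N := by linarith
          gcongr
          exact le_abs_self _
      _ ≤ |C₁| * ((C₀ + 1) * s) / (Real.log s / 2) ^ A := by
          gcongr
          linarith
      _ = |C₁| * (C₀ + 1) * 2 ^ A * s / (Real.log s) ^ A := by
          rw [div_pow]; field_simp
      _ ≤ (|C₁| * (C₀ + 1) * 2 ^ A + 1) * s / (Real.log s) ^ A := by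
          gcongr
          linarith
  · have hNs : (N : ℝ) ≤ s := by nlinarith
    have h1 : |∑ m ∈ range N, h m| ≤ Real.sqrt s * (|C₂| * (2 * Real.log s) ^ k) := by
      calc |∑ m ∈ range N, h m| ≤ ∑ m ∈ range N, |h m| := abs_sum_le_sum_abs _ _
        _ ≤ ∑ m ∈ range N, |C₂| * (2 * Real.log s) ^ k := by
            apply sum_le_sum
            intro m hm'
            have hmN : (m : ℝ) ≤ N := by exact_mod_cast (mem_range.mp hm').le
            have hl0 : 0 ≤ Real.log ((m : ℝ) + 2) := Real.log_nonneg (by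
              have : (0 : ℝ) ≤ m := by positivity
              linarith)
            have hl1 : Real.log ((m : ℝ) + 2) ≤ 2 * Real.log s := by
              rw [show 2 * Real.log s = Real.log (s ^ 2) by rw [Real.log_pow]; norm_num]
              apply Real.log_le_log (by positivity)
              nlinarith
            calc |h m| ≤ C₂ * (Real.log (m + 2)) ^ k := hC₂ m
              _ ≤ |C₂| * (Real.log (m + 2)) ^ k := by
                  gcongr
                  exact le_abs_self _
              _ ≤ |C₂| * (2 * Real.log s) ^ k := by gcongr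
        _ = N * (|C₂| * (2 * Real.log s) ^ k) := by simp
        _ ≤ Real.sqrt s * (|C₂| * (2 * Real.log s) ^ k) := by gcongr
    have h2 : Real.sqrt s * (|C₂| * (2 * Real.log s) ^ k) ≤ s / (Real.log s) ^ A := by
      rw [le_div_iff₀ hpA]
      calc Real.sqrt s * (|C₂| * (2 * Real.log s) ^ k) * Real.log s ^ A
          = Real.sqrt s * (|C₂| * 2 ^ k * (Real.log s) ^ (k + A)) := by
            rw [mul_pow, pow_add]; ring
        _ ≤ Real.sqrt s * Real.sqrt s := by gcongr
        _ = s := hsq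
    calc |∑ m ∈ range N, h m| ≤ _ := h1
      _ ≤ _ := h2
      _ = 1 * s / (Real.log s) ^ A := by rw [one_mul]
      _ ≤ (|C₁| * (C₀ + 1) * 2 ^ A + 1) * s / (Real.log s) ^ A := by
          gcongr
          have : 0 ≤ |C₁| * (C₀ + 1) * 2 ^ A := by positivity
          linarith

theorem window (h : ℕ → ℝ) (hb : LogBdd h) (hm : MeanZero h) (C₀ : ℝ) (A : ℕ) :
    ∃ C : ℝ, ∀ᶠ s : ℝ in atTop, ∀ X u W : ℕ, ((u + W : ℕ) : ℝ) ≤ X + C₀ * s →
      |∑ t ∈ Icc 1 W, ext h X (u + t)| ≤ C * s / (Real.log s) ^ A := by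
  obtain ⟨C, hC, hev⟩ := window_aux h hb hm (max C₀ 0) (le_max_right _ _) A
  refine ⟨2 * C, ?_⟩
  filter_upwards [hev, eventually_ge_atTop (16 : ℝ)] with s hs hs16 X u W hW
  have hs0 : 0 < s := by linarith
  have key : ∀ n : ℕ, n ≤ u + W + 1 → ((n - X : ℕ) : ℝ) ≤ max C₀ 0 * s + 1 := by
    intro n hn
    rcases le_or_gt n X with h1 | h1
    · rw [Nat.sub_eq_zero_of_le h1]
      have : 0 ≤ max C₀ 0 * s := mul_nonneg (le_max_right _ _) hs0.le
      push_cast
      linarith
    · rw [Nat.cast_sub h1.le]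
      have h2 : (n : ℝ) ≤ ((u + W : ℕ) : ℝ) + 1 := by exact_mod_cast hn
      have h3 : C₀ * s ≤ max C₀ 0 * s := by
        gcongr
        exact le_max_left _ _
      linarith
  rw [window_sum]
  have h1 := hs _ (key (u + W + 1) le_rfl)
  have h2 := hs _ (key (u + 1) (by omega))
  calc |∑ m ∈ range (u + W + 1 - X), h m - ∑ m ∈ range (u + 1 - X), h m|
      ≤ |∑ m ∈ range (u + W + 1 - X), h m| + |∑ m ∈ range (u + 1 - X), h m| := abs_sub _ _
    _ ≤ C * s / (Real.log s) ^ A + C * s / (Real.log s) ^ A := add_le_add h1 h2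
    _ = 2 * C * s / (Real.log s) ^ A := by ring

end TG1

end Pool.Agent.helper616_TG
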