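import Pool.Agent.helper616_TG.Defs
import Pool.Agent.helper616_RP.J4
import Pool.Agent.helper616_TG.TG1

/-!
# Project TG (helper616): pairs of arguments
-/

set_option autoImplicit false
set_option maxHeartbeats 4000000

open Finset MeasureTheory Filter Topology
open Pool.Agent.helper616_TS (LogBdd MeanZero)
open Pool.Agent.helper616_RP (B)

namespace Pool.Agent.helper616_TG

open Pool.Agent.helper616_RP.J4 (gen)
open TG1 (window)

namespace TG2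


theorem pair_term_eq (h : ℕ → ℝ) (s : ℝ) (m : ℕ) (ω : ℝ × ℝ) (X₀ : ℕ)
    (hx : 0 ≤ ω.1 * s + ω.2 * (-(m : ℝ)) + X₀) :
    term h s m ω = ext h X₀ ⌊ω.1 * s + ω.2 * (-(m : ℝ)) + X₀⌋₊ := by
  have e1 : ω.1 * s + ω.2 * (-(m : ℝ)) = s * ω.1 - m * ω.2 := by ring
  rw [e1] at hx ⊢
  unfold term ext
  by_cases hy : 0 ≤ s * ω.1 - m * ω.2
  · rw [if_pos hy, Nat.floor_add_natCast hy, if_pos (Nat.le_add_left _ _), Nat.add_sub_cancel]
  · rw [if_neg hy]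
    push Not at hy
    have h1 : ⌊s * ω.1 - m * ω.2 + X₀⌋₊ < X₀ := by
      rw [Nat.floor_lt hx]
      linarith
    rw [if_neg (by omega)]

theorem pair_term_meas (h : ℕ → ℝ) (s : ℝ) (n : ℕ) : Measurable (term h s n) := by
  unfold term
  have h1 : Measurable (fun ω : ℝ × ℝ => s * ω.1 - n * ω.2) := by fun_prop
  apply Measurable.ite
  · exact measurableSet_le measurable_const h1
  · exact (measurable_from_top (f := h)).comp (Nat.measurable_floor.comp h1)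
  · exact measurable_const

/-- bound for `h` -/
theorem pair_h_bd (h : ℕ → ℝ) (C₁ : ℝ) (k : ℕ) (hC : ∀ n : ℕ, |h n| ≤ C₁ * (Real.log (n + 2)) ^ k)
    (s a : ℝ) (ha : 0 < a) (hs1 : 1 ≤ s) (hsa : a + 6 ≤ s) (j : ℕ) (hj : (j : ℝ) ≤ s * (a + 2) + 2) :
    |h j| ≤ |C₁| * (2 * Real.log s) ^ k := by
  have h0 : (0 : ℝ) ≤ j := Nat.cast_nonneg j
  have h1 : Real.log (j + 2) ≤ 2 * Real.log s := by
    have h2 : (2 : ℝ) * Real.log s = Real.log (s ^ 2) := by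
      rw [Real.log_pow]; norm_num
    rw [h2]
    apply Real.log_le_log (by linarith)
    nlinarith
  have h3 : 0 ≤ Real.log ((j : ℝ) + 2) := Real.log_nonneg (by linarith)
  calc |h j| ≤ C₁ * (Real.log (j + 2)) ^ k := hC j
    _ ≤ |C₁| * (Real.log (j + 2)) ^ k := by
        apply mul_le_mul_of_nonneg_right (le_abs_self _) (by positivity)
    _ ≤ |C₁| * (2 * Real.log s) ^ k := by
        apply mul_le_mul_of_nonneg_left _ (abs_nonneg _)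
        exact pow_le_pow_left₀ h3 h1 k

theorem pair_core (h : ℕ → ℝ) (C₁ : ℝ) (k : ℕ) (hC : ∀ n : ℕ, |h n| ≤ C₁ * (Real.log (n + 2)) ^ k)
    (a b : ℝ) (ha : 0 < a) (hb0 : 0 < b) (c0 : ℝ) (hc0 : 0 ≤ c0) (A D A' A'' : ℕ)
    (hA' : A' = A + 2 * k + 1) (hA'' : A'' = (D + A' + 1) + k + A) (C₃ : ℝ) (s : ℝ)
    (hs1 : 1 ≤ s) (hsa : a + 6 ≤ s) (hl1 : 1 ≤ Real.log s) (hlc : c0 + 1 ≤ Real.log s)
    (hla : 2 / a ≤ Real.log s) (hlb : 2 / b ≤ Real.log s)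
    (hE : 2 * (Real.log s) ^ (D + A' + 1) ≤ s)
    (hwin : ∀ X u W : ℕ, ((u + W : ℕ) : ℝ) ≤ X + (a + 6) * s →
      |∑ t ∈ Icc 1 W, ext h X (u + t)| ≤ C₃ * s / (Real.log s) ^ A'')
    (n m : ℕ) (hn : (n : ℝ) ≤ c0 * s) (hm : (m : ℝ) ≤ c0 * s)
    (hnm : s / (Real.log s) ^ D ≤ |(n : ℝ) - m|) :
    |∫ ω in B a b, term h s n ω * term h s m ω| ≤
      (4 * (|C₁| * 2 ^ k) * (|C₁| * 2 ^ k) + 2 * (|C₁| * 2 ^ k) * (c0 * (b + 2) + a + 6) * |C₃|) /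
        (Real.log s) ^ A := by
  set ℓ := Real.log s with hℓ
  have hℓ0 : 0 < ℓ := by linarith
  have hs0 : 0 < s := by linarith
  obtain ⟨E, hEe⟩ : ∃ E, E = D + A' + 1 := ⟨_, rfl⟩
  rw [← hEe] at hE hA''
  have hn0 : (0 : ℝ) ≤ n := Nat.cast_nonneg n
  have hm0 : (0 : ℝ) ≤ m := Nat.cast_nonneg m
  have hd0 : 0 < |(n : ℝ) - m| := lt_of_lt_of_le (by positivity) hnm
  have hd : (n : ℝ) - m ≠ 0 := abs_pos.mp hd0
  -- ρ
  obtain ⟨ρ, hρ⟩ : ∃ ρ : ℝ, ρ = 1 / ℓ ^ A' := ⟨_, rfl⟩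
  have hρl : ρ ≤ 1 / ℓ := by
    rw [hρ, hA']
    apply one_div_le_one_div_of_le hℓ0
    rw [pow_succ]
    have : 1 ≤ ℓ ^ (A + 2 * k) := one_le_pow₀ hl1
    nlinarith
  have hρ1 : ρ ≤ 1 := hρl.trans (by rw [div_le_one hℓ0]; exact hl1)
  have hρa : ρ ≤ a := by
    refine hρl.trans ?_
    rw [div_le_iff₀ hℓ0]
    rw [div_le_iff₀ ha] at hla
    nlinarith
  have hρb : ρ ≤ b := by
    refine hρl.trans ?_
    rw [div_le_iff₀ hℓ0]
    rw [div_le_iff₀ hb0] at hlb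
    nlinarith
  have hρ0 : 0 ≤ ρ := by rw [hρ]; positivity
  -- W
  obtain ⟨W, hW⟩ : ∃ W : ℕ, W = ⌊s / ℓ ^ E⌋₊ := ⟨_, rfl⟩
  have hsE : 2 ≤ s / ℓ ^ E := by
    rw [le_div_iff₀ (by positivity)]
    exact hE
  have hWle : (W : ℝ) ≤ s / ℓ ^ E := by
    rw [hW]; exact Nat.floor_le (by positivity)
  have hWge : s / ℓ ^ E / 2 ≤ W := by
    have := Nat.lt_floor_add_one (s / ℓ ^ E)
    rw [← hW] at this
    linarith
  have hW1 : 1 ≤ W := by
    have : (1 : ℝ) ≤ W := by linarith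
    exact_mod_cast this
  have hWs : (W : ℝ) ≤ s := by
    refine hWle.trans ?_
    apply div_le_self hs0.le
    exact one_le_pow₀ hl1
  have hW0 : (0 : ℝ) < W := by linarith
  -- X
  obtain ⟨X₀, hX₀⟩ : ∃ X₀ : ℕ, X₀ = ⌈c0 * s * (b + 2)⌉₊ := ⟨_, rfl⟩
  have hX₀1 : c0 * s * (b + 2) ≤ X₀ := by rw [hX₀]; exact Nat.le_ceil _
  have hX₀2 : (X₀ : ℝ) ≤ c0 * s * (b + 2) + 1 := by
    rw [hX₀]; exact (Nat.ceil_lt_add_one (by positivity)).le
  obtain ⟨Y, hY⟩ : ∃ Y : ℕ, Y = ⌈s * (a + 2)⌉₊ + 1 := ⟨_, rfl⟩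
  have hY1 : s * (a + 2) + 1 ≤ Y := by
    rw [hY]; push_cast
    have := Nat.le_ceil (s * (a + 2))
    linarith
  have hY2 : (Y : ℝ) ≤ s * (a + 2) + 2 := by
    rw [hY]; push_cast
    have := (Nat.ceil_lt_add_one (show 0 ≤ s * (a + 2) by positivity)).le
    linarith
  -- the direction
  obtain ⟨h2, hh2⟩ : ∃ h2 : ℝ, h2 = 1 / ((n : ℝ) - m) := ⟨_, rfl⟩
  obtain ⟨h1, hh1⟩ : ∃ h1 : ℝ, h1 = n * h2 / s := ⟨_, rfl⟩
  have e1 : h1 * s = n * h2 := by rw [hh1]; field_simp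
  have hdir : h1 * s + h2 * (-(m : ℝ)) = 1 := by
    rw [e1, hh2]; field_simp; ring
  have hd2 : |h2| ≤ ℓ ^ D / s := by
    rw [hh2, abs_div, abs_one, div_le_div_iff₀ hd0 hs0]
    rw [div_le_iff₀ (by positivity)] at hnm
    linarith
  have hd1 : |h1| ≤ c0 * (ℓ ^ D / s) := by
    rw [hh1, abs_div, abs_mul, abs_of_nonneg hn0, abs_of_pos hs0, div_le_iff₀ hs0]
    calc (n : ℝ) * |h2| ≤ (c0 * s) * (ℓ ^ D / s) := mul_le_mul hn hd2 (abs_nonneg _) (by positivity)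
      _ = c0 * (ℓ ^ D / s) * s := by ring
  have hWD : (W : ℝ) * ((c0 + 1) * (ℓ ^ D / s)) ≤ ρ := by
    calc (W : ℝ) * ((c0 + 1) * (ℓ ^ D / s)) ≤ (s / ℓ ^ E) * (ℓ * (ℓ ^ D / s)) := by
          apply mul_le_mul hWle _ (by positivity) (by positivity)
          apply mul_le_mul_of_nonneg_right hlc (by positivity)
      _ = ρ := by
          rw [hρ, hEe, pow_add, pow_add, pow_one]
          field_simp
  have hW1' : (W : ℝ) * |h1| ≤ ρ := by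
    refine le_trans ?_ hWD
    apply mul_le_mul_of_nonneg_left _ hW0.le
    refine hd1.trans ?_
    have : 0 ≤ ℓ ^ D / s := by positivity
    nlinarith
  have hW2' : (W : ℝ) * |h2| ≤ ρ := by
    refine le_trans ?_ hWD
    apply mul_le_mul_of_nonneg_left _ hW0.le
    refine hd2.trans ?_
    have : 0 ≤ ℓ ^ D / s := by positivity
    nlinarith
  -- L
  obtain ⟨L, hL⟩ : ∃ L : ℝ, L = |C₁| * (2 * ℓ) ^ k := ⟨_, rfl⟩
  have hL0 : 0 ≤ L := by rw [hL]; positivity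
  have hf : ∀ j, j < X₀ + Y → |ext h X₀ j| ≤ L := by
    intro j hj
    unfold ext
    split_ifs with hj2
    · rw [hL]
      apply pair_h_bd h C₁ k hC s a ha hs1 hsa
      have : j - X₀ ≤ Y := by omega
      have : ((j - X₀ : ℕ) : ℝ) ≤ Y := by exact_mod_cast this
      linarith
    · rw [abs_zero]; exact hL0
  have hx : ∀ ω : ℝ × ℝ, a - ρ ≤ ω.1 → ω.1 ≤ a + 1 + ρ → b - ρ ≤ ω.2 → ω.2 ≤ b + 1 + ρ →
      0 ≤ ω.1 * s + ω.2 * (-(m : ℝ)) + X₀ ∧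
        ω.1 * s + ω.2 * (-(m : ℝ)) + X₀ < ((X₀ + Y : ℕ) : ℝ) ∧ |term h s n ω| ≤ L := by
    intro ω k1 k2 k3 k4
    have g1 : 0 ≤ ω.1 := by linarith
    have g2 : ω.1 ≤ a + 2 := by linarith
    have g3 : 0 ≤ ω.2 := by linarith
    have g4 : ω.2 ≤ b + 2 := by linarith
    have g5 : ω.1 * s ≤ (a + 2) * s := mul_le_mul_of_nonneg_right g2 hs0.le
    have g6 : 0 ≤ ω.1 * s := by positivity
    have g7 : ω.2 * m ≤ (b + 2) * (c0 * s) := mul_le_mul g4 hm hm0 (by linarith)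
    have g8 : 0 ≤ ω.2 * m := by positivity
    refine ⟨by linarith, by push_cast; linarith, ?_⟩
    unfold term
    split_ifs with hpos
    · rw [hL]
      apply pair_h_bd h C₁ k hC s a ha hs1 hsa
      refine (Nat.floor_le hpos).trans ?_
      have : 0 ≤ (n : ℝ) * ω.2 := by positivity
      linarith
    · rw [abs_zero]; exact hL0
  have hΦ : ∀ (ω : ℝ × ℝ) (t : ℝ), term h s n (ω + t • ((h1, h2) : ℝ × ℝ)) = term h s n ω := by
    intro ω t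
    have g1 : s * (ω + t • ((h1, h2) : ℝ × ℝ)).1 - n * (ω + t • ((h1, h2) : ℝ × ℝ)).2 =
        s * ω.1 - n * ω.2 := by
      simp only [Prod.fst_add, Prod.snd_add, Prod.smul_fst, Prod.smul_snd, smul_eq_mul]
      linear_combination t * e1
    unfold term
    rw [g1]
  have hgen := gen a b s (-(m : ℝ)) X₀ hs0 (X₀ + Y) W hW1 (h1, h2) hdir ρ hW1' hW2' (ext h X₀) L hf
    (term h s n) (pair_term_meas h s n) L hx hΦ
  have hint : ∫ ω in B a b, term h s n ω * term h s m ω =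
      ∫ ω in B a b, term h s n ω * ext h X₀ ⌊ω.1 * s + ω.2 * (-(m : ℝ)) + X₀⌋₊ := by
    apply setIntegral_congr_fun
    · exact measurableSet_Icc.prod measurableSet_Icc
    · intro ω hω
      simp only
      rw [pair_term_eq h s m ω X₀]
      obtain ⟨⟨k1, k2⟩, k3, k4⟩ := hω
      exact (hx ω (by linarith) (by linarith) (by linarith) (by linarith)).1
  rw [hint]
  refine hgen.trans ?_
  -- the square root
  obtain ⟨Q, hQ⟩ : ∃ Q : ℝ, Q = |C₃| * s / ℓ ^ A'' := ⟨_, rfl⟩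
  have hQ0 : 0 ≤ Q := by rw [hQ]; positivity
  obtain ⟨K, hK⟩ : ∃ K : ℝ, K = c0 * (b + 2) + a + 6 := ⟨_, rfl⟩
  have hK1 : 1 ≤ K := by
    have : 0 ≤ c0 * (b + 2) := by positivity
    linarith
  have hXK : ((X₀ + Y : ℕ) : ℝ) ≤ K * s := by
    push_cast
    rw [hK]
    nlinarith
  have hsum : ∑ u ∈ range (X₀ + Y), (∑ t ∈ Icc 1 W, ext h X₀ (u + t)) ^ 2 ≤ (K * s) * Q ^ 2 := by
    have g1 : ∀ u ∈ range (X₀ + Y), (∑ t ∈ Icc 1 W, ext h X₀ (u + t)) ^ 2 ≤ Q ^ 2 := by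
      intro u hu
      have hu' : u < X₀ + Y := Finset.mem_range.mp hu
      have g2 : |∑ t ∈ Icc 1 W, ext h X₀ (u + t)| ≤ Q := by
        refine (hwin X₀ u W ?_).trans ?_
        · have g3 : ((u + 1 : ℕ) : ℝ) ≤ ((X₀ + Y : ℕ) : ℝ) := by exact_mod_cast hu'
          push_cast at g3 ⊢
          nlinarith
        · rw [hQ]
          apply div_le_div_of_nonneg_right _ (by positivity)
          exact mul_le_mul_of_nonneg_right (le_abs_self _) hs0.le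
      rw [← sq_abs]
      exact pow_le_pow_left₀ (abs_nonneg _) g2 2
    refine (Finset.sum_le_sum g1).trans ?_
    rw [Finset.sum_const, Finset.card_range, nsmul_eq_mul]
    exact mul_le_mul_of_nonneg_right hXK (sq_nonneg _)
  have hsq : Real.sqrt ((∑ u ∈ range (X₀ + Y), (∑ t ∈ Icc 1 W, ext h X₀ (u + t)) ^ 2) / s) ≤
      K * Q := by
    rw [Real.sqrt_le_iff]
    refine ⟨by positivity, ?_⟩
    rw [div_le_iff₀ hs0]
    refine hsum.trans ?_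
    have : K * s * Q ^ 2 ≤ K * (K * s * Q ^ 2) := by
      have : 0 ≤ K * s * Q ^ 2 := by positivity
      nlinarith
    calc K * s * Q ^ 2 ≤ K * (K * s * Q ^ 2) := this
      _ = (K * Q) ^ 2 * s := by ring
  have hsqW : Real.sqrt ((∑ u ∈ range (X₀ + Y), (∑ t ∈ Icc 1 W, ext h X₀ (u + t)) ^ 2) / s) / W ≤
      2 * K * |C₃| * (ℓ ^ E / ℓ ^ A'') := by
    rw [div_le_iff₀ hW0]
    refine hsq.trans ?_
    calc K * Q = 2 * K * |C₃| * (ℓ ^ E / ℓ ^ A'') * (s / ℓ ^ E / 2) := by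
          rw [hQ]; field_simp
      _ ≤ 2 * K * |C₃| * (ℓ ^ E / ℓ ^ A'') * W := by
          apply mul_le_mul_of_nonneg_left hWge (by positivity)
  have hfirst : 4 * L * L * ρ ≤ 4 * (|C₁| * 2 ^ k) * (|C₁| * 2 ^ k) / ℓ ^ A := by
    have : 4 * L * L * ρ = 4 * (|C₁| * 2 ^ k) * (|C₁| * 2 ^ k) / ℓ ^ A * (1 / ℓ) := by
      rw [hL, hρ, hA', mul_pow, pow_add, pow_add, pow_one, mul_comm 2 k, pow_mul]
      field_simp
    rw [this]
    apply mul_le_of_le_one_right (by positivity)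
    rw [div_le_one hℓ0]; exact hl1
  have hsecond : L * Real.sqrt ((∑ u ∈ range (X₀ + Y), (∑ t ∈ Icc 1 W, ext h X₀ (u + t)) ^ 2) / s) / W ≤
      2 * (|C₁| * 2 ^ k) * K * |C₃| / ℓ ^ A := by
    rw [mul_div_assoc]
    refine (mul_le_mul_of_nonneg_left hsqW hL0).trans (le_of_eq ?_)
    rw [hL, hA'', mul_pow, pow_add, pow_add]
    field_simp
  rw [← hK]
  calc 4 * L * L * ρ + L * Real.sqrt ((∑ u ∈ range (X₀ + Y), (∑ t ∈ Icc 1 W, ext h X₀ (u + t)) ^ 2) / s) / W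
      ≤ 4 * (|C₁| * 2 ^ k) * (|C₁| * 2 ^ k) / ℓ ^ A + 2 * (|C₁| * 2 ^ k) * K * |C₃| / ℓ ^ A :=
        add_le_add hfirst hsecond
    _ = _ := by rw [← add_div]

theorem pair (h : ℕ → ℝ) (hb : LogBdd h) (hm : MeanZero h) (a b : ℝ) (ha : 0 < a) (hb0 : 0 < b) (C₀ : ℝ) (A D : ℕ) :
    ∃ C : ℝ, ∀ᶠ s : ℝ in atTop, ∀ n m : ℕ, (n : ℝ) ≤ C₀ * s → (m : ℝ) ≤ C₀ * s → s / (Real.log s) ^ D ≤ |(n : ℝ) - m| →
      |∫ ω in B a b, term h s n ω * term h s m ω| ≤ C / (Real.log s) ^ A := by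
  obtain ⟨C₁, k, hC⟩ := hb
  obtain ⟨C₃, hwin⟩ := window h ⟨C₁, k, hC⟩ hm (a + 6) ((D + (A + 2 * k + 1) + 1) + k + A)
  refine ⟨4 * (|C₁| * 2 ^ k) * (|C₁| * 2 ^ k) +
    2 * (|C₁| * 2 ^ k) * (|C₀| * (b + 2) + a + 6) * |C₃|, ?_⟩
  have hlog : Tendsto Real.log atTop atTop := Real.tendsto_log_atTop
  have hlit := (Real.isLittleO_pow_log_id_atTop (n := D + (A + 2 * k + 1) + 1)).bound
    (show (0 : ℝ) < 1 / 2 by norm_num)
  filter_upwards [hwin, eventually_ge_atTop 1, eventually_ge_atTop (a + 6),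
    hlog.eventually_ge_atTop 1, hlog.eventually_ge_atTop (|C₀| + 1), hlog.eventually_ge_atTop (2 / a),
    hlog.eventually_ge_atTop (2 / b), hlit] with s g1 g2 g3 g4 g5 g6 g7 g8
  intro n m hn hm' hnm
  have hs0 : 0 < s := by linarith
  have hc : C₀ * s ≤ |C₀| * s := mul_le_mul_of_nonneg_right (le_abs_self _) hs0.le
  refine pair_core h C₁ k hC a b ha hb0 |C₀| (abs_nonneg _) A D (A + 2 * k + 1)
    ((D + (A + 2 * k + 1) + 1) + k + A) rfl rfl C₃ s g2 g3 g4 g5 g6 g7 ?_ g1 n m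
    (hn.trans hc) (hm'.trans hc) hnm
  rw [Real.norm_eq_abs, Real.norm_eq_abs, id, abs_of_pos hs0] at g8
  have := (le_abs_self _).trans g8
  linarith

end TG2

end Pool.Agent.helper616_TG
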