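import Pool.Agent.helper616_TG.Defs
import Pool.Agent.helper616_TG.TG2

/-!
# Project TG (helper616): the second moment
-/

set_option autoImplicit false
set_option maxHeartbeats 4000000

open Finset MeasureTheory Filter Topology
open Pool.Agent.helper616_TS (LogBdd MeanZero)
open Pool.Agent.helper616_RP (B)

namespace Pool.Agent.helper616_TG

open TG2 (pair)

namespace TG3


theorem term_meas (h : ℕ → ℝ) (s : ℝ) (n : ℕ) : Measurable (term h s n) := by
  unfold term
  refine Measurable.ite (measurableSet_le measurable_const (by fun_prop)) ?_ measurable_const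
  exact (measurable_from_nat (f := h)).comp (Nat.measurable_floor.comp (by fun_prop))

theorem volB (a b : ℝ) : volume (B a b) = 1 := by
  unfold B
  rw [Measure.volume_eq_prod, Measure.prod_prod, Real.volume_Icc, Real.volume_Icc]
  simp

theorem measB (a b : ℝ) : MeasurableSet (B a b) := measurableSet_Icc.prod measurableSet_Icc

theorem near_card (n N : ℕ) (R : ℝ) (hR : 0 ≤ R) :
    (((range N).filter (fun m : ℕ => |(n : ℝ) - m| < R)).card : ℝ) ≤ 2 * R + 1 := by
  have hsub : (range N).filter (fun m : ℕ => |(n : ℝ) - m| < R) ⊆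
      Finset.Icc (n - ⌊R⌋₊) (n + ⌊R⌋₊) := by
    intro m hm
    rw [Finset.mem_filter] at hm
    rw [Finset.mem_Icc]
    have h1 := abs_lt.1 hm.2
    constructor
    · have h2 : n < m + (⌊R⌋₊ + 1) := by
        have h3 := Nat.lt_floor_add_one R
        have : (n : ℝ) < m + (⌊R⌋₊ + 1) := by linarith
        exact_mod_cast this
      omega
    · have h2 : m < n + (⌊R⌋₊ + 1) := by
        have h3 := Nat.lt_floor_add_one R
        have : (m : ℝ) < n + (⌊R⌋₊ + 1) := by linarith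
        exact_mod_cast this
      omega
  have h1 := Finset.card_le_card hsub
  rw [Nat.card_Icc] at h1
  have h2 : (n + ⌊R⌋₊ + 1) - (n - ⌊R⌋₊) ≤ 2 * ⌊R⌋₊ + 1 := by omega
  have h3 : (((range N).filter (fun m : ℕ => |(n : ℝ) - m| < R)).card : ℝ) ≤ 2 * ⌊R⌋₊ + 1 := by
    exact_mod_cast h1.trans h2
  have h4 := Nat.floor_le hR
  linarith

theorem secondMoment (w h : ℕ → ℝ) (hw : LogBdd w) (hb : LogBdd h) (hm : MeanZero h) (a b : ℝ) (ha : 0 < a) (hb0 : 0 < b)
    (C₀ : ℝ) (A : ℕ) :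
    ∃ C : ℝ, ∀ᶠ s : ℝ in atTop, ∀ N : ℕ, (N : ℝ) ≤ C₀ * s →
      ∫ ω in B a b, (∑ n ∈ range N, w n * term h s n ω) ^ 2 ≤ C * s ^ 2 / (Real.log s) ^ A := by
  have hb' := hb
  obtain ⟨Cw, kw, hw⟩ := hw
  obtain ⟨Ch, kh, hh⟩ := hb'
  obtain ⟨Cp, hp⟩ := pair h hb hm a b ha hb0 |C₀| (A + 2 * kw) (A + 2 * kw + 2 * kh)
  refine ⟨|C₀| * 3 * (Cw ^ 2 * Ch ^ 2 * 2 ^ (2 * kw + 2 * kh)) +
    |C₀| ^ 2 * (Cw ^ 2 * 2 ^ (2 * kw) * |Cp|), ?_⟩
  have ev3 : ∀ᶠ s : ℝ in atTop, (Real.log s) ^ (A + 2 * kw + 2 * kh) ≤ s := by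
    have h1 := (Real.isLittleO_pow_log_id_atTop (n := A + 2 * kw + 2 * kh)).bound (zero_lt_one)
    filter_upwards [h1, eventually_ge_atTop (0 : ℝ)] with s hs h0
    rw [one_mul, id, Real.norm_of_nonneg h0] at hs
    exact (le_abs_self _).trans hs
  filter_upwards [hp, ev3, eventually_ge_atTop (max (max (|C₀| + 2) (a + 1 + 2)) (Real.exp 1))]
    with s hps h3 hs N hN
  have hs1 : |C₀| + 2 ≤ s := le_trans (le_trans (le_max_left _ _) (le_max_left _ _)) hs
  have hs2 : a + 1 + 2 ≤ s := le_trans (le_trans (le_max_right _ _) (le_max_left _ _)) hs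
  have hs3 : Real.exp 1 ≤ s := le_trans (le_max_right _ _) hs
  have hs0 : 0 < s := (Real.exp_pos 1).trans_le hs3
  have hs0' : 1 ≤ s := by linarith [abs_nonneg C₀]
  have hl : 1 ≤ Real.log s := by
    rw [Real.le_log_iff_exp_le hs0]; exact hs3
  have hl0 : 0 < Real.log s := by linarith
  have hlog : ∀ x : ℝ, 0 ≤ x → x + 2 ≤ s ^ 2 → Real.log (x + 2) ≤ 2 * Real.log s := by
    intro x hx hx2
    have := Real.log_le_log (by linarith) hx2
    rwa [Real.log_pow, Nat.cast_ofNat] at this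
  have hlog0 : ∀ n : ℕ, 0 ≤ Real.log ((n : ℝ) + 2) := fun n =>
    Real.log_nonneg (by have := Nat.cast_nonneg (α := ℝ) n; linarith)
  have hNs : (N : ℝ) ≤ |C₀| * s := hN.trans (mul_le_mul_of_nonneg_right (le_abs_self _) hs0.le)
  set Ww : ℝ := |Cw| * (2 * Real.log s) ^ kw with hWw
  set Hh : ℝ := |Ch| * (2 * Real.log s) ^ kh with hHh
  have hWw0 : 0 ≤ Ww := by positivity
  have hHh0 : 0 ≤ Hh := by positivity
  have hwb : ∀ n ∈ range N, |w n| ≤ Ww := by
    intro n hn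
    have hn' : (n : ℝ) ≤ |C₀| * s := by
      have : (n : ℝ) ≤ N := by exact_mod_cast (Finset.mem_range.1 hn).le
      linarith
    refine (hw n).trans ?_
    have h5 := hlog n (Nat.cast_nonneg _) (by nlinarith [abs_nonneg C₀])
    calc Cw * Real.log (n + 2) ^ kw ≤ |Cw| * Real.log (n + 2) ^ kw :=
          mul_le_mul_of_nonneg_right (le_abs_self _) (pow_nonneg (hlog0 n) _)
      _ ≤ _ := mul_le_mul_of_nonneg_left (pow_le_pow_left₀ (hlog0 n) h5 _) (abs_nonneg _)
  have htb : ∀ n : ℕ, ∀ ω ∈ B a b, |term h s n ω| ≤ Hh := by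
    intro n ω hω
    unfold term
    split_ifs with hc
    · refine (hh _).trans ?_
      have hω1 : ω.1 ≤ a + 1 := hω.1.2
      have hω2 : b ≤ ω.2 := hω.2.1
      have hfl : ((⌊s * ω.1 - n * ω.2⌋₊ : ℕ) : ℝ) ≤ (a + 1) * s := by
        refine (Nat.floor_le hc).trans ?_
        have : 0 ≤ (n : ℝ) * ω.2 := mul_nonneg (Nat.cast_nonneg _) (by linarith)
        nlinarith
      have h5 := hlog (⌊s * ω.1 - n * ω.2⌋₊ : ℕ) (Nat.cast_nonneg _) (by nlinarith)
      calc Ch * Real.log ((⌊s * ω.1 - n * ω.2⌋₊ : ℕ) + 2) ^ kh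
          ≤ |Ch| * Real.log ((⌊s * ω.1 - n * ω.2⌋₊ : ℕ) + 2) ^ kh :=
            mul_le_mul_of_nonneg_right (le_abs_self _) (pow_nonneg (hlog0 _) _)
        _ ≤ _ := mul_le_mul_of_nonneg_left (pow_le_pow_left₀ (hlog0 _) h5 _) (abs_nonneg _)
    · simpa using hHh0
  have hvol : volume (B a b) < ⊤ := by rw [volB]; exact ENNReal.one_lt_top
  have hvol1 : volume.real (B a b) = 1 := by rw [Measure.real, volB]; rfl
  have hprodb : ∀ n m : ℕ, ∀ ω ∈ B a b, ‖term h s n ω * term h s m ω‖ ≤ Hh ^ 2 := by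
    intro n m ω hω
    rw [norm_mul, sq]
    exact mul_le_mul (htb n ω hω) (htb m ω hω) (abs_nonneg _) hHh0
  have hint : ∀ n m : ℕ, IntegrableOn (fun ω => term h s n ω * term h s m ω) (B a b) := by
    intro n m
    refine Measure.integrableOn_of_bounded (M := Hh ^ 2) hvol.ne
      ((term_meas h s n).mul (term_meas h s m)).aestronglyMeasurable ?_
    rw [ae_restrict_iff' (measB a b)]
    exact Eventually.of_forall fun ω hω => hprodb n m ω hω
  have hIb : ∀ n m : ℕ, |∫ ω in B a b, term h s n ω * term h s m ω| ≤ Hh ^ 2 := by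
    intro n m
    have := norm_setIntegral_le_of_norm_le_const hvol (fun ω hω => hprodb n m ω hω)
    rwa [hvol1, mul_one] at this
  have hexp : ∫ ω in B a b, (∑ n ∈ range N, w n * term h s n ω) ^ 2 =
      ∑ n ∈ range N, ∑ m ∈ range N, w n * w m * ∫ ω in B a b, term h s n ω * term h s m ω := by
    have e1 : (fun ω => (∑ n ∈ range N, w n * term h s n ω) ^ 2) = fun ω =>
        ∑ n ∈ range N, ∑ m ∈ range N, w n * w m * (term h s n ω * term h s m ω) := by
      funext ω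
      rw [sq, Finset.sum_mul_sum]
      refine Finset.sum_congr rfl fun n _ => Finset.sum_congr rfl fun m _ => ?_
      ring
    rw [e1, integral_finsetSum _ fun n _ => integrable_finsetSum _ fun m _ =>
      (hint n m).const_mul _]
    refine Finset.sum_congr rfl fun n _ => ?_
    rw [integral_finsetSum _ fun m _ => (hint n m).const_mul _]
    refine Finset.sum_congr rfl fun m _ => ?_
    rw [integral_const_mul]
  set R : ℝ := s / Real.log s ^ (A + 2 * kw + 2 * kh) with hR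
  have hR0 : 0 ≤ R := by positivity
  have hR1 : 1 ≤ R := by
    rw [hR, one_le_div (by positivity)]; exact h3
  set FB : ℝ := |Cp| / Real.log s ^ (A + 2 * kw) with hFB
  have hFB0 : 0 ≤ FB := by positivity
  have hpairb : ∀ n ∈ range N, ∀ m ∈ range N,
      w n * w m * ∫ ω in B a b, term h s n ω * term h s m ω ≤
      (if |(n : ℝ) - m| < R then Ww ^ 2 * Hh ^ 2 else 0) + Ww ^ 2 * FB := by
    intro n hn m hm'
    have hn' : (n : ℝ) ≤ |C₀| * s := by
      have : (n : ℝ) ≤ N := by exact_mod_cast (Finset.mem_range.1 hn).le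
      linarith
    have hm'' : (m : ℝ) ≤ |C₀| * s := by
      have : (m : ℝ) ≤ N := by exact_mod_cast (Finset.mem_range.1 hm').le
      linarith
    have hww : |w n * w m| ≤ Ww ^ 2 := by
      rw [abs_mul, sq]
      exact mul_le_mul (hwb n hn) (hwb m hm') (abs_nonneg _) hWw0
    refine (le_abs_self _).trans ?_
    rw [abs_mul]
    split_ifs with hc
    · have h6 : |w n * w m| * |∫ ω in B a b, term h s n ω * term h s m ω| ≤ Ww ^ 2 * Hh ^ 2 :=
        mul_le_mul hww (hIb n m) (abs_nonneg _) (by positivity)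
      have : 0 ≤ Ww ^ 2 * FB := by positivity
      linarith
    · have h6 := hps n m hn' hm'' (not_lt.1 hc)
      have h7 : |∫ ω in B a b, term h s n ω * term h s m ω| ≤ FB :=
        h6.trans (div_le_div_of_nonneg_right (le_abs_self _) (by positivity))
      have h8 : |w n * w m| * |∫ ω in B a b, term h s n ω * term h s m ω| ≤ Ww ^ 2 * FB :=
        mul_le_mul hww h7 (abs_nonneg _) (by positivity)
      linarith
  rw [hexp]
  have hsum : ∑ n ∈ range N, ∑ m ∈ range N,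
      w n * w m * ∫ ω in B a b, term h s n ω * term h s m ω ≤
      N * ((2 * R + 1) * (Ww ^ 2 * Hh ^ 2)) + N * (N * (Ww ^ 2 * FB)) := by
    calc _ ≤ ∑ n ∈ range N, ((2 * R + 1) * (Ww ^ 2 * Hh ^ 2) + N * (Ww ^ 2 * FB)) := by
          refine Finset.sum_le_sum fun n hn => ?_
          refine (Finset.sum_le_sum fun m hm' => hpairb n hn m hm').trans ?_
          rw [Finset.sum_add_distrib, Finset.sum_const, Finset.card_range, nsmul_eq_mul,
            ← Finset.sum_filter, Finset.sum_const, nsmul_eq_mul]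
          have := mul_le_mul_of_nonneg_right (near_card n N R hR0)
            (by positivity : 0 ≤ Ww ^ 2 * Hh ^ 2)
          linarith
      _ = _ := by
          rw [Finset.sum_const, Finset.card_range, nsmul_eq_mul]; ring
  refine hsum.trans ?_
  have hN0 : (0 : ℝ) ≤ N := Nat.cast_nonneg _
  have hWw2 : Ww ^ 2 = Cw ^ 2 * 2 ^ (2 * kw) * Real.log s ^ (2 * kw) := by
    rw [hWw, mul_pow, sq_abs, ← pow_mul, mul_comm kw 2, mul_pow]; ring
  have hHh2 : Hh ^ 2 = Ch ^ 2 * 2 ^ (2 * kh) * Real.log s ^ (2 * kh) := by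
    rw [hHh, mul_pow, sq_abs, ← pow_mul, mul_comm kh 2, mul_pow]; ring
  have t1 : N * ((2 * R + 1) * (Ww ^ 2 * Hh ^ 2)) ≤
      |C₀| * 3 * (Cw ^ 2 * Ch ^ 2 * 2 ^ (2 * kw + 2 * kh)) * s ^ 2 / Real.log s ^ A := by
    have h9 : N * ((2 * R + 1) * (Ww ^ 2 * Hh ^ 2)) ≤
        (|C₀| * s) * ((3 * R) * (Ww ^ 2 * Hh ^ 2)) := by
      apply mul_le_mul hNs _ (by positivity) (by positivity)
      apply mul_le_mul_of_nonneg_right _ (by positivity)
      linarith
    refine h9.trans (le_of_eq ?_)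
    rw [hWw2, hHh2, hR, pow_add, pow_add, pow_add]
    field_simp
  have t2 : N * (N * (Ww ^ 2 * FB)) ≤
      |C₀| ^ 2 * (Cw ^ 2 * 2 ^ (2 * kw) * |Cp|) * s ^ 2 / Real.log s ^ A := by
    have h9 : N * (N * (Ww ^ 2 * FB)) ≤ (|C₀| * s) * ((|C₀| * s) * (Ww ^ 2 * FB)) := by
      apply mul_le_mul hNs _ (by positivity) (by positivity)
      exact mul_le_mul_of_nonneg_right hNs (by positivity)
    refine h9.trans (le_of_eq ?_)
    rw [hWw2, hFB, pow_add]
    field_simp
  have : (|C₀| * 3 * (Cw ^ 2 * Ch ^ 2 * 2 ^ (2 * kw + 2 * kh)) +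
    |C₀| ^ 2 * (Cw ^ 2 * 2 ^ (2 * kw) * |Cp|)) * s ^ 2 / Real.log s ^ A =
    |C₀| * 3 * (Cw ^ 2 * Ch ^ 2 * 2 ^ (2 * kw + 2 * kh)) * s ^ 2 / Real.log s ^ A +
    |C₀| ^ 2 * (Cw ^ 2 * 2 ^ (2 * kw) * |Cp|) * s ^ 2 / Real.log s ^ A := by ring
  rw [this]
  exact add_le_add t1 t2

end TG3

end Pool.Agent.helper616_TG
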