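import Pool.Agent.helper616_TG.Defs
import Pool.Agent.helper616_TG.TG3

/-!
# Project TG (helper616): almost all parameters in a square
-/

set_option autoImplicit false
set_option maxHeartbeats 4000000

open Finset MeasureTheory Filter Topology
open Pool.Agent.helper616_TS (LogBdd MeanZero)
open Pool.Agent.helper616_RP (B)

namespace Pool.Agent.helper616_TG

open TG3 (secondMoment)

namespace TG4


theorem ae_box_meas (h : ℕ → ℝ) (s : ℝ) (n : ℕ) : Measurable (term h s n) := by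
  unfold term
  have h1 : Measurable fun ω : ℝ × ℝ => s * ω.1 - n * ω.2 := by fun_prop
  exact Measurable.ite (measurableSet_le measurable_const h1)
    (measurable_from_nat.comp (Nat.measurable_floor.comp h1)) measurable_const

theorem ae_box_bdd (h : ℕ → ℝ) (s a b : ℝ) (hs : 0 < s) (hb0 : 0 < b) (n : ℕ) (ω : ℝ × ℝ)
    (hω : ω ∈ B a b) :
    |term h s n ω| ≤ ∑ m ∈ range (⌊s * (a + 1)⌋₊ + 1), |h m| := by
  unfold term
  split_ifs with h0
  · refine Finset.single_le_sum (f := fun m => |h m|) (fun m _ => abs_nonneg (h m)) ?_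
    rw [Finset.mem_range]
    apply Nat.lt_succ_of_le
    apply Nat.floor_le_floor
    have h1 : ω.1 ≤ a + 1 := hω.1.2
    have h2 : b ≤ ω.2 := hω.2.1
    have h3 : 0 ≤ (n : ℝ) * ω.2 := by
      have : (0 : ℝ) ≤ ω.2 := by linarith
      positivity
    nlinarith
  · rw [abs_zero]
    exact Finset.sum_nonneg fun m _ => abs_nonneg _

theorem ae_box_int (w h : ℕ → ℝ) (s a b : ℝ) (hs : 0 < s) (hb0 : 0 < b) (N : ℕ) :
    Integrable (fun ω => (∑ n ∈ range N, w n * term h s n ω) ^ 2) (volume.restrict (B a b)) := by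
  have hB : MeasurableSet (B a b) := measurableSet_Icc.prod measurableSet_Icc
  have hBf : volume (B a b) ≠ ⊤ := (isCompact_Icc.prod isCompact_Icc).measure_lt_top.ne
  set H := ∑ m ∈ range (⌊s * (a + 1)⌋₊ + 1), |h m| with hH
  refine Measure.integrableOn_of_bounded (M := (∑ n ∈ range N, |w n| * H) ^ 2) hBf ?_ ?_
  · apply Measurable.aestronglyMeasurable
    apply Measurable.pow_const
    exact Finset.measurable_fun_sum _ fun n _ => (ae_box_meas h s n).const_mul _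
  · rw [ae_restrict_iff' hB]
    refine Filter.Eventually.of_forall fun ω hω => ?_
    rw [Real.norm_of_nonneg (sq_nonneg _), ← sq_abs]
    apply pow_le_pow_left₀ (abs_nonneg _)
    refine (Finset.abs_sum_le_sum_abs _ _).trans (Finset.sum_le_sum fun n _ => ?_)
    rw [abs_mul]
    exact mul_le_mul_of_nonneg_left (ae_box_bdd h s a b hs hb0 n ω hω) (abs_nonneg _)

theorem ae_box_SS (w h : ℕ → ℝ) (s a b : ℝ) (hs : 0 < s) (ha : 0 < a) (hb0 : 0 < b) (N : ℕ)
    (hN : ⌊s * (a + 1) / b⌋₊ + 1 ≤ N) (ω : ℝ × ℝ) (hω : ω ∈ B a b) :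
    SS w h s ω = ∑ n ∈ range N, w n * term h s n ω := by
  have h1 : ω.1 ≤ a + 1 := hω.1.2
  have h2 : b ≤ ω.2 := hω.2.1
  have h2' : 0 < ω.2 := by linarith
  have ha1 : a ≤ ω.1 := hω.1.1
  unfold SS
  apply Finset.sum_subset
  · intro n hn
    rw [Finset.mem_range] at hn ⊢
    refine lt_of_lt_of_le hn (le_trans (Nat.succ_le_succ (Nat.floor_le_floor ?_)) hN)
    have h0 : 0 ≤ s * ω.1 := mul_nonneg hs.le (by linarith)
    calc s * ω.1 / ω.2 ≤ s * ω.1 / b := div_le_div_of_nonneg_left h0 hb0 h2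
      _ ≤ s * (a + 1) / b :=
        div_le_div_of_nonneg_right (mul_le_mul_of_nonneg_left h1 hs.le) hb0.le
  · intro n _ hn
    rw [Finset.mem_range, not_lt] at hn
    have h3 : s * ω.1 / ω.2 < n := Nat.lt_of_floor_lt (by omega)
    rw [div_lt_iff₀ h2'] at h3
    have h4 : ¬ (0 ≤ s * ω.1 - n * ω.2) := by linarith
    unfold term
    rw [if_neg h4, mul_zero]

/-- one exponent -/
theorem ae_box_one (w h : ℕ → ℝ) (hw : LogBdd w) (hb : LogBdd h) (hm : MeanZero h) (σ : ℕ → ℝ) (δ : ℝ) (hδ : 0 < δ)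
    (hσ : ∀ᶠ j : ℕ in atTop, (j : ℝ) ^ δ ≤ Real.log (σ j)) (hσ0 : ∀ᶠ j : ℕ in atTop, 0 < σ j)
    (a b : ℝ) (ha : 0 < a) (hb0 : 0 < b) (A : ℕ) :
    ∀ᵐ ω ∂(volume.restrict (B a b)), ∀ᶠ j : ℕ in atTop, |SS w h (σ j) ω| ≤ σ j / (Real.log (σ j)) ^ A := by
  have hBm : MeasurableSet (B a b) := measurableSet_Icc.prod measurableSet_Icc
  set μ := (volume : Measure (ℝ × ℝ)).restrict (B a b) with hμ
  obtain ⟨k, hk⟩ : ∃ k : ℕ, 2 ≤ δ * k := by
    obtain ⟨k, hk⟩ := exists_nat_ge (2 / δ)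
    refine ⟨k, ?_⟩
    rw [div_le_iff₀ hδ] at hk
    linarith
  obtain ⟨C, hC⟩ := secondMoment w h hw hb hm a b ha hb0 ((a + 1) / b + 1) (2 * A + k)
  -- the logarithm tends to infinity
  have hpow : Tendsto (fun j : ℕ => (j : ℝ) ^ δ) atTop atTop :=
    (tendsto_rpow_atTop hδ).comp tendsto_natCast_atTop_atTop
  have hlog : Tendsto (fun j : ℕ => Real.log (σ j)) atTop atTop := tendsto_atTop_mono' atTop hσ hpow
  have hσt : Tendsto σ atTop atTop := by
    refine (Real.tendsto_exp_atTop.comp hlog).congr' ?_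
    filter_upwards [hσ0] with j hj
    exact Real.exp_log hj
  obtain ⟨j0, hj0⟩ : ∃ j0 : ℕ, ∀ j ≥ j0, 1 ≤ j ∧ (j : ℝ) ^ δ ≤ Real.log (σ j) ∧ 1 ≤ σ j ∧
      1 ≤ Real.log (σ j) ∧ ∀ N : ℕ, (N : ℝ) ≤ ((a + 1) / b + 1) * σ j →
      ∫ ω in B a b, (∑ n ∈ range N, w n * term h (σ j) n ω) ^ 2 ≤
        C * (σ j) ^ 2 / (Real.log (σ j)) ^ (2 * A + k) := by
    rw [← eventually_atTop]
    filter_upwards [eventually_ge_atTop 1, hσ, hσt.eventually_ge_atTop 1,
      hlog.eventually_ge_atTop 1, hσt.eventually hC] with j h1 h2 h3 h4 h5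
    exact ⟨h1, h2, h3, h4, h5⟩
  let N : ℕ → ℕ := fun j => ⌊σ j * (a + 1) / b⌋₊ + 1
  let f : ℕ → ℝ × ℝ → ℝ := fun j ω => (∑ n ∈ range (N j), w n * term h (σ j) n ω) ^ 2
  let bad : ℕ → Set (ℝ × ℝ) := fun j =>
    if j0 ≤ j then {ω | (σ j / (Real.log (σ j)) ^ A) ^ 2 ≤ f j ω} else ∅
  have hbound : ∀ j, μ (bad j) ≤ ENNReal.ofReal (|C| * (1 / (j : ℝ) ^ (2 : ℕ))) := by
    intro j
    by_cases hj : j0 ≤ j
    · obtain ⟨g1, g2, g3, g4, g5⟩ := hj0 j hj
      have e0 : bad j = {ω | (σ j / (Real.log (σ j)) ^ A) ^ 2 ≤ f j ω} := if_pos hj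
      have hs : 0 < σ j := by linarith
      have hL : 0 < Real.log (σ j) := by linarith
      have hN : (N j : ℝ) ≤ ((a + 1) / b + 1) * σ j := by
        have q1 : 0 ≤ σ j * (a + 1) / b := by positivity
        have q2 := Nat.floor_le q1
        show ((⌊σ j * (a + 1) / b⌋₊ + 1 : ℕ) : ℝ) ≤ _
        push_cast
        have q3 : ((a + 1) / b + 1) * σ j = σ j * (a + 1) / b + σ j := by ring
        rw [q3]
        linarith
      have m1 : (σ j / (Real.log (σ j)) ^ A) ^ 2 * μ.real {ω | (σ j / (Real.log (σ j)) ^ A) ^ 2 ≤ f j ω} ≤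
          ∫ ω, f j ω ∂μ :=
        mul_meas_ge_le_integral_of_nonneg (Filter.Eventually.of_forall fun ω => sq_nonneg _)
          (ae_box_int w h (σ j) a b hs hb0 (N j)) _
      have m2 : ∫ ω, f j ω ∂μ ≤ C * (σ j) ^ 2 / (Real.log (σ j)) ^ (2 * A + k) := g5 (N j) hN
      have m3 : μ.real {ω | (σ j / (Real.log (σ j)) ^ A) ^ 2 ≤ f j ω} ≤ |C| * (1 / (j : ℝ) ^ (2 : ℕ)) := by
        set v := μ.real {ω | (σ j / (Real.log (σ j)) ^ A) ^ 2 ≤ f j ω} with hv
        have t1 : (σ j / (Real.log (σ j)) ^ A) ^ 2 * v ≤ C * (σ j) ^ 2 / (Real.log (σ j)) ^ (2 * A + k) :=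
          m1.trans m2
        have t2 : (σ j / (Real.log (σ j)) ^ A) ^ 2 = (σ j) ^ 2 / (Real.log (σ j)) ^ (2 * A) := by
          rw [div_pow, ← pow_mul, mul_comm A 2]
        have hσ2 : 0 < (σ j) ^ 2 := by positivity
        have hL2 : 0 < (Real.log (σ j)) ^ (2 * A) := by positivity
        have t3 : v ≤ C / (Real.log (σ j)) ^ k := by
          rw [t2, pow_add] at t1
          rw [div_mul_eq_mul_div, div_le_div_iff₀ hL2 (by positivity)] at t1
          rw [le_div_iff₀ (by positivity)]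
          have t4 : (σ j ^ 2 * Real.log (σ j) ^ (2 * A)) * (v * Real.log (σ j) ^ k) ≤
              (σ j ^ 2 * Real.log (σ j) ^ (2 * A)) * C := by
            calc (σ j ^ 2 * Real.log (σ j) ^ (2 * A)) * (v * Real.log (σ j) ^ k)
                = σ j ^ 2 * v * (Real.log (σ j) ^ (2 * A) * Real.log (σ j) ^ k) := by ring
              _ ≤ C * σ j ^ 2 * Real.log (σ j) ^ (2 * A) := t1
              _ = _ := by ring
          exact le_of_mul_le_mul_left t4 (by positivity)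
        have hjp : (1 : ℝ) ≤ j := by exact_mod_cast g1
        have t5 : (j : ℝ) ^ (2 : ℕ) ≤ (Real.log (σ j)) ^ k := by
          calc (j : ℝ) ^ (2 : ℕ) = (j : ℝ) ^ (2 : ℝ) := by
                rw [← Real.rpow_natCast]; norm_num
            _ ≤ (j : ℝ) ^ (δ * k) := Real.rpow_le_rpow_of_exponent_le hjp hk
            _ = ((j : ℝ) ^ δ) ^ k := by
                rw [Real.rpow_mul (by positivity), Real.rpow_natCast]
            _ ≤ (Real.log (σ j)) ^ k := pow_le_pow_left₀ (by positivity) g2 k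
        calc v ≤ C / (Real.log (σ j)) ^ k := t3
          _ ≤ |C| / (Real.log (σ j)) ^ k :=
              div_le_div_of_nonneg_right (le_abs_self C) (by positivity)
          _ ≤ |C| / (j : ℝ) ^ (2 : ℕ) :=
              div_le_div_of_nonneg_left (abs_nonneg C) (by positivity) t5
          _ = |C| * (1 / (j : ℝ) ^ (2 : ℕ)) := by ring
      rw [e0]
      have hfin : μ {ω | (σ j / (Real.log (σ j)) ^ A) ^ 2 ≤ f j ω} ≠ ⊤ := by
        have : μ Set.univ < ⊤ := by
          rw [hμ, Measure.restrict_apply_univ]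
          exact (isCompact_Icc.prod isCompact_Icc).measure_lt_top
        exact (lt_of_le_of_lt (measure_mono (Set.subset_univ _)) this).ne
      rw [← ENNReal.ofReal_toReal hfin]
      exact ENNReal.ofReal_le_ofReal m3
    · have e0 : bad j = ∅ := if_neg hj
      rw [e0, measure_empty]
      exact zero_le
  have hsum : ∑' j, μ (bad j) ≠ ⊤ := by
    have hS : Summable fun j : ℕ => |C| * (1 / (j : ℝ) ^ (2 : ℕ)) :=
      (Real.summable_one_div_nat_pow.mpr (by norm_num)).mul_left _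
    exact ne_top_of_le_ne_top hS.tsum_ofReal_ne_top (ENNReal.tsum_le_tsum hbound)
  have hae := ae_eventually_notMem hsum
  have hB : ∀ᵐ ω ∂μ, ω ∈ B a b := ae_restrict_mem hBm
  filter_upwards [hae, hB] with ω h1 h2
  filter_upwards [h1, eventually_ge_atTop j0] with j h3 h4
  obtain ⟨g1, g2, g3, g4, g5⟩ := hj0 j h4
  have hs : 0 < σ j := by linarith
  have hL : 0 < Real.log (σ j) := by linarith
  have e0 : bad j = {ω | (σ j / (Real.log (σ j)) ^ A) ^ 2 ≤ f j ω} := if_pos h4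
  rw [e0] at h3
  have h5 : f j ω < (σ j / (Real.log (σ j)) ^ A) ^ 2 := not_le.mp h3
  rw [ae_box_SS w h (σ j) a b hs ha hb0 (N j) le_rfl ω h2]
  have h6 : 0 ≤ σ j / (Real.log (σ j)) ^ A := by positivity
  exact (abs_lt_of_sq_lt_sq h5 h6).le

theorem ae_box (w h : ℕ → ℝ) (hw : LogBdd w) (hb : LogBdd h) (hm : MeanZero h) (σ : ℕ → ℝ) (δ : ℝ) (hδ : 0 < δ)
    (hσ : ∀ᶠ j : ℕ in atTop, (j : ℝ) ^ δ ≤ Real.log (σ j)) (hσ0 : ∀ᶠ j : ℕ in atTop, 0 < σ j)
    (a b : ℝ) (ha : 0 < a) (hb0 : 0 < b) :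
    ∀ᵐ ω ∂(volume.restrict (B a b)), ∀ A : ℕ, ∀ᶠ j : ℕ in atTop, |SS w h (σ j) ω| ≤ σ j / (Real.log (σ j)) ^ A := by
  rw [ae_all_iff]
  exact fun A => ae_box_one w h hw hb hm σ δ hδ hσ hσ0 a b ha hb0 A

end TG4

end Pool.Agent.helper616_TG
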