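import Pool.Agent.helper616_TG.Defs
import Pool.Agent.helper616_TG.TG4

/-!
# Project TG (helper616): almost all parameters
-/

set_option autoImplicit false
set_option maxHeartbeats 4000000

open Finset MeasureTheory Filter Topology
open Pool.Agent.helper616_TS (LogBdd MeanZero)
open Pool.Agent.helper616_RP (B)

namespace Pool.Agent.helper616_TG

open TG4 (ae_box)

namespace TG5


theorem ae_quadrant (w h : ℕ → ℝ) (hw : LogBdd w) (hb : LogBdd h) (hm : MeanZero h) (σ : ℕ → ℝ) (δ : ℝ) (hδ : 0 < δ)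
    (hσ : ∀ᶠ j : ℕ in atTop, (j : ℝ) ^ δ ≤ Real.log (σ j)) (hσ0 : ∀ᶠ j : ℕ in atTop, 0 < σ j) :
    ∀ᵐ ω : ℝ × ℝ, 0 < ω.1 → 0 < ω.2 → ∀ A : ℕ, ∀ᶠ j : ℕ in atTop, |SS w h (σ j) ω| ≤ σ j / (Real.log (σ j)) ^ A := by
  have key : ∀ q : ℚ × ℚ, ∀ᵐ ω : ℝ × ℝ, 0 < q.1 → 0 < q.2 → ω ∈ B (q.1 : ℝ) (q.2 : ℝ) →
      ∀ A : ℕ, ∀ᶠ j : ℕ in atTop, |SS w h (σ j) ω| ≤ σ j / (Real.log (σ j)) ^ A := by
    intro q
    by_cases h1 : 0 < q.1
    · by_cases h2 : 0 < q.2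
      · have h3 := ae_box w h hw hb hm σ δ hδ hσ hσ0 (q.1 : ℝ) (q.2 : ℝ) (by exact_mod_cast h1)
          (by exact_mod_cast h2)
        have hB : MeasurableSet (B (q.1 : ℝ) (q.2 : ℝ)) := measurableSet_Icc.prod measurableSet_Icc
        rw [ae_restrict_iff' hB] at h3
        filter_upwards [h3] with ω hω _ _ hm
        exact hω hm
      · exact Filter.Eventually.of_forall fun ω _ h' => absurd h' h2
    · exact Filter.Eventually.of_forall fun ω h' => absurd h' h1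
  filter_upwards [ae_all_iff.2 key] with ω hω h1 h2
  obtain ⟨q1, hq1, hq1'⟩ := exists_rat_btwn (show max 0 (ω.1 - 1) < ω.1 from max_lt h1 (by linarith))
  obtain ⟨q2, hq2, hq2'⟩ := exists_rat_btwn (show max 0 (ω.2 - 1) < ω.2 from max_lt h2 (by linarith))
  have a1 : (0:ℝ) < q1 := lt_of_le_of_lt (le_max_left _ _) hq1
  have a2 : (0:ℝ) < q2 := lt_of_le_of_lt (le_max_left _ _) hq2
  have b1 : ω.1 - 1 < q1 := lt_of_le_of_lt (le_max_right _ _) hq1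
  have b2 : ω.2 - 1 < q2 := lt_of_le_of_lt (le_max_right _ _) hq2
  refine hω (q1, q2) (by exact_mod_cast a1) (by exact_mod_cast a2) ?_
  refine ⟨⟨?_, ?_⟩, ⟨?_, ?_⟩⟩ <;> simp only <;> linarith

end TG5

end Pool.Agent.helper616_TG
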