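import Pool.Agent.helper616_TG.Defs

/-!
# Project TG (helper616): null sets under a change of variables
-/

set_option autoImplicit false
set_option maxHeartbeats 4000000

open Finset MeasureTheory Filter Topology
open Pool.Agent.helper616_TS (LogBdd MeanZero)
open Pool.Agent.helper616_RP (B)

namespace Pool.Agent.helper616_TG

namespace TG6


theorem change (P : ℝ × ℝ → Prop) (h : ∀ᵐ ω : ℝ × ℝ, 0 < ω.1 → 0 < ω.2 → P ω) (K : ℝ) (hK : 0 < K) :
    ∀ᵐ l : ℝ × ℝ, 0 < l.1 → 0 < l.2 → P (K / l.2, K * l.1 / l.2) := by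
  set A : Set (ℝ × ℝ) := {w | 0 < w.1 ∧ 0 < w.2 ∧ ¬ P w} with hA
  have hA0 : (volume : Measure (ℝ × ℝ)) A = 0 := by
    rw [ae_iff] at h
    refine measure_mono_null ?_ h
    intro w hw
    simp only [hA, Set.mem_ofPred_eq] at hw ⊢
    push Not
    exact hw
  have himg : (volume : Measure (ℝ × ℝ)) ((fun w : ℝ × ℝ => (w.2 / w.1, K / w.1)) '' A) = 0 := by
    refine MeasureTheory.addHaar_image_eq_zero_of_differentiableOn_of_addHaar_eq_zero volume ?_ hA0
    intro w hw
    have h1 : w.1 ≠ 0 := (hw.1).ne'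
    apply DifferentiableAt.differentiableWithinAt
    have hf : DifferentiableAt ℝ (fun w : ℝ × ℝ => w.1) w := differentiableAt_fst
    have hs : DifferentiableAt ℝ (fun w : ℝ × ℝ => w.2) w := differentiableAt_snd
    have hi : DifferentiableAt ℝ (fun w : ℝ × ℝ => (w.1)⁻¹) w := hf.fun_inv h1
    have e1 : DifferentiableAt ℝ (fun w : ℝ × ℝ => w.2 / w.1) w := by
      simp only [div_eq_mul_inv]; exact hs.mul hi
    have e2 : DifferentiableAt ℝ (fun w : ℝ × ℝ => K / w.1) w := by
      simp only [div_eq_mul_inv]; exact hi.const_mul K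
    exact e1.prodMk e2
  rw [ae_iff]
  refine measure_mono_null ?_ himg
  intro l hl
  simp only [Set.mem_ofPred_eq] at hl
  push Not at hl
  obtain ⟨h1, h2, h3⟩ := hl
  refine ⟨(K / l.2, K * l.1 / l.2), ⟨by positivity, by positivity, h3⟩, ?_⟩
  ext
  · simp only
    field_simp
  · simp only
    field_simp

end TG6

end Pool.Agent.helper616_TG
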