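import Pool.Agent.helper616_TG.Defs

/-!
# Project TG (helper616): weighted numbers of pairs in cells
-/

set_option autoImplicit false
set_option maxHeartbeats 4000000

open Finset MeasureTheory Filter Topology
open Pool.Agent.helper616_TS (LogBdd MeanZero)
open Pool.Agent.helper616_RP (B)

namespace Pool.Agent.helper616_TG

namespace TG8


/-- the inner sum -/
noncomputable def wI (g : ℕ → ℝ) (l : ℝ × ℝ) (s a b : ℝ) (p : ℕ) : ℝ :=
  ∑ q ∈ range (⌊(s + |a|) / l.2⌋₊ + 1),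
    if a ≤ s - l.1 * p - l.2 * q ∧ s - l.1 * p - l.2 * q < b then g p * g q else 0

/-- the inner sum is a value of `cell` -/
theorem w_inner (g : ℕ → ℝ) (l : ℝ × ℝ) (h1 : 0 < l.1) (h2 : 0 < l.2) (K : ℕ) (hK : 1 ≤ K) (i : ℤ)
    (s : ℝ) (p : ℕ) (hp : l.1 * p ≤ s) :
    K * wI g l s (i * l.2 / K) ((i + 1) * l.2 / K) p =
      g p * cell g K i ⌊s * (K / l.2) - p * (K * l.1 / l.2)⌋₊ := by
  have hK0 : (0 : ℝ) < K := by exact_mod_cast hK
  set a : ℝ := i * l.2 / K with ha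
  set b : ℝ := (i + 1) * l.2 / K with hb
  set y : ℝ := s * (K / l.2) - p * (K * l.1 / l.2) with hy
  have hyeq : y = K / l.2 * (s - l.1 * p) := by rw [hy]; ring
  have hy0 : 0 ≤ y := by
    rw [hyeq]
    exact mul_nonneg (by positivity) (by linarith)
  set m : ℕ := ⌊y⌋₊ with hm
  have hm1 : (m : ℝ) ≤ y := Nat.floor_le hy0
  have hm2 : y < m + 1 := Nat.lt_floor_add_one y
  have hcond : ∀ q : ℕ, (a ≤ s - l.1 * p - l.2 * q ∧ s - l.1 * p - l.2 * q < b) ↔
      (m : ℤ) = K * q + i := by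
    intro q
    have e1 : (a ≤ s - l.1 * p - l.2 * q) ↔ (i : ℝ) ≤ y - K * q := by
      rw [ha, div_le_iff₀ hK0, hyeq]
      have e : (K : ℝ) / l.2 * (s - l.1 * p) - K * q = (s - l.1 * p - l.2 * q) * K / l.2 := by
        field_simp
      rw [e, le_div_iff₀ h2]
    have e2 : (s - l.1 * p - l.2 * q < b) ↔ y - K * q < i + 1 := by
      rw [hb, lt_div_iff₀ hK0, hyeq]
      have e : (K : ℝ) / l.2 * (s - l.1 * p) - K * q = (s - l.1 * p - l.2 * q) * K / l.2 := by
        field_simp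
      rw [e, div_lt_iff₀ h2]
    rw [e1, e2]
    constructor
    · rintro ⟨h3, h4⟩
      have h5 : ((K * q + i : ℤ) : ℝ) < ((m + 1 : ℤ) : ℝ) := by push_cast; linarith
      have h6 : ((m : ℤ) : ℝ) < ((K * q + i + 1 : ℤ) : ℝ) := by push_cast; linarith
      have h5' := Int.cast_lt.1 h5
      have h6' := Int.cast_lt.1 h6
      omega
    · intro h3
      have h4 : (m : ℝ) = K * q + i := by exact_mod_cast h3
      constructor <;> linarith
  unfold wI cell
  simp only [hcond]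
  by_cases hd : (K : ℤ) ∣ ((m : ℤ) - i) ∧ i ≤ (m : ℤ)
  · rw [if_pos hd]
    obtain ⟨⟨c, hc⟩, him⟩ := hd
    have hKz : (0 : ℤ) < K := by exact_mod_cast hK
    have hc0 : 0 ≤ c := by
      by_contra h
      have : (K : ℤ) * c < 0 := mul_neg_of_pos_of_neg hKz (not_le.1 h)
      omega
    obtain ⟨q0, rfl⟩ := Int.eq_ofNat_of_zero_le hc0
    have hq : (((m : ℤ) - i) / K).toNat = q0 := by
      rw [hc, Int.mul_ediv_cancel_left _ (by omega)]
      simp
    rw [hq]
    have hm3 : (m : ℤ) = K * q0 + i := by omega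
    have hmem : q0 ∈ range (⌊(s + |a|) / l.2⌋₊ + 1) := by
      rw [mem_range, Nat.lt_succ_iff]
      apply Nat.le_floor
      rw [le_div_iff₀ h2]
      have h3 := ((hcond q0).2 hm3).1
      have h4 := neg_abs_le a
      have h5 : 0 ≤ l.1 * p := by positivity
      nlinarith
    rw [sum_eq_single_of_mem q0 hmem, if_pos hm3]
    · ring
    · intro q _ hne
      rw [if_neg]
      intro h
      apply hne
      have h3 : (K : ℤ) * q = K * q0 := by omega
      have h4 := mul_left_cancel₀ (by omega : (K : ℤ) ≠ 0) h3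
      exact_mod_cast h4
  · rw [if_neg hd]
    rw [sum_eq_zero]
    · simp
    · intro q _
      rw [if_neg]
      intro h
      apply hd
      refine ⟨⟨q, by omega⟩, ?_⟩
      have : (0 : ℤ) ≤ K * q := by positivity
      omega

/-- the sum `SS` in terms of the inner sums -/
theorem w_SS (g : ℕ → ℝ) (l : ℝ × ℝ) (h1 : 0 < l.1) (h2 : 0 < l.2) (K : ℕ) (hK : 1 ≤ K) (i : ℤ)
    (s : ℝ) (hs : 0 ≤ s) :
    SS g (fun m => cell g K i m - 1) s (K / l.2, K * l.1 / l.2) =
      K * ∑ p ∈ range (⌊s / l.1⌋₊ + 1), wI g l s (i * l.2 / K) ((i + 1) * l.2 / K) p -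
        ∑ p ∈ range (⌊s / l.1⌋₊ + 1), g p := by
  have hK0 : (0 : ℝ) < K := by exact_mod_cast hK
  unfold SS
  have e : s * (K / l.2) / (K * l.1 / l.2) = s / l.1 := by field_simp
  simp only [e]
  rw [mul_sum, ← sum_sub_distrib]
  refine sum_congr rfl fun p hp => ?_
  have hp' : l.1 * p ≤ s := by
    rw [mem_range, Nat.lt_succ_iff] at hp
    have h3 : (p : ℝ) ≤ s / l.1 := (Nat.le_floor_iff (by positivity)).1 hp
    rw [le_div_iff₀ h1] at h3
    linarith
  rw [w_inner g l h1 h2 K hK i s p hp']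
  unfold term
  have hy0 : 0 ≤ s * (K / l.2) - p * (K * l.1 / l.2) := by
    have : s * (K / l.2) - p * (K * l.1 / l.2) = K / l.2 * (s - l.1 * p) := by ring
    rw [this]
    exact mul_nonneg (by positivity) (by linarith)
  simp only [hy0, if_true]
  ring

/-- the inner sums outside the main range -/
theorem w_out (g : ℕ → ℝ) (l : ℝ × ℝ) (h2 : 0 < l.2) (s a b : ℝ) (p : ℕ) (hp : s < l.1 * p) :
    |wI g l s a b p| ≤ |g p| * ∑ q ∈ range (⌊|a| / l.2⌋₊ + 1), |g q| := by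
  unfold wI
  refine (abs_sum_le_sum_abs _ _).trans ?_
  rw [← sum_filter_add_sum_filter_not (range (⌊(s + |a|) / l.2⌋₊ + 1))
    (fun q : ℕ => a ≤ s - l.1 * p - l.2 * q ∧ s - l.1 * p - l.2 * q < b)]
  have e2 : ∑ q ∈ (range (⌊(s + |a|) / l.2⌋₊ + 1)).filter
      (fun q : ℕ => ¬ (a ≤ s - l.1 * p - l.2 * q ∧ s - l.1 * p - l.2 * q < b)),
      |if a ≤ s - l.1 * p - l.2 * q ∧ s - l.1 * p - l.2 * q < b then g p * g q else 0| = 0 := by
    refine sum_eq_zero fun q hq => ?_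
    rw [mem_filter] at hq
    rw [if_neg hq.2, abs_zero]
  rw [e2, add_zero, mul_sum]
  have e3 : ∑ q ∈ (range (⌊(s + |a|) / l.2⌋₊ + 1)).filter
      (fun q : ℕ => a ≤ s - l.1 * p - l.2 * q ∧ s - l.1 * p - l.2 * q < b),
      |if a ≤ s - l.1 * p - l.2 * q ∧ s - l.1 * p - l.2 * q < b then g p * g q else 0| =
      ∑ q ∈ (range (⌊(s + |a|) / l.2⌋₊ + 1)).filter
      (fun q : ℕ => a ≤ s - l.1 * p - l.2 * q ∧ s - l.1 * p - l.2 * q < b), |g p| * |g q| := by
    refine sum_congr rfl fun q hq => ?_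
    rw [mem_filter] at hq
    rw [if_pos hq.2, abs_mul]
  rw [e3]
  refine sum_le_sum_of_subset_of_nonneg ?_ fun q _ _ => by positivity
  intro q hq
  rw [mem_filter] at hq
  rw [mem_range, Nat.lt_succ_iff]
  apply Nat.le_floor
  rw [le_div_iff₀ h2]
  have h3 := hq.2.1
  have h4 := neg_abs_le a
  linarith

/-- TARGET -/
theorem weighted (g : ℕ → ℝ) (hb : LogBdd g) (hm : MeanZero (fun m => g m - 1)) (l : ℝ × ℝ) (h1 : 0 < l.1) (h2 : 0 < l.2)
    (σ : ℕ → ℝ) (hσ : Tendsto σ atTop atTop) (K : ℕ) (hK : 1 ≤ K) (i : ℤ)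
    (h : ∀ᶠ j : ℕ in atTop, |SS g (fun m => cell g K i m - 1) (σ j) (K / l.2, K * l.1 / l.2)| ≤ σ j / (Real.log (σ j)) ^ 1) :
    Tendsto (fun j => WW g l (σ j) (i * l.2 / K) ((i + 1) * l.2 / K) / σ j) atTop (𝓝 (1 / (l.1 * K))) := by
  have hK0 : (0 : ℝ) < K := by exact_mod_cast hK
  set a : ℝ := i * l.2 / K with ha
  set b : ℝ := (i + 1) * l.2 / K with hbdef
  obtain ⟨C, k, hC⟩ := hb
  obtain ⟨D, hD⟩ := hm 1
  set M : ℝ := ∑ q ∈ range (⌊|a| / l.2⌋₊ + 1), |g q| with hM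
  have hM0 : 0 ≤ M := sum_nonneg fun q _ => abs_nonneg _
  -- the error from the outer part
  have hout : ∀ s : ℝ, 0 < s →
      |WW g l s a b - ∑ p ∈ range (⌊s / l.1⌋₊ + 1), wI g l s a b p| ≤
        (|a| / l.1 + 1) * (|C| * (Real.log ((s + |a|) / l.1 + 2)) ^ k * M) := by
    intro s hs
    have hle : ⌊s / l.1⌋₊ + 1 ≤ ⌊(s + |a|) / l.1⌋₊ + 1 := by
      have : s / l.1 ≤ (s + |a|) / l.1 := by
        gcongr
        linarith [abs_nonneg a]
      exact Nat.succ_le_succ (Nat.floor_le_floor this)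
    have hsplit : WW g l s a b - ∑ p ∈ range (⌊s / l.1⌋₊ + 1), wI g l s a b p =
        ∑ p ∈ Ico (⌊s / l.1⌋₊ + 1) (⌊(s + |a|) / l.1⌋₊ + 1), wI g l s a b p := by
      have h3 := sum_range_add_sum_Ico (wI g l s a b) hle
      have h4 : WW g l s a b = ∑ p ∈ range (⌊(s + |a|) / l.1⌋₊ + 1), wI g l s a b p := rfl
      rw [h4, ← h3]
      ring
    rw [hsplit]
    refine (abs_sum_le_sum_abs _ _).trans ?_
    have hx0 : 0 ≤ (s + |a|) / l.1 := by positivity
    have hbd : ∀ p ∈ Ico (⌊s / l.1⌋₊ + 1) (⌊(s + |a|) / l.1⌋₊ + 1),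
        |wI g l s a b p| ≤ |C| * (Real.log ((s + |a|) / l.1 + 2)) ^ k * M := by
      intro p hp
      rw [mem_Ico] at hp
      have hp1 : s < l.1 * p := by
        have h3 : s / l.1 < p := by
          have := Nat.lt_of_floor_lt (show ⌊s / l.1⌋₊ < p by omega)
          exact this
        rw [div_lt_iff₀ h1] at h3
        linarith
      refine (w_out g l h2 s a b p hp1).trans ?_
      refine mul_le_mul_of_nonneg_right ?_ hM0
      have hp2 : (p : ℝ) ≤ (s + |a|) / l.1 :=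
        (Nat.le_floor_iff hx0).1 (by omega)
      have hlog0 : 0 ≤ Real.log ((p : ℝ) + 2) :=
        Real.log_nonneg (by have : (0 : ℝ) ≤ p := Nat.cast_nonneg p; linarith)
      have hlog : Real.log ((p : ℝ) + 2) ≤ Real.log ((s + |a|) / l.1 + 2) :=
        Real.log_le_log (by positivity) (by linarith)
      calc |g p| ≤ C * (Real.log (p + 2)) ^ k := hC p
        _ ≤ |C| * (Real.log (p + 2)) ^ k := by
          gcongr
          exact le_abs_self C
        _ ≤ |C| * (Real.log ((s + |a|) / l.1 + 2)) ^ k := by gcongr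
    refine (sum_le_sum hbd).trans ?_
    rw [sum_const, Nat.card_Ico, nsmul_eq_mul]
    have hlog1 : 0 ≤ Real.log ((s + |a|) / l.1 + 2) := Real.log_nonneg (by linarith)
    refine mul_le_mul_of_nonneg_right ?_ (by positivity)
    rw [Nat.cast_sub hle]
    push_cast
    have h3 : (⌊(s + |a|) / l.1⌋₊ : ℝ) ≤ (s + |a|) / l.1 := Nat.floor_le hx0
    have h4 := Nat.lt_floor_add_one (s / l.1)
    have h5 : (s + |a|) / l.1 = s / l.1 + |a| / l.1 := by ring
    linarith
  -- limits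
  have L1 : Tendsto (fun s : ℝ => ((⌊s / l.1⌋₊ + 1 : ℕ) : ℝ) / s) atTop (𝓝 (1 / l.1)) := by
    have h3 : Tendsto (fun s : ℝ => (⌊(1 / l.1) * s⌋₊ : ℝ) / s) atTop (𝓝 (1 / l.1)) :=
      tendsto_nat_floor_mul_div_atTop (by positivity)
    have h4 : Tendsto (fun s : ℝ => 1 / s) atTop (𝓝 0) := by
      simpa using tendsto_inv_atTop_zero (𝕜 := ℝ)
    have h5 := h3.add h4
    rw [add_zero] at h5
    refine h5.congr fun s => ?_
    push_cast
    rw [show 1 / l.1 * s = s / l.1 by ring]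
    ring
  have LN : Tendsto (fun s : ℝ => ⌊s / l.1⌋₊ + 1) atTop atTop := by
    exact (tendsto_add_atTop_nat 1).comp
      ((tendsto_nat_floor_atTop (α := ℝ)).comp (tendsto_id.atTop_div_const h1))
  have L2 : Tendsto (fun s : ℝ => (∑ p ∈ range (⌊s / l.1⌋₊ + 1), g p) / s) atTop
      (𝓝 (1 / l.1)) := by
    have hLlog : Tendsto (fun s : ℝ => (Real.log ((⌊s / l.1⌋₊ + 1 : ℕ) : ℝ))⁻¹) atTop (𝓝 0) :=
      (Real.tendsto_log_atTop.comp (tendsto_natCast_atTop_atTop.comp LN)).inv_tendsto_atTop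
    have h3 : Tendsto (fun s : ℝ => |D| * (((⌊s / l.1⌋₊ + 1 : ℕ) : ℝ) / s) *
        (Real.log ((⌊s / l.1⌋₊ + 1 : ℕ) : ℝ))⁻¹) atTop (𝓝 0) := by
      have := (L1.const_mul |D|).mul hLlog
      simpa using this
    have h4 : Tendsto (fun s : ℝ => (∑ p ∈ range (⌊s / l.1⌋₊ + 1), (g p - 1)) / s) atTop
        (𝓝 0) := by
      refine squeeze_zero_norm' ?_ h3
      filter_upwards [eventually_gt_atTop 0, LN.eventually_ge_atTop 2] with s hs hN
      rw [Real.norm_eq_abs, abs_div, abs_of_pos hs]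
      have h5 := hD _ hN
      rw [pow_one] at h5
      have hlog : 0 < Real.log ((⌊s / l.1⌋₊ + 1 : ℕ) : ℝ) :=
        Real.log_pos (by exact_mod_cast (show 1 < ⌊s / l.1⌋₊ + 1 by omega))
      calc |∑ p ∈ range (⌊s / l.1⌋₊ + 1), (g p - 1)| / s
          ≤ (D * ((⌊s / l.1⌋₊ + 1 : ℕ) : ℝ) / Real.log ((⌊s / l.1⌋₊ + 1 : ℕ) : ℝ)) / s := by
            gcongr
        _ ≤ (|D| * ((⌊s / l.1⌋₊ + 1 : ℕ) : ℝ) / Real.log ((⌊s / l.1⌋₊ + 1 : ℕ) : ℝ)) / s := by
            gcongr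
            exact le_abs_self D
        _ = _ := by ring
    have h5 := h4.add L1
    rw [zero_add] at h5
    refine h5.congr fun s => ?_
    rw [sum_sub_distrib, sum_const, card_range, nsmul_eq_mul, mul_one]
    ring
  have L3 : Tendsto (fun s : ℝ => (|a| / l.1 + 1) *
      (|C| * (Real.log ((s + |a|) / l.1 + 2)) ^ k * M) / s) atTop (𝓝 0) := by
    have hx : Tendsto (fun s : ℝ => (s + |a|) / l.1 + 2) atTop atTop := by
      refine tendsto_atTop_add_const_right _ _ ?_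
      exact (tendsto_atTop_add_const_right _ _ tendsto_id).atTop_div_const h1
    have h3 : Tendsto (fun s : ℝ => (Real.log ((s + |a|) / l.1 + 2)) ^ k /
        ((s + |a|) / l.1 + 2)) atTop (𝓝 0) := by
      have h4 : Tendsto (fun x : ℝ => (Real.log x) ^ k / x) atTop (𝓝 0) := by
        have := (Real.isLittleO_pow_log_id_atTop (n := k)).tendsto_div_nhds_zero
        simpa using this
      exact h4.comp hx
    have h4 : Tendsto (fun s : ℝ => ((s + |a|) / l.1 + 2) / s) atTop (𝓝 (1 / l.1)) := by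
      have h5 : Tendsto (fun s : ℝ => 1 / l.1 + (|a| / l.1 + 2) * s⁻¹) atTop
          (𝓝 (1 / l.1 + (|a| / l.1 + 2) * 0)) :=
        tendsto_const_nhds.add (tendsto_inv_atTop_zero.const_mul _)
      rw [mul_zero, add_zero] at h5
      refine h5.congr' ?_
      filter_upwards [eventually_gt_atTop 0] with s hs
      field_simp
      ring
    have h5 := ((h3.mul h4).const_mul ((|a| / l.1 + 1) * |C| * M))
    rw [zero_mul, mul_zero] at h5
    refine h5.congr' ?_
    filter_upwards [eventually_gt_atTop 0] with s hs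
    have hx0 : (s + |a|) / l.1 + 2 ≠ 0 := by positivity
    field_simp
  -- main
  have M1 : Tendsto (fun j => SS g (fun m => cell g K i m - 1) (σ j) (K / l.2, K * l.1 / l.2) /
      σ j) atTop (𝓝 0) := by
    have h3 : Tendsto (fun j => (Real.log (σ j))⁻¹) atTop (𝓝 0) :=
      (Real.tendsto_log_atTop.comp hσ).inv_tendsto_atTop
    refine squeeze_zero_norm' ?_ h3
    filter_upwards [h, hσ.eventually_gt_atTop 1] with j hj hj1
    rw [Real.norm_eq_abs, abs_div, abs_of_pos (by linarith : 0 < σ j),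
      div_le_iff₀ (by linarith : 0 < σ j)]
    rw [pow_one] at hj
    refine hj.trans (le_of_eq ?_)
    ring
  have M2 := L2.comp hσ
  have M3 : Tendsto (fun j => (WW g l (σ j) a b -
      ∑ p ∈ range (⌊σ j / l.1⌋₊ + 1), wI g l (σ j) a b p) / σ j) atTop (𝓝 0) := by
    refine squeeze_zero_norm' ?_ (L3.comp hσ)
    filter_upwards [hσ.eventually_gt_atTop 0] with j hj
    rw [Real.norm_eq_abs, abs_div, abs_of_pos hj]
    have := hout (σ j) hj
    simp only [Function.comp]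
    gcongr
  have M4 : Tendsto (fun j => (1 / (K : ℝ)) *
      (SS g (fun m => cell g K i m - 1) (σ j) (K / l.2, K * l.1 / l.2) / σ j +
        (∑ p ∈ range (⌊σ j / l.1⌋₊ + 1), g p) / σ j) + (WW g l (σ j) a b -
      ∑ p ∈ range (⌊σ j / l.1⌋₊ + 1), wI g l (σ j) a b p) / σ j) atTop
      (𝓝 ((1 / (K : ℝ)) * (0 + 1 / l.1) + 0)) :=
    ((M1.add M2).const_mul _).add M3
  have hlim : (1 / (K : ℝ)) * (0 + 1 / l.1) + 0 = 1 / (l.1 * K) := by
    field_simp
    ring
  rw [hlim] at M4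
  refine M4.congr' ?_
  filter_upwards [hσ.eventually_gt_atTop 0] with j hj
  rw [w_SS g l h1 h2 K hK i (σ j) hj.le, ← ha, ← hbdef]
  field_simp
  ring

end TG8

end Pool.Agent.helper616_TG
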