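import Pool.Agent.helper616_TG.Defs

/-!
# Project TG (helper616): numbers of pairs
-/

set_option autoImplicit false
set_option maxHeartbeats 4000000

open Finset MeasureTheory Filter Topology
open Pool.Agent.helper616_TS (LogBdd MeanZero)
open Pool.Agent.helper616_RP (B)

namespace Pool.Agent.helper616_TG

namespace TG9


open Classical in
/-- the pairs as a finset -/
noncomputable def PP (l : ℝ × ℝ) (s a b : ℝ) : Finset (ℕ × ℕ) :=
  ((range (⌊(s + |a|) / l.1⌋₊ + 1)) ×ˢ (range (⌊(s + |a|) / l.2⌋₊ + 1))).filter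
    (fun x => x.1.Prime ∧ x.2.Prime ∧ a ≤ s - l.1 * x.1 - l.2 * x.2 ∧ s - l.1 * x.1 - l.2 * x.2 < b)

theorem card_q (α D : ℝ) (Q : Finset ℕ) (hQ : ∀ q ∈ Q, α < q ∧ (q:ℝ) ≤ α + D) :
    Q.card ≤ ⌈D⌉₊ + 1 := by
  have h1 : Q.card ≤ (Finset.Ioc ⌊α⌋ ⌊α + D⌋).card := by
    apply Finset.card_le_card_of_injOn (fun q : ℕ => (q : ℤ))
    · intro q hq
      have := hQ q hq
      simp only [Finset.coe_Ioc, Set.mem_Ioc]
      constructor
      · exact Int.floor_lt.2 (by exact_mod_cast this.1)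
      · exact Int.le_floor.2 (by exact_mod_cast this.2)
    · intro x _ y _ h
      exact Int.ofNat_inj.1 h
  rw [Int.card_Ioc] at h1
  have h2 : ⌊α + D⌋ - ⌊α⌋ < ((⌈D⌉₊ + 1 : ℕ) : ℤ) + 1 := by
    have a1 := Int.floor_le (α + D)
    have a2 := Int.lt_floor_add_one α
    have a3 := Nat.le_ceil D
    have : ((⌊α + D⌋ - ⌊α⌋ : ℤ) : ℝ) < (((⌈D⌉₊ + 1 : ℕ) : ℤ) + 1 : ℤ) := by
      push_cast
      linarith
    exact_mod_cast this
  omega

theorem mem_PP (l : ℝ × ℝ) (h1 : 0 < l.1) (h2 : 0 < l.2) (s a b : ℝ) (x : ℕ × ℕ) :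
    x ∈ PP l s a b ↔ x.1.Prime ∧ x.2.Prime ∧ a ≤ s - l.1 * x.1 - l.2 * x.2 ∧ s - l.1 * x.1 - l.2 * x.2 < b := by
  unfold PP
  simp only [Finset.mem_filter, Finset.mem_product, Finset.mem_range]
  constructor
  · rintro ⟨_, h⟩; exact h
  · intro h
    refine ⟨⟨?_, ?_⟩, h⟩
    · apply Nat.lt_succ_of_le
      apply Nat.le_floor
      rw [le_div_iff₀ h1]
      have : 0 ≤ l.2 * (x.2 : ℝ) := by positivity
      have h3 := h.2.2.1
      have := neg_abs_le a
      nlinarith
    · apply Nat.lt_succ_of_le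
      apply Nat.le_floor
      rw [le_div_iff₀ h2]
      have : 0 ≤ l.1 * (x.1 : ℝ) := by positivity
      have h3 := h.2.2.1
      have := neg_abs_le a
      nlinarith

theorem cnt_eq (l : ℝ × ℝ) (h1 : 0 < l.1) (h2 : 0 < l.2) (s a b : ℝ) :
    cnt l s a b = (PP l s a b).card := by
  unfold cnt
  rw [← Set.ncard_coe_finset]
  congr 1
  ext x
  simp only [Set.mem_ofPred_eq, Finset.mem_coe, mem_PP l h1 h2]

theorem WW_eq (g : ℕ → ℝ) (hg : ∀ n : ℕ, g n = if n.Prime then Real.log n else 0) (l : ℝ × ℝ)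
    (s a b : ℝ) :
    WW g l s a b = ∑ x ∈ PP l s a b, Real.log x.1 * Real.log x.2 := by
  classical
  unfold WW PP
  rw [Finset.sum_filter, Finset.sum_product]
  apply Finset.sum_congr rfl
  intro p _
  apply Finset.sum_congr rfl
  intro q _
  simp only [hg]
  by_cases hp : p.Prime <;> by_cases hq : q.Prime <;>
    by_cases hc : a ≤ s - l.1 * p - l.2 * q ∧ s - l.1 * p - l.2 * q < b <;>
    simp [hp, hq, hc]

/-- fibres -/
theorem bad1 (l : ℝ × ℝ) (h1 : 0 < l.1) (h2 : 0 < l.2) (s a b T : ℝ) (hT : 0 ≤ T) :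
    (((PP l s a b).filter (fun x => (x.1 : ℝ) < T)).card : ℝ) ≤ (⌈(b - a) / l.2⌉₊ + 1) * (T + 1) := by
  classical
  set S := (PP l s a b).filter (fun x => (x.1 : ℝ) < T) with hS
  have h := Finset.card_le_mul_card_image (s := S) (f := Prod.fst) (⌈(b - a) / l.2⌉₊ + 1) (by
    intro p _
    have hinj : ({x ∈ S | x.1 = p}.card) = ({x ∈ S | x.1 = p}.image Prod.snd).card := by
      rw [Finset.card_image_of_injOn]
      intro x hx y hy hxy
      simp only [Finset.coe_filter, Set.mem_ofPred_eq] at hx hy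
      exact Prod.ext (hx.2.trans hy.2.symm) hxy
    rw [hinj]
    apply card_q ((s - l.1 * p - b) / l.2) ((b - a) / l.2)
    intro q hq
    simp only [Finset.mem_image, Finset.mem_filter, hS, mem_PP l h1 h2] at hq
    obtain ⟨x, ⟨⟨⟨_, _, hx1, hx2⟩, _⟩, rfl⟩, rfl⟩ := hq
    constructor
    · rw [div_lt_iff₀ h2]; linarith
    · rw [← add_div, le_div_iff₀ h2]; linarith)
  have h3 : (S.image Prod.fst).card ≤ ⌈T⌉₊ := by
    calc (S.image Prod.fst).card ≤ (range ⌈T⌉₊).card := by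
          apply Finset.card_le_card
          intro p hp
          simp only [Finset.mem_image, Finset.mem_filter, hS] at hp
          obtain ⟨x, ⟨_, hx⟩, rfl⟩ := hp
          rw [Finset.mem_range]
          exact Nat.lt_ceil.2 hx
      _ = ⌈T⌉₊ := by simp
  have h4 : (⌈T⌉₊ : ℝ) ≤ T + 1 := (Nat.ceil_lt_add_one hT).le
  calc (S.card : ℝ) ≤ (((⌈(b - a) / l.2⌉₊ + 1) * (S.image Prod.fst).card : ℕ) : ℝ) := by exact_mod_cast h
    _ = (⌈(b - a) / l.2⌉₊ + 1) * ((S.image Prod.fst).card : ℝ) := by push_cast; ring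
    _ ≤ (⌈(b - a) / l.2⌉₊ + 1) * (T + 1) := by
        apply mul_le_mul_of_nonneg_left _ (by positivity)
        refine le_trans ?_ h4
        exact_mod_cast h3

theorem bad2 (l : ℝ × ℝ) (h1 : 0 < l.1) (h2 : 0 < l.2) (s a b T : ℝ) (hT : 0 ≤ T) :
    (((PP l s a b).filter (fun x => (x.2 : ℝ) < T)).card : ℝ) ≤ (⌈(b - a) / l.1⌉₊ + 1) * (T + 1) := by
  classical
  set S := (PP l s a b).filter (fun x => (x.2 : ℝ) < T) with hS
  have h := Finset.card_le_mul_card_image (s := S) (f := Prod.snd) (⌈(b - a) / l.1⌉₊ + 1) (by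
    intro p _
    have hinj : ({x ∈ S | x.2 = p}.card) = ({x ∈ S | x.2 = p}.image Prod.fst).card := by
      rw [Finset.card_image_of_injOn]
      intro x hx y hy hxy
      simp only [Finset.coe_filter, Set.mem_ofPred_eq] at hx hy
      exact Prod.ext hxy (hx.2.trans hy.2.symm)
    rw [hinj]
    apply card_q ((s - l.2 * p - b) / l.1) ((b - a) / l.1)
    intro q hq
    simp only [Finset.mem_image, Finset.mem_filter, hS, mem_PP l h1 h2] at hq
    obtain ⟨x, ⟨⟨⟨_, _, hx1, hx2⟩, _⟩, rfl⟩, rfl⟩ := hq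
    constructor
    · rw [div_lt_iff₀ h1]; linarith
    · rw [← add_div, le_div_iff₀ h1]; linarith)
  have h3 : (S.image Prod.snd).card ≤ ⌈T⌉₊ := by
    calc (S.image Prod.snd).card ≤ (range ⌈T⌉₊).card := by
          apply Finset.card_le_card
          intro p hp
          simp only [Finset.mem_image, Finset.mem_filter, hS] at hp
          obtain ⟨x, ⟨_, hx⟩, rfl⟩ := hp
          rw [Finset.mem_range]
          exact Nat.lt_ceil.2 hx
      _ = ⌈T⌉₊ := by simp
  have h4 : (⌈T⌉₊ : ℝ) ≤ T + 1 := (Nat.ceil_lt_add_one hT).le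
  calc (S.card : ℝ) ≤ (((⌈(b - a) / l.1⌉₊ + 1) * (S.image Prod.snd).card : ℕ) : ℝ) := by exact_mod_cast h
    _ = (⌈(b - a) / l.1⌉₊ + 1) * ((S.image Prod.snd).card : ℝ) := by push_cast; ring
    _ ≤ (⌈(b - a) / l.1⌉₊ + 1) * (T + 1) := by
        apply mul_le_mul_of_nonneg_left _ (by positivity)
        refine le_trans ?_ h4
        exact_mod_cast h3

/-- upper bound of the weighted sum -/
theorem WW_le (l : ℝ × ℝ) (h1 : 0 < l.1) (h2 : 0 < l.2) (s a b : ℝ) :
    ∑ x ∈ PP l s a b, Real.log x.1 * Real.log x.2 ≤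
      (PP l s a b).card * (Real.log ((s + |a|) / l.1) * Real.log ((s + |a|) / l.2)) := by
  rw [← nsmul_eq_mul]
  apply Finset.sum_le_card_nsmul
  intro x hx
  rw [mem_PP l h1 h2] at hx
  obtain ⟨hp, hq, hx1, hx2⟩ := hx
  have hp1 : (1 : ℝ) ≤ x.1 := by exact_mod_cast hp.one_lt.le
  have hq1 : (1 : ℝ) ≤ x.2 := by exact_mod_cast hq.one_lt.le
  have e1 : (x.1 : ℝ) ≤ (s + |a|) / l.1 := by
    rw [le_div_iff₀ h1]
    have : 0 ≤ l.2 * (x.2 : ℝ) := by positivity
    have := neg_abs_le a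
    nlinarith
  have e2 : (x.2 : ℝ) ≤ (s + |a|) / l.2 := by
    rw [le_div_iff₀ h2]
    have : 0 ≤ l.1 * (x.1 : ℝ) := by positivity
    have := neg_abs_le a
    nlinarith
  apply mul_le_mul
  · exact Real.log_le_log (by linarith) e1
  · exact Real.log_le_log (by linarith) e2
  · exact Real.log_nonneg hq1
  · exact Real.log_nonneg (le_trans hp1 e1)

/-- lower bound of the weighted sum -/
theorem le_WW (l : ℝ × ℝ) (h1 : 0 < l.1) (h2 : 0 < l.2) (s a b T : ℝ) (hT : 1 ≤ T) :
    ((PP l s a b).card - ((⌈(b - a) / l.2⌉₊ + 1) + (⌈(b - a) / l.1⌉₊ + 1)) * (T + 1)) * (Real.log T) ^ 2 ≤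
    ∑ x ∈ PP l s a b, Real.log x.1 * Real.log x.2 := by
  classical
  set G := (PP l s a b).filter (fun x => T ≤ (x.1 : ℝ) ∧ T ≤ (x.2 : ℝ)) with hG
  have hsub : PP l s a b ⊆ G ∪ ((PP l s a b).filter (fun x => (x.1 : ℝ) < T) ∪
      (PP l s a b).filter (fun x => (x.2 : ℝ) < T)) := by
    intro x hx
    simp only [hG, Finset.mem_union, Finset.mem_filter, hx, true_and]
    by_cases a1 : (x.1 : ℝ) < T
    · right; left; exact a1
    · by_cases a2 : (x.2 : ℝ) < T
      · right; right; exact a2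
      · left; exact ⟨not_lt.1 a1, not_lt.1 a2⟩
  have hc : ((PP l s a b).card : ℝ) ≤ G.card + ((((PP l s a b).filter (fun x => (x.1 : ℝ) < T)).card : ℝ) +
      ((PP l s a b).filter (fun x => (x.2 : ℝ) < T)).card) := by
    have := (Finset.card_le_card hsub).trans ((Finset.card_union_le _ _).trans
      (Nat.add_le_add_left (Finset.card_union_le _ _) _))
    exact_mod_cast this
  have b1 := bad1 l h1 h2 s a b T (by linarith)
  have b2 := bad2 l h1 h2 s a b T (by linarith)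
  have hGc : ((PP l s a b).card - ((⌈(b - a) / l.2⌉₊ + 1) + (⌈(b - a) / l.1⌉₊ + 1)) * (T + 1) : ℝ) ≤ G.card := by
    nlinarith
  have hlT : 0 ≤ Real.log T := Real.log_nonneg hT
  calc ((PP l s a b).card - ((⌈(b - a) / l.2⌉₊ + 1) + (⌈(b - a) / l.1⌉₊ + 1)) * (T + 1)) * (Real.log T) ^ 2
      ≤ G.card * (Real.log T) ^ 2 := mul_le_mul_of_nonneg_right hGc (by positivity)
    _ ≤ ∑ x ∈ G, Real.log x.1 * Real.log x.2 := by
        rw [← nsmul_eq_mul]
        apply Finset.card_nsmul_le_sum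
        intro x hx
        simp only [hG, Finset.mem_filter] at hx
        rw [pow_two]
        apply mul_le_mul
        · exact Real.log_le_log (by linarith) hx.2.1
        · exact Real.log_le_log (by linarith) hx.2.2
        · exact hlT
        · exact Real.log_nonneg (le_trans hT hx.2.1)
    _ ≤ ∑ x ∈ PP l s a b, Real.log x.1 * Real.log x.2 := by
        apply Finset.sum_le_sum_of_subset_of_nonneg (Finset.filter_subset _ _)
        intro x hx _
        rw [mem_PP l h1 h2] at hx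
        have hp1 : (1 : ℝ) ≤ x.1 := by exact_mod_cast hx.1.one_lt.le
        have hq1 : (1 : ℝ) ≤ x.2 := by exact_mod_cast hx.2.1.one_lt.le
        exact mul_nonneg (Real.log_nonneg hp1) (Real.log_nonneg hq1)

/-- asymptotics 1 -/
theorem lim1 (c k : ℝ) (hk : 0 < k) :
    Tendsto (fun s : ℝ => Real.log ((s + c) / k) / Real.log s) atTop (𝓝 1) := by
  have hlog : Tendsto (fun s : ℝ => Real.log s) atTop atTop := Real.tendsto_log_atTop
  have e1 : Tendsto (fun s : ℝ => (1 + c / s) / k) atTop (𝓝 ((1 + 0) / k)) := by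
    apply Tendsto.div_const
    apply Tendsto.add tendsto_const_nhds
    exact tendsto_const_nhds.div_atTop tendsto_id
  have e2 : Tendsto (fun s : ℝ => Real.log ((1 + c / s) / k)) atTop (𝓝 (Real.log ((1 + 0) / k))) :=
    e1.log (by positivity)
  have e3 : Tendsto (fun s : ℝ => 1 + Real.log ((1 + c / s) / k) / Real.log s) atTop (𝓝 (1 + 0)) := by
    apply Tendsto.add tendsto_const_nhds
    exact e2.div_atTop hlog
  rw [add_zero] at e3
  apply e3.congr'
  have f1 : ∀ᶠ s : ℝ in atTop, 0 < (1 + c / s) / k := by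
    have : (0 : ℝ) < (1 + 0) / k := by positivity
    exact e1.eventually (lt_mem_nhds this)
  filter_upwards [f1, eventually_gt_atTop (1 : ℝ)] with s hs hs1
  have hs0 : s ≠ 0 := by linarith
  have hl : 0 < Real.log s := Real.log_pos hs1
  have : (s + c) / k = s * ((1 + c / s) / k) := by
    field_simp
  rw [this, Real.log_mul hs0 hs.ne']
  generalize Real.log ((1 + c / s) / k) = y
  rw [add_div, div_self hl.ne']

/-- asymptotics 2 -/
theorem lim2 : Tendsto (fun s : ℝ => Real.log (s / (Real.log s) ^ 3) / Real.log s) atTop (𝓝 1) := by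
  have hlog : Tendsto (fun s : ℝ => Real.log s) atTop atTop := Real.tendsto_log_atTop
  have e0 : Tendsto (fun x : ℝ => Real.log x / x) atTop (𝓝 0) := by
    have := Real.isLittleO_log_id_atTop
    exact this.tendsto_div_nhds_zero
  have e1 : Tendsto (fun s : ℝ => 1 - 3 * (Real.log (Real.log s) / Real.log s)) atTop (𝓝 (1 - 3 * 0)) := by
    apply Tendsto.sub tendsto_const_nhds
    apply Tendsto.mul tendsto_const_nhds
    exact e0.comp hlog
  rw [mul_zero, sub_zero] at e1
  apply e1.congr'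
  filter_upwards [eventually_gt_atTop (1 : ℝ)] with s hs1
  have hs0 : s ≠ 0 := by linarith
  have hl : 0 < Real.log s := Real.log_pos hs1
  rw [Real.log_div hs0 (by positivity), Real.log_pow, sub_div, div_self hl.ne']
  push_cast
  ring

/-- asymptotics 3 -/
theorem lim3 (C : ℝ) : Tendsto (fun s : ℝ => C * (s / (Real.log s) ^ 3 + 1) * (Real.log s) ^ 2 / s) atTop (𝓝 0) := by
  have hlog : Tendsto (fun s : ℝ => Real.log s) atTop atTop := Real.tendsto_log_atTop
  have e0 : Tendsto (fun x : ℝ => (Real.log x) ^ 2 / x) atTop (𝓝 0) := by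
    have := Real.isLittleO_pow_log_id_atTop (n := 2)
    exact this.tendsto_div_nhds_zero
  have e1 : Tendsto (fun s : ℝ => 1 / Real.log s) atTop (𝓝 0) := tendsto_const_nhds.div_atTop hlog
  have e2 : Tendsto (fun s : ℝ => C * (1 / Real.log s + (Real.log s) ^ 2 / s)) atTop (𝓝 (C * (0 + 0))) :=
    (e1.add e0).const_mul C
  rw [add_zero, mul_zero] at e2
  apply e2.congr'
  filter_upwards [eventually_gt_atTop (1 : ℝ)] with s hs1
  have hs0 : s ≠ 0 := by linarith
  have hl : 0 < Real.log s := Real.log_pos hs1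
  field_simp

theorem ev1 : ∀ᶠ s : ℝ in atTop, 1 < s / (Real.log s) ^ 3 := by
  have h0 : Tendsto (fun x : ℝ => (Real.log x) ^ 3 / x) atTop (𝓝 0) := by
    have := Real.isLittleO_pow_log_id_atTop (n := 3)
    exact this.tendsto_div_nhds_zero
  have h1 : ∀ᶠ x : ℝ in atTop, (Real.log x) ^ 3 / x < 1 := h0.eventually (gt_mem_nhds one_pos)
  filter_upwards [h1, eventually_gt_atTop (1 : ℝ)] with s hs hs1
  have hs0 : 0 < s := by linarith
  have hl : 0 < Real.log s := Real.log_pos hs1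
  rw [lt_div_iff₀ (by positivity), one_mul]
  rwa [div_lt_one hs0] at hs

/-- counting -/
theorem count (g : ℕ → ℝ) (hg : ∀ n : ℕ, g n = if n.Prime then Real.log n else 0) (l : ℝ × ℝ) (h1 : 0 < l.1) (h2 : 0 < l.2)
    (σ : ℕ → ℝ) (hσ : Tendsto σ atTop atTop) (a b ρ : ℝ) (hab : a < b)
    (h : Tendsto (fun j => WW g l (σ j) a b / σ j) atTop (𝓝 ρ)) :
    Tendsto (fun j => (cnt l (σ j) a b : ℝ) / (σ j / (Real.log (σ j)) ^ 2)) atTop (𝓝 ρ) := by
  set C : ℝ := ((⌈(b - a) / l.2⌉₊ + 1) + (⌈(b - a) / l.1⌉₊ + 1)) with hC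
  -- limits of the two bounds
  have A1 := (lim1 |a| l.1 h1).comp hσ
  have A2 := (lim1 |a| l.2 h2).comp hσ
  have A3 := lim2.comp hσ
  have A4 := (lim3 C).comp hσ
  have lo : Tendsto (fun j => (WW g l (σ j) a b / σ j) /
      ((Real.log ((σ j + |a|) / l.1) / Real.log (σ j)) * (Real.log ((σ j + |a|) / l.2) / Real.log (σ j))))
      atTop (𝓝 (ρ / (1 * 1))) := h.div (A1.mul A2) (by norm_num)
  have hi : Tendsto (fun j => (WW g l (σ j) a b / σ j) /
      ((Real.log (σ j / (Real.log (σ j)) ^ 3) / Real.log (σ j)) ^ 2) +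
      C * (σ j / (Real.log (σ j)) ^ 3 + 1) * (Real.log (σ j)) ^ 2 / σ j)
      atTop (𝓝 (ρ / 1 ^ 2 + 0)) := (h.div (A3.pow 2) (by norm_num)).add A4
  rw [one_mul, div_one] at lo
  rw [one_pow, div_one, add_zero] at hi
  refine tendsto_of_tendsto_of_tendsto_of_le_of_le' lo hi ?_ ?_
  · -- lower bound
    have p1 : ∀ᶠ j in atTop, 1 < σ j := hσ.eventually (eventually_gt_atTop 1)
    have p2 : ∀ᶠ j in atTop, l.1 < σ j := hσ.eventually (eventually_gt_atTop _)
    have p3 : ∀ᶠ j in atTop, l.2 < σ j := hσ.eventually (eventually_gt_atTop _)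
    filter_upwards [p1, p2, p3] with j q1 q2 q3
    have hs0 : 0 < σ j := by linarith
    have hl : 0 < Real.log (σ j) := Real.log_pos q1
    have m1 : 0 < Real.log ((σ j + |a|) / l.1) := by
      apply Real.log_pos
      rw [lt_div_iff₀ h1]
      have := abs_nonneg a
      linarith
    have m2 : 0 < Real.log ((σ j + |a|) / l.2) := by
      apply Real.log_pos
      rw [lt_div_iff₀ h2]
      have := abs_nonneg a
      linarith
    have hW := WW_le l h1 h2 (σ j) a b
    rw [← WW_eq g hg, ← cnt_eq l h1 h2] at hW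
    rw [div_le_iff₀ (by positivity)]
    rw [div_le_iff₀ hs0]
    calc WW g l (σ j) a b ≤ _ := hW
      _ = _ := by field_simp
  · -- upper bound
    have p1 : ∀ᶠ j in atTop, 1 < σ j := hσ.eventually (eventually_gt_atTop 1)
    have p2 : ∀ᶠ j in atTop, 1 < σ j / (Real.log (σ j)) ^ 3 := hσ.eventually ev1
    filter_upwards [p1, p2] with j q1 q2
    have hs0 : 0 < σ j := by linarith
    have hl : 0 < Real.log (σ j) := Real.log_pos q1
    have hlT : 0 < Real.log (σ j / (Real.log (σ j)) ^ 3) := Real.log_pos q2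
    have hW := le_WW l h1 h2 (σ j) a b _ q2.le
    rw [← WW_eq g hg, ← cnt_eq l h1 h2, ← hC] at hW
    have hW2 : (cnt l (σ j) a b : ℝ) ≤ WW g l (σ j) a b / (Real.log (σ j / (Real.log (σ j)) ^ 3)) ^ 2 +
        C * (σ j / (Real.log (σ j)) ^ 3 + 1) := by
      have := (le_div_iff₀ (by positivity : (0:ℝ) < (Real.log (σ j / (Real.log (σ j)) ^ 3)) ^ 2)).2 hW
      linarith
    rw [div_div_eq_mul_div, div_le_iff₀ hs0]
    calc (cnt l (σ j) a b : ℝ) * (Real.log (σ j)) ^ 2
        ≤ (WW g l (σ j) a b / (Real.log (σ j / (Real.log (σ j)) ^ 3)) ^ 2 +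
        C * (σ j / (Real.log (σ j)) ^ 3 + 1)) * (Real.log (σ j)) ^ 2 :=
          mul_le_mul_of_nonneg_right hW2 (by positivity)
      _ = _ := by field_simp

end TG9

end Pool.Agent.helper616_TG
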