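import Pool.Agent.helper616_TG.Defs
import Pool.Agent.helper616_TG.TG5
import Pool.Agent.helper616_TG.TG6
import Pool.Agent.helper616_TG.TG7
import Pool.Agent.helper616_TG.TG8
import Pool.Agent.helper616_TG.TG9
import Pool.Agent.helper616_TG.TG10

/-!
# Project TG (helper616): the number of pairs of primes
-/

set_option autoImplicit false
set_option maxHeartbeats 4000000

open Finset MeasureTheory Filter Topology
open Pool.Agent.helper616_TS (LogBdd MeanZero)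
open Pool.Agent.helper616_RP (B)

namespace Pool.Agent.helper616_TG

open TG5 (ae_quadrant)
open TG6 (change)
open TG7 (cell_props)
open TG8 (weighted)
open TG9 (count)
open TG10 (squeeze)

namespace TG11


/-- the sets of pairs are finite -/
theorem fin_pairs (l : ℝ × ℝ) (h1 : 0 < l.1) (h2 : 0 < l.2) (c : ℝ) :
    Set.Finite {x : ℕ × ℕ | l.1 * x.1 + l.2 * x.2 ≤ c} := by
  refine Set.Finite.subset ((Set.finite_Iic (⌊c / l.1⌋₊)).prod (Set.finite_Iic (⌊c / l.2⌋₊))) ?_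
  rintro ⟨p, q⟩ hx
  simp only [Set.mem_ofPred_eq] at hx
  have hp : 0 ≤ l.1 * (p : ℝ) := by positivity
  have hq : 0 ≤ l.2 * (q : ℝ) := by positivity
  refine ⟨?_, ?_⟩
  · refine Nat.le_floor ?_
    rw [le_div_iff₀ h1]
    linarith
  · refine Nat.le_floor ?_
    rw [le_div_iff₀ h2]
    linarith

theorem fin_cnt (l : ℝ × ℝ) (h1 : 0 < l.1) (h2 : 0 < l.2) (s a b : ℝ) :
    Set.Finite {x : ℕ × ℕ | x.1.Prime ∧ x.2.Prime ∧ a ≤ s - l.1 * x.1 - l.2 * x.2 ∧
      s - l.1 * x.1 - l.2 * x.2 < b} :=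
  (fin_pairs l h1 h2 (s - a)).subset fun x hx => by
    have := hx.2.2.1
    simp only [Set.mem_ofPred_eq]
    linarith

theorem cnt_add (l : ℝ × ℝ) (h1 : 0 < l.1) (h2 : 0 < l.2) (s a b c : ℝ) (hab : a ≤ b) (hbc : b ≤ c) :
    cnt l s a c = cnt l s a b + cnt l s b c := by
  unfold cnt
  rw [← Set.ncard_union_eq _ (fin_cnt l h1 h2 s a b) (fin_cnt l h1 h2 s b c)]
  · congr 1
    ext x
    simp only [Set.mem_ofPred_eq, Set.mem_union]
    constructor
    · rintro ⟨p1, p2, p3, p4⟩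
      rcases lt_or_ge (s - l.1 * x.1 - l.2 * x.2) b with h | h
      · exact Or.inl ⟨p1, p2, p3, h⟩
      · exact Or.inr ⟨p1, p2, h, p4⟩
    · rintro (⟨p1, p2, p3, p4⟩ | ⟨p1, p2, p3, p4⟩)
      · exact ⟨p1, p2, p3, by linarith⟩
      · exact ⟨p1, p2, by linarith, p4⟩
  · rw [Set.disjoint_left]
    rintro x ⟨-, -, -, h⟩ ⟨-, -, h', -⟩
    exact absurd h (not_lt.2 h')

theorem sigma_tendsto (σ : ℕ → ℝ) (δ : ℝ) (hδ : 0 < δ)
    (hσ : ∀ᶠ j : ℕ in atTop, (j : ℝ) ^ δ ≤ Real.log (σ j)) (hσ0 : ∀ᶠ j : ℕ in atTop, 0 < σ j) :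
    Tendsto σ atTop atTop := by
  refine tendsto_atTop_mono' atTop ?_ ((tendsto_rpow_atTop hδ).comp tendsto_natCast_atTop_atTop)
  filter_upwards [hσ, hσ0] with j h1 h2
  have h3 := Real.log_le_sub_one_of_pos h2
  simp only [Function.comp]
  linarith

theorem main (g : ℕ → ℝ) (hg : ∀ n : ℕ, g n = if n.Prime then Real.log n else 0) (hb : LogBdd g) (hm : MeanZero (fun m => g m - 1))
    (σ : ℕ → ℝ) (δ : ℝ) (hδ : 0 < δ) (hσ : ∀ᶠ j : ℕ in atTop, (j : ℝ) ^ δ ≤ Real.log (σ j))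
    (hσ0 : ∀ᶠ j : ℕ in atTop, 0 < σ j) :
    ∀ᵐ l : ℝ × ℝ, 0 < l.1 → 0 < l.2 → ∀ u v : ℝ, u < v →
      Tendsto (fun j => ((Set.ncard {x : ℕ × ℕ | x.1.Prime ∧ x.2.Prime ∧ u < l.1 * x.1 + l.2 * x.2 - σ j ∧
        l.1 * x.1 + l.2 * x.2 - σ j < v} : ℕ) : ℝ) / (σ j / (Real.log (σ j)) ^ 2)) atTop (𝓝 ((v - u) / (l.1 * l.2))) := by
  have key : ∀ᵐ l : ℝ × ℝ, ∀ K : ℕ, ∀ i : ℤ, 1 ≤ K → 0 < l.1 → 0 < l.2 →
      ∀ A : ℕ, ∀ᶠ j : ℕ in atTop, |SS g (fun m => cell g K i m - 1) (σ j) (K / l.2, K * l.1 / l.2)| ≤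
        σ j / (Real.log (σ j)) ^ A := by
    rw [ae_all_iff]
    intro K
    rw [ae_all_iff]
    intro i
    by_cases hK : 1 ≤ K
    · have hc := cell_props g hb hm K hK i
      have h1 := ae_quadrant g (fun m => cell g K i m - 1) hb hc.1 hc.2 σ δ hδ hσ hσ0
      have hK0 : (0 : ℝ) < K := by exact_mod_cast hK
      have h2 := change (fun ω => ∀ A : ℕ, ∀ᶠ j : ℕ in atTop,
        |SS g (fun m => cell g K i m - 1) (σ j) ω| ≤ σ j / (Real.log (σ j)) ^ A) h1 K hK0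
      filter_upwards [h2] with l hl _ q1 q2
      exact hl q1 q2
    · exact Filter.Eventually.of_forall fun l h => absurd h hK
  have hσt := sigma_tendsto σ δ hδ hσ hσ0
  filter_upwards [key] with l hl h1 h2 u v huv
  have hcell : ∀ K : ℕ, 1 ≤ K → ∀ i : ℤ,
      Tendsto (fun j => (cnt l (σ j) (i * l.2 / K) ((i + 1) * l.2 / K) : ℝ) / |σ j / (Real.log (σ j)) ^ 2|)
        atTop (𝓝 (1 / (l.1 * l.2) * (l.2 / K))) := by
    intro K hK i
    have hK0 : (0 : ℝ) < K := by exact_mod_cast hK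
    have k1 := weighted g hb hm l h1 h2 σ hσt K hK i (hl K i hK h1 h2 1)
    have hab : (i : ℝ) * l.2 / K < ((i : ℝ) + 1) * l.2 / K := by
      rw [div_lt_div_iff_of_pos_right hK0]
      nlinarith
    have k2 := count g hg l h1 h2 σ hσt _ _ _ hab k1
    have e : 1 / (l.1 * l.2) * (l.2 / (K : ℝ)) = 1 / (l.1 * K) := by
      field_simp
    rw [e]
    refine k2.congr' ?_
    filter_upwards [hσ0] with j hj
    rw [abs_of_nonneg (by positivity)]
  have hsq := squeeze (fun j a b => (cnt l (σ j) a b : ℝ) / |σ j / (Real.log (σ j)) ^ 2|)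
    (fun j a b => by positivity)
    (fun j a b c hab hbc => by
      rw [cnt_add l h1 h2 (σ j) a b c hab hbc]
      push_cast
      ring) l.2 (1 / (l.1 * l.2)) h2 hcell
    (fun j => ((Set.ncard {x : ℕ × ℕ | x.1.Prime ∧ x.2.Prime ∧ u < l.1 * x.1 + l.2 * x.2 - σ j ∧
        l.1 * x.1 + l.2 * x.2 - σ j < v} : ℕ) : ℝ) / |σ j / (Real.log (σ j)) ^ 2|) (-v) (-u) (by linarith)
    (fun j => by
      refine div_le_div_of_nonneg_right ?_ (abs_nonneg _)
      have : Set.ncard {x : ℕ × ℕ | x.1.Prime ∧ x.2.Prime ∧ u < l.1 * x.1 + l.2 * x.2 - σ j ∧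
          l.1 * x.1 + l.2 * x.2 - σ j < v} ≤ cnt l (σ j) (-v) (-u) := by
        refine Set.ncard_le_ncard ?_ (fin_cnt l h1 h2 (σ j) (-v) (-u))
        rintro x ⟨p1, p2, p3, p4⟩
        exact ⟨p1, p2, by linarith, by linarith⟩
      exact_mod_cast this)
    (fun ε hε _ j => by
      refine div_le_div_of_nonneg_right ?_ (abs_nonneg _)
      have : cnt l (σ j) (-v + ε) (-u) ≤ Set.ncard {x : ℕ × ℕ | x.1.Prime ∧ x.2.Prime ∧
          u < l.1 * x.1 + l.2 * x.2 - σ j ∧ l.1 * x.1 + l.2 * x.2 - σ j < v} := by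
        refine Set.ncard_le_ncard ?_ ((fin_pairs l h1 h2 (σ j + v)).subset ?_)
        · rintro x ⟨p1, p2, p3, p4⟩
          exact ⟨p1, p2, by linarith, by linarith⟩
        · rintro x ⟨p1, p2, p3, p4⟩
          simp only [Set.mem_ofPred_eq]
          linarith
      exact_mod_cast this)
  have e2 : 1 / (l.1 * l.2) * (-u - -v) = (v - u) / (l.1 * l.2) := by ring
  rw [e2] at hsq
  refine hsq.congr' ?_
  filter_upwards [hσ0] with j hj
  rw [abs_of_nonneg (by positivity)]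

end TG11

end Pool.Agent.helper616_TG
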