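import Pool.Agent.helper616_TS.Main3
import Pool.Agent.helper616_TG.TG11

/-!
# Project TG (helper616): the numbers `l₁ p + l₂ q` near the elements of a sparse sequence
-/

set_option autoImplicit false

open Finset MeasureTheory Filter Topology
open Pool.Agent.helper616_TS

namespace Pool.Agent.helper616_TG

theorem goldbach (σ : ℕ → ℝ) (δ : ℝ) (hδ : 0 < δ) (hσ : ∀ᶠ j : ℕ in atTop, Real.exp ((j : ℝ) ^ δ) ≤ σ j) :
    ∀ᵐ l : ℝ × ℝ, 0 < l.1 → 0 < l.2 → ∀ u v : ℝ, u < v →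
      Tendsto (fun j => ((Set.ncard {x : ℕ × ℕ | x.1.Prime ∧ x.2.Prime ∧ u < l.1 * x.1 + l.2 * x.2 - σ j ∧
        l.1 * x.1 + l.2 * x.2 - σ j < v} : ℕ) : ℝ) / (σ j / (Real.log (σ j)) ^ 2)) atTop (𝓝 ((v - u) / (l.1 * l.2))) := by
  have h0 : ∀ᶠ j : ℕ in atTop, 0 < σ j := hσ.mono fun j hj => (Real.exp_pos _).trans_le hj
  refine TG11.main lp (fun _ => rfl) lp_props.2.2 lp_props.1 σ δ hδ ?_ h0
  filter_upwards [hσ, h0] with j hj hj0
  exact (Real.le_log_iff_exp_le hj0).2 hj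

end Pool.Agent.helper616_TG
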